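import Mathlib.GroupTheory.SpecificGroups.Dihedral

/-! Regular maps on non-orientable surfaces of Euler characteristic `-2 p`: definitions. -/

set_option autoImplicit false

namespace Pool.Agent.MP_912f41_co

open Subgroup DihedralGroup Equiv

variable {G : Type} [Group G]

/-- `(G; r0, r1, r2)` is a regular map on a non-orientable surface -/
structure IsNonorMap (r0 r1 r2 : G) : Prop where
  ord0 : orderOf r0 = 2
  ord1 : orderOf r1 = 2
  ord2 : orderOf r2 = 2
  comm : (r0 * r2) ^ 2 = 1
  gen : closure {r0, r1, r2} = ⊤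
  nonor : closure {r0 * r1, r1 * r2} = ⊤

/-- the Euler characteristic: vertices minus edges plus faces -/
noncomputable def euler (r0 r1 r2 : G) : ℤ :=
  ((closure {r1, r2}).index : ℤ) - (closure {r0, r2}).index + (closure {r0, r1}).index

/-- an injective homomorphism sends `r0, r1, r2` to `A, B, C` -/
def Emb (r0 r1 r2 : G) {H : Type} [Group H] (A B C : H) : Prop :=
  ∃ φ : G →* H, Function.Injective φ ∧ φ r0 = A ∧ φ r1 = B ∧ φ r2 = C

def A4 : Perm (Fin 4) := swap 0 1 * swap 2 3

def B4 : Perm (Fin 4) := swap 1 2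

def C4 : Perm (Fin 4) := swap 0 1

def A16 : Perm (Fin 16) := swap 0 4 * swap 1 15 * swap 2 9 * swap 3 10 * swap 5 6 * swap 7 8 *
  swap 11 12 * swap 13 14

def B16 : Perm (Fin 16) := swap 0 1 * swap 2 3 * swap 4 5 * swap 6 7 * swap 8 9 * swap 10 11 *
  swap 12 13 * swap 14 15

def C16 : Bool → Perm (Fin 16)
  | true => swap 1 2 * swap 5 13 * swap 6 14 * swap 7 11 * swap 8 12 * swap 9 15
  | false => swap 0 3 * swap 4 10 * swap 5 7 * swap 6 8 * swap 11 13 * swap 12 14

/-- names of the maps in the list -/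
inductive Fam
  | one (l : ℕ)
  | two (j l : ℕ)
  | three (s : Bool) (j l : ℕ)

/-- the members of the list that belong to the prime `p` -/
def Fam.ok (p : ℕ) : Fam → Prop
  | .one l => 3 * l = p + 2
  | .two j l => Odd j ∧ 6 * j * l = p + 2 * j + 3 * l
  | .three _ j l => Odd j ∧ 12 * j * l = p + 2 * j + 3 * l

/-- the triple `r0, r1, r2` is a copy of the explicit triple with the given name -/
def Fam.Model : Fam → G → G → G → Prop
  | .one l, r0, r1, r2 => Emb r0 r1 r2 (H := Perm (Fin 4) × DihedralGroup (6 * l))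
      (A4, 1) (B4, sr 0) (C4, sr 1)
  | .two j l, r0, r1, r2 =>
      Emb r0 r1 r2 (H := Perm (Fin 4) × DihedralGroup j × DihedralGroup (3 * l))
        (A4, sr 0, 1) (B4, sr 1, sr 0) (C4, 1, sr 1)
  | .three s j l, r0, r1, r2 =>
      Emb r0 r1 r2 (H := Perm (Fin 16) × DihedralGroup j × DihedralGroup (3 * l))
        (A16, sr 0, 1) (B16, sr 1, sr 0) (C16 s, 1, sr 1)

end Pool.Agent.MP_912f41_co
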