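import Pool.Agent.MP_912f41_co.Emb

/-! The explicit models. -/

set_option autoImplicit false

namespace Pool.Agent.MP_912f41_co

open Subgroup DihedralGroup Equiv

variable {G : Type} [Group G] {a b c : G}

theorem base1 : R1 ((A4, 1) : Perm (Fin 4) × DihedralGroup 6) (B4, sr 0) (C4, sr 1) := by
  unfold R1
  decide +kernel

theorem base2 : R2 2 true ((A4, sr 0, 1) : Perm (Fin 4) × DihedralGroup 1 × DihedralGroup 3)
    (B4, sr 1, sr 0) (C4, 1, sr 1) := by
  unfold R2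
  decide +kernel

theorem base3 (s : Bool) : R2 4 s
    ((A16, sr 0, 1) : Perm (Fin 16) × DihedralGroup 1 × DihedralGroup 3)
    (B16, sr 1, sr 0) (C16 s, 1, sr 1) := by
  unfold R2
  cases s <;> decide +kernel

theorem ord_AB4 : orderOf (A4 * B4) = 4 := (orderOf_eq_iff (by norm_num)).2 (by decide +kernel)

theorem ord_BC4 : orderOf (B4 * C4) = 3 := (orderOf_eq_iff (by norm_num)).2 (by decide +kernel)

theorem ord_AB16 : orderOf (A16 * B16) = 8 := (orderOf_eq_iff (by norm_num)).2 (by decide +kernel)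

theorem ord_BC16 (s : Bool) : orderOf (B16 * C16 s) = 12 :=
  (orderOf_eq_iff (by norm_num)).2 (by cases s <;> decide +kernel)

theorem ord_W16 : orderOf ((B16 * C16 false) ^ 3 * (W3 true A16 B16 (C16 false))⁻¹) = 2 :=
  (orderOf_eq_iff (by norm_num)).2 (by decide +kernel)

theorem map_W3 {H : Type} [Group H] (φ : G →* H) (s : Bool) (a b c : G) :
    φ (W3 s a b c) = W3 s (φ a) (φ b) (φ c) := by
  cases s <;> simp only [W3, cond, map_mul]

theorem W3_prod {H : Type} [Group H] (s : Bool) (a b c : G) (A B C : H) :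
    W3 s (a, A) (b, B) (c, C) = (W3 s a b c, W3 s A B C) := by
  cases s <;> rfl

theorem R1.fst {H : Type} [Group H] {A B C : H} (h : R1 (a, A) (b, B) (c, C)) : R1 a b c := by
  obtain ⟨h1, h2, h3, h4, h5, h6, h7⟩ := h
  exact ⟨congrArg Prod.fst h1, congrArg Prod.fst h2, congrArg Prod.fst h3, congrArg Prod.fst h4,
    congrArg Prod.fst h5, congrArg Prod.fst h6, congrArg Prod.fst h7⟩

theorem R2.fst {H : Type} [Group H] {A B C : H} {k : ℕ} {s : Bool}
    (h : R2 k s (a, A) (b, B) (c, C)) : R2 k s a b c := by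
  obtain ⟨h1, h2, h3, h4, h5, h6, h7, h8⟩ := h
  rw [W3_prod] at h8
  exact ⟨congrArg Prod.fst h1, congrArg Prod.fst h2, congrArg Prod.fst h3, congrArg Prod.fst h4,
    congrArg Prod.fst h5, congrArg Prod.fst h6, congrArg Prod.fst h7, congrArg Prod.fst h8⟩

theorem NM.gcd_le [Finite G] (h : NM a b c) {t : ℕ} (ht : Nat.card G = 2 * LL a b c * t)
    (hX : zpowers (a * b) ⊓ closure {b, c} = ⊥) :
    Nat.gcd (orderOf (a * b)) (orderOf (b * c)) ≤ t := by
  obtain ⟨u, p, q, e, -⟩ := h.gf (H := closure {b, c}) l_mem_dih r_mem_dih (f := 1) ht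
    (by rw [h.card_DY, mul_one]) 1
  rw [cj_one, h.kappa_one l_mem_dih, hX, card_bot] at e
  omega

theorem NM.inter_bot [Finite G] (h : NM a b c) (ψ : G →* Perm (Fin 4)) (ha : ψ a = A4)
    (hb : ψ b = B4) (hc : ψ c = C4) {j : ℕ} (jo : Odd j) (hm : orderOf (a * b) = 2 * (2 * j)) :
    zpowers (a * b) ⊓ closure {b, c} = ⊥ := by
  refine (eq_bot_iff_forall _).2 fun w hw => ?_
  have o2 : orderOf ((a * b) ^ (2 * j)) = 2 := by
    rw [orderOf_pow, hm, Nat.gcd_eq_right (Dvd.intro_left _ rfl),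
      Nat.mul_div_cancel _ (by have := jo.pos; omega)]
  refine (zp_two ((sq _).symm.trans (orderOf_dvd_iff_pow_eq_one.1 o2.dvd)) (cyc_mem_zp (pow_mem (mem_zpowers _) _)
    hw.1 ((orderOf_dvd_of_pow_eq_one ((sq w).trans (h.inter_sq hw.1 hw.2))).trans
      o2.symm.dvd))).resolve_right ?_
  rintro rfl
  have h1 : ψ ((a * b) ^ (2 * j)) 3 = 3 := dih_le
    (H := (MulAction.stabilizer (Perm (Fin 4)) (3 : Fin 4)).comap ψ)
    (show ψ b 3 = 3 by rw [hb]; decide) (show ψ c 3 = 3 by rw [hc]; decide) hw.2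
  obtain ⟨i, rfl⟩ := jo
  rw [map_pow, map_mul, ha, hb, show 2 * (2 * i + 1) = 4 * i + 2 by ring, pow_add, pow_mul,
    orderOf_dvd_iff_pow_eq_one.1 ord_AB4.dvd, one_pow, one_mul] at h1
  exact absurd h1 (by decide)

theorem model1 {l : ℕ} (lo : Odd l) (gen : closure {a, b, c} = ⊤)
    (h : (Fam.one l).Model a b c) : Finite G ∧ NM a b c ∧ orderOf (a * b) = 2 * (2 * 1) ∧
      orderOf (b * c) = 2 * (3 * l) ∧ Nat.card G ≤ 1 * l * (24 * 2) ∧
      c * (b * a * b) * c = a * (b * a * b) := by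
  obtain ⟨φ, inj, ha, hb, hc⟩ := h
  have : NeZero (6 * l) := ⟨by have := lo.pos; omega⟩
  obtain ⟨h1, h2, h3, h4, -, -, h7⟩ := base1.fst
  have a2 : a * a = 1 := inj (by
    rw [map_mul, ha, map_one]; exact Prod.ext h1 (one_mul _))
  have b2 : b * b = 1 := inj (by
    rw [map_mul, hb, map_one]; exact Prod.ext h2 (sr_mul_self _))
  have c2 : c * c = 1 := inj (by
    rw [map_mul, hc, map_one]; exact Prod.ext h3 (sr_mul_self _))
  have ac : a * c = c * a := inj (by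
    rw [map_mul, map_mul, ha, hc]; exact Prod.ext h4 (by simp))
  have rel : c * (b * a * b) * c = a * (b * a * b) := inj (by
    simp only [map_mul, ha, hb, hc]
    exact Prod.ext h7 (by simp))
  have N := nf a2 b2 c2 ac
  have l1 : a * b ∈ closure {a * b, b * c} := l_mem_dih
  have r1 : b * c ∈ closure {a * b, b * c} := r_mem_dih
  refine ⟨Finite.of_injective φ inj, ⟨⟨a2, b2, c2, ac, gen, non_of_odd a2 b2 c2 ac gen
    (w := (a * (b * a * b))⁻¹ * (c * (b * a * b) * c)) ?_ odd_one (by rw [rel, inv_mul_cancel, one_pow])⟩,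
    fun e => ?_, fun e => ?_, fun e => ?_⟩, ?_, ?_, ?_, rel⟩
  · simpa only [N] using mul_mem (mul_mem (inv_mem l1) (inv_mem l1))
      (mul_mem (inv_mem r1) (mul_mem l1 (mul_mem l1 r1)))
  · rw [e, map_one] at ha
    exact absurd (congrArg Prod.fst ha :) (show (1 : Perm (Fin 4)) ≠ A4 by decide)
  · rw [e, map_one] at hb
    exact sr_ne_one _ (congrArg Prod.snd hb).symm
  · rw [e, map_one] at hc
    exact sr_ne_one _ (congrArg Prod.snd hc).symm
  · rw [← orderOf_injective φ inj, map_mul, ha, hb, Prod.mk_mul_mk, Prod.orderOf_mk, ord_AB4,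
      one_mul, orderOf_sr]
    rfl
  · rw [← orderOf_injective φ inj, map_mul, hb, hc, Prod.mk_mul_mk, Prod.orderOf_mk, ord_BC4,
      sr01, orderOf_r_one, Nat.lcm_eq_right ⟨2 * l, by ring⟩]
    ring
  · have e := card_le_of_proj ((MonoidHom.id _).prodMap (dproj (Dvd.intro l rfl)))
      (Function.surjective_id.prodMap (dproj_surj _)) (φ a) (φ b) (φ c) (k := l) (by
        simp only [Nat.card_prod, nat_card]; ring)
    rw [← range_eq gen, ← Nat.card_congr (MonoidHom.ofInjective inj).toEquiv, ha, hb, hc] at e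
    simp only [MonoidHom.coe_prodMap, Prod.map, MonoidHom.id_apply, map_one, dproj0, dproj1] at e
    rw [one_mul]
    exact e.trans (Nat.mul_le_mul_left _ base1.ub)

theorem model2 {P : Type} [Group P] [Finite P] {A B C : P} {k : ℕ} {s : Bool} (k0 : 0 < k)
    (hR : R2 k s ((A, sr 0, 1) : P × DihedralGroup 1 × DihedralGroup 3) (B, sr 1, sr 0)
      (C, 1, sr 1)) {j l : ℕ} (jo : Odd j) (lo : Odd l) (gen : closure {a, b, c} = ⊤)
    (h : Emb a b c (H := P × DihedralGroup j × DihedralGroup (3 * l))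
      (A, sr 0, 1) (B, sr 1, sr 0) (C, 1, sr 1)) : Finite G ∧ NM a b c ∧
      orderOf (a * b) = Nat.lcm (orderOf (A * B)) (Nat.lcm j 2) ∧
      orderOf (b * c) = Nat.lcm (orderOf (B * C)) (Nat.lcm 2 (3 * l)) ∧
      Nat.card G ≤ j * l * (24 * k) ∧ ((b * c) ^ 3 * (W3 s a b c)⁻¹) ^ (j * l) = 1 := by
  obtain ⟨φ, inj, ha, hb, hc⟩ := h
  have : NeZero (3 * l) := ⟨by have := lo.pos; omega⟩
  have : NeZero j := ⟨jo.pos.ne'⟩
  have ub := hR.ub k0
  obtain ⟨h1, h2, h3, h4, -, -, -, h8⟩ := hR.fst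
  have a2 : a * a = 1 := inj (by
    rw [map_mul, ha, map_one]
    exact Prod.ext h1 (Prod.ext (sr_mul_self _) (one_mul _)))
  have b2 : b * b = 1 := inj (by
    rw [map_mul, hb, map_one]
    exact Prod.ext h2 (Prod.ext (sr_mul_self _) (sr_mul_self _)))
  have c2 : c * c = 1 := inj (by
    rw [map_mul, hc, map_one]
    exact Prod.ext h3 (Prod.ext (one_mul _) (sr_mul_self _)))
  have ac : a * c = c * a := inj (by
    rw [map_mul, map_mul, ha, hc]; exact Prod.ext h4 (by simp))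
  have rel : ((b * c) ^ 3 * (W3 s a b c)⁻¹) ^ (j * l) = 1 := inj (by
    simp only [map_mul, map_pow, map_inv, map_W3, ha, hb, hc, W3_prod, map_one]
    refine Prod.ext (by simp [h8]) (Prod.ext ?_ ?_)
    · cases s <;> simp [W3, pow_succ]
    · have : (3 : ZMod (3 * l)) * (j * l) = 0 := by
        have := ZMod.natCast_self (3 * l)
        push_cast at this
        rw [mul_left_comm, this, mul_zero]
      cases s <;> simp [W3, this])
  have N := nf a2 b2 c2 ac
  have l1 : a * b ∈ closure {a * b, b * c} := l_mem_dih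
  have r1 : b * c ∈ closure {a * b, b * c} := r_mem_dih
  refine ⟨Finite.of_injective φ inj, ⟨⟨a2, b2, c2, ac, gen, non_of_odd a2 b2 c2 ac gen
    ?_ (jo.mul lo) rel⟩, fun e => ?_, fun e => ?_, fun e => ?_⟩, ?_, ?_, ?_, rel⟩
  · rw [mul_assoc]
    refine mul_mem (pow_mem r1 3) ?_
    cases s
    · simpa only [N, W3, cond] using mul_mem (mul_mem l1 l1)
        (mul_mem (mul_mem r1 (inv_mem l1)) (mul_mem r1 (inv_mem l1)))
    · simpa only [N, W3, cond] using mul_mem (mul_mem r1 (inv_mem l1)) (mul_mem r1 l1)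
  · rw [e, map_one] at ha
    exact sr_ne_one _ (congrArg (fun g => g.2.1) ha).symm
  · rw [e, map_one] at hb
    exact sr_ne_one _ (congrArg (fun g => g.2.1) hb).symm
  · rw [e, map_one] at hc
    exact sr_ne_one _ (congrArg (fun g => g.2.2) hc).symm
  · rw [← orderOf_injective φ inj, map_mul, ha, hb, Prod.mk_mul_mk, Prod.mk_mul_mk,
      Prod.orderOf_mk, Prod.orderOf_mk, one_mul, orderOf_sr, sr01, orderOf_r_one]
  · rw [← orderOf_injective φ inj, map_mul, hb, hc, Prod.mk_mul_mk, Prod.mk_mul_mk,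
      Prod.orderOf_mk, Prod.orderOf_mk, mul_one, orderOf_sr, sr01, orderOf_r_one]
  · have e := card_le_of_proj ((MonoidHom.id _).prodMap ((dproj (one_dvd j)).prodMap
      (dproj (Dvd.intro l rfl)))) (Function.surjective_id.prodMap
        ((dproj_surj _).prodMap (dproj_surj _))) (φ a) (φ b) (φ c) (k := j * l) (by
        simp only [Nat.card_prod, nat_card]; ring)
    rw [← range_eq gen, ← Nat.card_congr (MonoidHom.ofInjective inj).toEquiv, ha, hb, hc] at e
    simp only [MonoidHom.coe_prodMap, Prod.map, MonoidHom.id_apply, map_one, dproj0, dproj1] at e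
    exact e.trans (Nat.mul_le_mul_left _ ub)

/-- first parameter -/
def Fam.j : Fam → ℕ
  | .one _ => 1
  | .two j _ => j
  | .three _ j _ => j

/-- second parameter -/
def Fam.l : Fam → ℕ
  | .one l => l
  | .two _ l => l
  | .three _ _ l => l

/-- greatest common divisor of valency and face length -/
def Fam.g : Fam → ℕ
  | .one _ => 2
  | .two _ _ => 2
  | .three _ _ _ => 4

theorem Fam.ok_iff (p : ℕ) (τ : Fam) :
    τ.ok p ↔ Odd τ.j ∧ 3 * τ.g * (τ.j * τ.l) = p + 2 * τ.j + 3 * τ.l := by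
  cases τ <;> simp only [ok, j, l, g, mul_assoc, odd_one, true_and]
  · omega
  · exact and_congr_right fun _ => by omega
  · exact and_congr_right fun _ => by omega

theorem LL_eq {g j l : ℕ} (co : (2 * j).Coprime (3 * l)) (hm : orderOf (a * b) = g * (2 * j))
    (hn : orderOf (b * c) = g * (3 * l)) : LL a b c = g * (2 * j * (3 * l)) ∧
      Nat.gcd (orderOf (a * b)) (orderOf (b * c)) = g := by
  rw [LL, hm, hn, Nat.lcm_mul_left, Nat.gcd_mul_left, co.lcm_eq_mul, co.gcd_eq_one, mul_one]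
  exact ⟨rfl, rfl⟩

theorem model (τ : Fam) (jo : Odd τ.j) (lo : Odd τ.l) (co : (2 * τ.j).Coprime (3 * τ.l))
    (gen : closure {a, b, c} = ⊤) (h : τ.Model a b c) : Finite G ∧ NM a b c ∧
      orderOf (a * b) = τ.g * (2 * τ.j) ∧ orderOf (b * c) = τ.g * (3 * τ.l) ∧
      Nat.card G = 2 * LL a b c * 2 := by
  have fin : ∀ [Finite G], NM a b c → orderOf (a * b) = τ.g * (2 * τ.j) →
      orderOf (b * c) = τ.g * (3 * τ.l) → Nat.card G ≤ τ.j * τ.l * (24 * τ.g) →
      (∀ t, Nat.card G = 2 * LL a b c * t → Nat.gcd (orderOf (a * b)) (orderOf (b * c)) = τ.g →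
        2 ≤ t) → Nat.card G = 2 * LL a b c * 2 := fun h hm hn hc ht => by
    obtain ⟨t, e⟩ := h.two_L_dvd
    obtain ⟨e1, e2⟩ := LL_eq co hm hn
    refine le_antisymm (hc.trans (le_of_eq (by rw [e1]; ring))) ?_
    rw [e]
    exact Nat.mul_le_mul_left _ (ht t e e2)
  have c2 : ∀ {k : ℕ}, Odd k → ∀ i, Nat.lcm (2 ^ (i + 1)) (Nat.lcm k 2) = 2 ^ (i + 1) * k :=
    fun ho i => by
      rw [Nat.lcm_comm _ 2, ← Nat.lcm_assoc, Nat.lcm_eq_left (Dvd.intro_left _ (pow_succ 2 i).symm),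
        (Nat.Coprime.pow_left _ (Nat.coprime_two_left.2 ho)).lcm_eq_mul]
  cases τ with
  | one l =>
    obtain ⟨_, nm, hm, hn, hc, -⟩ := model1 lo gen h
    obtain ⟨φ, -, ha, hb, hc'⟩ := h
    exact ⟨‹_›, nm, hm, hn, fin nm hm hn hc fun t ht e => e.symm.trans_le (nm.gcd_le ht
      (nm.inter_bot ((MonoidHom.fst _ _).comp φ) (congrArg Prod.fst ha) (congrArg Prod.fst hb)
        (congrArg Prod.fst hc') odd_one hm))⟩
  | two j l =>
    obtain ⟨_, nm, hm, hn, hc, -⟩ := model2 (by norm_num) base2 jo lo gen h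
    obtain ⟨φ, -, ha, hb, hc'⟩ := h
    rw [ord_AB4, show 4 = 2 ^ (1 + 1) by rfl, c2 jo] at hm
    rw [ord_BC4, (Nat.coprime_two_left.2 ((by decide : Odd 3).mul lo)).lcm_eq_mul,
      Nat.lcm_eq_right ((Dvd.intro _ rfl).mul_left 2)] at hn
    replace hm : orderOf (a * b) = 2 * (2 * j) := by rw [hm, ← mul_assoc]; rfl
    exact ⟨‹_›, nm, hm, hn, fin nm hm hn hc fun t ht e => e.symm.trans_le (nm.gcd_le ht
      (nm.inter_bot ((MonoidHom.fst _ _).comp φ) (congrArg Prod.fst ha) (congrArg Prod.fst hb)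
        (congrArg Prod.fst hc') jo hm))⟩
  | three s j l =>
    obtain ⟨_, nm, hm, hn, hc, -⟩ := model2 (by norm_num) (base3 s) jo lo gen h
    rw [ord_AB16, show 8 = 2 ^ (2 + 1) by rfl, c2 jo] at hm
    rw [ord_BC16, ← Nat.lcm_assoc, show Nat.lcm 12 2 = 3 * 2 ^ 2 by rfl, Nat.lcm_mul_left,
      (Nat.Coprime.pow_left _ (Nat.coprime_two_left.2 lo)).lcm_eq_mul] at hn
    replace hm : orderOf (a * b) = 4 * (2 * j) := by rw [hm, ← mul_assoc]; rfl
    replace hn : orderOf (b * c) = 4 * (3 * l) := by rw [hn, mul_left_comm]; rfl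
    refine ⟨‹_›, nm, hm, hn, fin nm hm hn hc fun t ht e => ?_⟩
    obtain ⟨u, -, ut, e1⟩ := nm.gcd_eq ht
    change _ = 4 at e
    omega

theorem emb_self {H : Type} [Group H] (A B C : H) :
    Emb (⟨A, (mem3 A B C).1⟩ : closure ({A, B, C} : Set H)) ⟨B, (mem3 A B C).2.1⟩
      ⟨C, (mem3 A B C).2.2⟩ A B C := ⟨Subgroup.subtype _, subtype_injective _, rfl, rfl, rfl⟩

theorem emb_of [Finite G] {H : Type} [Group H] {A B C : H} (gen : closure {a, b, c} = ⊤)
    (φ : G →* H) (ha : φ a = A) (hb : φ b = B) (hc : φ c = C)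
    (h : Nat.card G ≤ Nat.card (closure {A, B, C} : Subgroup H)) : Emb a b c A B C :=
  ⟨φ, inj_of_card φ (by rwa [range_eq gen, ha, hb, hc]), ha, hb, hc⟩

theorem model_card {τ : Fam} (jo : Odd τ.j) (lo : Odd τ.l) (co : (2 * τ.j).Coprime (3 * τ.l))
    (gen : closure {a, b, c} = ⊤) (h : τ.Model a b c) :
    Nat.card G = 24 * τ.g * (τ.j * τ.l) := by
  obtain ⟨-, -, hm, hn, hc⟩ := model τ jo lo co gen h
  rw [hc, (LL_eq co hm hn).1]
  ring

/-- data of the reduction step -/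
structure UD (a b c : G) (U : Subgroup G) [U.Normal] (j l : ℕ) : Prop where
  nm : NM a b c
  ho : ∀ w ∈ U, Odd (orderOf w)
  hj : Nat.card (zpowers (a * b) ⊓ U : Subgroup G) = j
  hl : Nat.card (zpowers (b * c) ⊓ U : Subgroup G) = l
  cU : Nat.card U = j * l
  jo : Odd j
  lo : Odd l
  red : Red (G ⧸ U)
  nq : NM (QuotientGroup.mk' U a) (QuotientGroup.mk' U b) (QuotientGroup.mk' U c)
  hL : LL a b c = LL (QuotientGroup.mk' U a) (QuotientGroup.mk' U b) (QuotientGroup.mk' U c) *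
    (j * l)

variable {U : Subgroup G} [U.Normal] {j l : ℕ}

theorem UD.dual (h : UD a b c U j l) : UD c b a U l j :=
  ⟨h.nm.dual, h.ho, zp_dual h.nm.b2 h.nm.c2 ▸ h.hl, zp_dual h.nm.a2 h.nm.b2 ▸ h.hj,
    h.cU.trans (mul_comm _ _), h.lo, h.jo, h.red, h.nq.dual, by
      rw [h.nm.LL_dual, h.nq.LL_dual, h.hL, mul_comm l]⟩

theorem UD.cj [Finite G] [IsCyclic U] (h : UD a b c U j l) :
    ∀ z ∈ zpowers (a * b) ⊓ U, z * c = c * z := fun _ hz =>
  have := cyc_normal (Z := U) (inf_le_right : zpowers (a * b) ⊓ U ≤ U)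
  (h.nm.c_comm inf_le_left (fun w hw => h.ho w hw.2) hz).symm

theorem UD.cl [Finite G] [IsCyclic U] (h : UD a b c U j l) :
    ∀ z ∈ zpowers (b * c) ⊓ U, z * a = a * z := zp_dual h.nm.b2 h.nm.c2 ▸ h.dual.cj

theorem UD.emb1 [Finite G] [IsCyclic U] (h : UD a b c U j l)
    (hn : orderOf (QuotientGroup.mk' U (b * c)) = 6) (hQ : Nat.card (G ⧸ U) = 48)
    (co : (2 * j).Coprime (3 * l))
    (hR : R1 (QuotientGroup.mk' U a) (QuotientGroup.mk' U b) (QuotientGroup.mk' U c)) :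
    j = 1 ∧ (Fam.one l).Model a b c := by
  have N := nf h.nm.a2 h.nm.b2 h.nm.c2 h.nm.ac
  obtain rfl : j = 1 := by
    rw [← h.hj, card_eq_one, eq_bot_iff_forall]
    intro w hw
    have h1 : (a * (b * a * b))⁻¹ * (c * (b * a * b) * c) ∈ U := (QuotientGroup.eq_one_iff _).1 (by
      rw [← QuotientGroup.mk'_apply]
      simp only [map_mul, map_inv, hR.2.2.2.2.2.2, inv_mul_cancel])
    have ha : ∀ w ∈ zpowers (a * b) ⊓ U, ∀ g, a * (w * g) = w⁻¹ * (a * g) := fun w hw g => by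
      rw [← dih_inv_l h.nm.a2 h.nm.b2 hw.1]
      simp only [N]
    have hb : ∀ w ∈ zpowers (a * b) ⊓ U, ∀ g, b * (w * g) = w⁻¹ * (b * g) := fun w hw g => by
      rw [← dih_inv_r h.nm.a2 h.nm.b2 hw.1]
      simp only [N]
    have hc : ∀ w ∈ zpowers (a * b) ⊓ U, ∀ g, c * (w * g) = w * (c * g) := fun w hw g => by
      rw [← mul_assoc, ← h.cj w hw, mul_assoc]
    have h2 := congrArg (· * a) (cyc_comm h1 hw.2)
    simp only [N, hb _ hw, hc _ hw, ha _ (inv_mem hw), hc _ (inv_mem hw), inv_inv,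
      mul_left_inj] at h2
    exact eq_one_of_odd (h.ho w hw.2) (mul_eq_one_iff_eq_inv.2 h2.symm)
  obtain ⟨ψ, ha, hb, hc⟩ := trick (gen_map h.nm.gen U) (hQ ▸ (hR.prod base1).ub)
  have hG : Nat.card G = 2 * 6 * (l * 4) := by rw [← card_quot U, hQ, h.cU]; ring
  obtain ⟨φ, ka, kb, kc⟩ := hom_dih h.nm.gen h.nm.a2 h.nm.b2 h.nm.c2 U (q := 6) (k := 1) h.cl
    ((MonoidHom.snd _ _).comp (ψ.comp (QuotientGroup.mk' U))) (congrArg Prod.snd ha)
    (congrArg Prod.snd hb) (congrArg Prod.snd hc) hn h.hl h.lo hG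
    (Nat.Coprime.pow_left 2 (Nat.coprime_two_left.2 h.lo)) (Nat.coprime_one_left _)
  refine ⟨rfl, emb_of h.nm.gen (((MonoidHom.fst _ _).comp (ψ.comp (QuotientGroup.mk' U))).prod φ)
    (Prod.ext (congrArg Prod.fst ha :) ka) (Prod.ext (congrArg Prod.fst hb :) kb)
    (Prod.ext (congrArg Prod.fst hc :) kc) (le_of_eq ?_)⟩
  rw [model_card (τ := .one l) odd_one h.lo co (gen_sub _ _ _) (emb_self _ _ _), hG]
  simp only [Fam.g, Fam.j, Fam.l]
  ring

theorem UD.emb2 [Finite G] [IsCyclic U] (h : UD a b c U j l) {k : ℕ} {s : Bool} (k4 : k ∣ 2 ^ 2)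
    (hm : orderOf (QuotientGroup.mk' U (a * b)) = 2 * k)
    (hn : orderOf (QuotientGroup.mk' U (b * c)) = 3 * k) (hQ : Nat.card (G ⧸ U) = 24 * k)
    (co : (2 * j).Coprime (3 * l))
    (hR : R2 k s (QuotientGroup.mk' U a) (QuotientGroup.mk' U b) (QuotientGroup.mk' U c))
    {P : Type} [Group P] [Finite P] {A B C : P}
    (hR' : R2 k s ((A, sr 0, 1) : P × DihedralGroup 1 × DihedralGroup 3) (B, sr 1, sr 0)
      (C, 1, sr 1)) : ∃ φ : G →* P × DihedralGroup j × DihedralGroup (3 * l),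
      φ a = (A, sr 0, 1) ∧ φ b = (B, sr 1, sr 0) ∧ φ c = (C, 1, sr 1) := by
  have k0 : 0 < k := Nat.pos_of_dvd_of_pos k4 (by norm_num)
  obtain ⟨ψ, ha, hb, hc⟩ := trick (gen_map h.nm.gen U) (hQ ▸ (hR.prod hR').ub k0)
  have hG : Nat.card G = 24 * k * (j * l) := by rw [← card_quot U, hQ, h.cU]
  have ck : ∀ {i : ℕ}, Odd i → k.Coprime i := fun ho =>
    (Nat.Coprime.pow_left 2 (Nat.coprime_two_left.2 ho)).coprime_dvd_left k4
  have c4 : ∀ {i : ℕ}, Odd i → (4 * k).Coprime i := fun ho =>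
    (Nat.Coprime.pow_left 2 (Nat.coprime_two_left.2 ho)).mul_left (ck ho)
  obtain ⟨φ, ka, kb, kc⟩ := hom_dih h.nm.gen h.nm.a2 h.nm.b2 h.nm.c2 U (q := 3) (k := k)
    (t := 4 * k * j) h.cl ((MonoidHom.snd _ _).comp ((MonoidHom.snd _ _).comp
      (ψ.comp (QuotientGroup.mk' U)))) (congrArg (·.2.2) ha) (congrArg (·.2.2) hb)
    (congrArg (·.2.2) hc) hn h.hl h.lo (by rw [hG]; ring)
    ((c4 h.lo).mul_left (co.coprime_mul_left.coprime_mul_left_right))
    (ck ((by decide : Odd 3).mul h.lo))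
  obtain ⟨m1, m2, m3⟩ := mem3 c a b
  obtain ⟨θ, tc, ta, tb⟩ := hom_dih (h.nm.eq_top m2 m3 m1) h.nm.c2 h.nm.a2 h.nm.b2 U (q := 1)
    (k := 2 * k) (t := 4 * k * (3 * l)) h.cj ((MonoidHom.fst _ _).comp ((MonoidHom.snd _ _).comp
      (ψ.comp (QuotientGroup.mk' U)))) (congrArg (·.2.1) hc) (congrArg (·.2.1) ha)
    (congrArg (·.2.1) hb) (by rw [hm, one_mul]) h.hj h.jo (by rw [hG]; ring)
    ((c4 h.jo).mul_left co.coprime_mul_left.symm)
    (by rw [one_mul]; exact (Nat.coprime_two_left.2 h.jo).mul_left (ck h.jo))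
  refine ⟨((MonoidHom.fst _ _).comp (ψ.comp (QuotientGroup.mk' U))).prod
    (((dproj (Dvd.intro_left 1 rfl)).comp θ).prod φ),
    Prod.ext (congrArg Prod.fst ha :) (Prod.ext ?_ ka),
    Prod.ext (congrArg Prod.fst hb :) (Prod.ext ?_ kb),
    Prod.ext (congrArg Prod.fst hc :) (Prod.ext ?_ kc)⟩
  · exact (congrArg (dproj _) ta).trans (dproj0 _)
  · exact (congrArg (dproj _) tb).trans (dproj1 _)
  · exact (congrArg (dproj _) tc).trans (map_one _)

end Pool.Agent.MP_912f41_co
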