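import Pool.Agent.MP_912f41_co.Case

-- ======== part 0: formerly Pool.Agent.MP_912f41_co.Base
section MrgPart0

/-! Reduced solvable triples: the four base maps. -/

set_option autoImplicit false

namespace Pool.Agent.MP_912f41_co

open Subgroup

variable {G : Type} [Group G] {a b c : G}

/-- relations of the first base map -/
def R1 (a b c : G) : Prop := a * a = 1 ∧ b * b = 1 ∧ c * c = 1 ∧ a * c = c * a ∧
  (a * b) ^ 4 = 1 ∧ (b * c) ^ 6 = 1 ∧ c * (b * a * b) * c = a * (b * a * b)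

/-- product of three conjugates -/
def W3 (s : Bool) (a b c : G) : G :=
  cond s (a * (b * a * b) * (b * (c * (b * a * b) * c) * b))
    (b * (c * (b * a * b) * c) * b * (b * a * b) * a)

/-- relations of the other base maps -/
def R2 (k : ℕ) (s : Bool) (a b c : G) : Prop := a * a = 1 ∧ b * b = 1 ∧ c * c = 1 ∧
  a * c = c * a ∧ a * (b * c) ^ 3 = (b * c) ^ 3 * a ∧ (b * c) ^ (3 * k) = 1 ∧
  (b * c) ^ 6 = (a * b) ^ 4 ∧ (b * c) ^ 3 = W3 s a b c

theorem zp_par {u w : G} (hw : w ∈ zpowers u) : w ∈ zpowers (u * u) ∨ w * u ∈ zpowers (u * u) := by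
  obtain ⟨i, rfl⟩ := mem_zpowers_iff.1 hw
  rcases Int.even_or_odd' i with ⟨k, rfl | rfl⟩
  · exact Or.inl (mem_zpowers_iff.2 ⟨k, by rw [zpow_mul, zpow_two]⟩)
  · exact Or.inr (mem_zpowers_iff.2 ⟨k + 1, by rw [← zpow_two, ← zpow_mul, ← zpow_add_one]; ring_nf⟩)

theorem zp_two {u w : G} (hu : u * u = 1) (hw : w ∈ zpowers u) : w = 1 ∨ w = u := by
  have := zp_par hw
  rwa [hu, zpowers_one_eq_bot, mem_bot, mem_bot, mul_eq_one_iff_eq_inv, inv_eq_self hu] at this

theorem dih_four {s t w : G} (hs : s * s = 1) (ht : t * t = 1) (h : s * t * (s * t) = 1)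
    (hw : w ∈ closure {s, t}) : w = 1 ∨ w = s * t ∨ w = t ∨ w = s := by
  rcases (dih_mem hs ht).1 hw with h1 | h1 <;> rcases zp_two h h1 with h2 | h2
  · exact Or.inl h2
  · exact Or.inr (Or.inl h2)
  · exact Or.inr (Or.inr (Or.inl (by rwa [mul_eq_one_iff_eq_inv, inv_eq_self ht] at h2)))
  · exact Or.inr (Or.inr (Or.inr (mul_right_cancel h2)))

theorem conj_dih {g s t w : G} {H : Subgroup G} (hg : g * g = 1) (hs : g * s * g ∈ H)
    (ht : g * t * g ∈ H) (hw : w ∈ closure {s, t}) : g * w * g ∈ H := by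
  have := mem_cj.1 (dih_le (H := cj H g) (mem_cj.2 (by rwa [inv_eq_self hg]))
    (mem_cj.2 (by rwa [inv_eq_self hg])) hw)
  rwa [inv_eq_self hg] at this

theorem conj_sq {g s : G} (hg : g * g = 1) (hs : s * s = 1) : g * s * g * (g * s * g) = 1 := by
  simp only [mul_assoc, mul_cancel_inv hg, mul_cancel_inv hs, hg]

theorem conj_mem' {N : Subgroup G} [hN : N.Normal] {g w : G} (hg : g * g = 1) (hw : w ∈ N) :
    g * w * g ∈ N := by
  have := hN.conj_mem w hw g
  rwa [inv_eq_self hg] at this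

theorem WM.zp_normal [Finite G] (h : WM a b c) {z : G} (hz : z ∈ zpowers (b * c))
    (ha : a * z * a ∈ zpowers z) : (zpowers z).Normal :=
  h.normal (fun w hw => by
      have := zp_conj (g := a) (by rwa [inv_eq_self h.a2]) hw
      rwa [inv_eq_self h.a2] at this)
    (fun _ hw => dih_inv_l h.b2 h.c2 (zpowers_le_of_mem hz hw) ▸ inv_mem hw)
    fun _ hw => dih_inv_r h.b2 h.c2 (zpowers_le_of_mem hz hw) ▸ inv_mem hw

theorem WM.kill [Finite G] (h : WM a b c) (hr : Red G) (S : Subgroup G) [S.Normal] [IsCyclic S]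
    {z : G} (hz : z ∈ zpowers (b * c)) (ho : Odd (orderOf z)) (hS : z * a * z⁻¹ * a ∈ S) :
    z = 1 := by
  set σ := z * a * z⁻¹ * a with hσ
  have e : z * a = σ * a * z := by simp only [hσ, mul_assoc, mul_cancel_inv h.a2, inv_mul_cancel, mul_one]
  have k : ∀ i : ℕ, z ^ i * a = σ ^ i * a * z ^ i := fun i => by
    induction i with
    | zero => simp
    | succ i ih =>
      rw [pow_succ' z, mul_assoc, ih, ← mul_assoc, ← mul_assoc, h.odd_comm S ho (pow_mem hS i),
        mul_assoc _ z, e, pow_succ]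
      simp only [mul_assoc]
  have h1 := k (orderOf z)
  rw [pow_orderOf_eq_one, one_mul, mul_one, right_eq_mul] at h1
  rw [notMem_two (hr.two S) (ho.of_dvd_nat (orderOf_dvd_of_pow_eq_one h1)) hS, one_mul] at e
  refine hr z ho (h.zp_normal hz ?_)
  rw [← e, mul_assoc, h.a2, mul_one]
  exact mem_zpowers z

theorem WM.kill' [Finite G] (h : WM a b c) (hr : Red G) {z : G} (hz : z ∈ zpowers (b * c))
    (ho : Odd (orderOf z)) (hS : z * a = a * z) : z = 1 :=
  h.kill hr ⊥ hz ho (by rw [hS, mul_inv_cancel_right, h.a2]; exact one_mem _)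

theorem ord_odd_part [Finite G] {y : G} {β o : ℕ} (h : orderOf y = 2 ^ β * o) :
    orderOf (y ^ 2 ^ β) = o := by
  rw [orderOf_pow, h, Nat.gcd_eq_right (Dvd.intro _ rfl), Nat.mul_div_cancel_left _ (by positivity)]

theorem x_sq (a b : G) : a * (b * a * b) = (a * b) ^ 2 := by simp only [sq, mul_assoc]

theorem nf (a2 : a * a = 1) (b2 : b * b = 1) (c2 : c * c = 1) (ac : a * c = c * a) :
    (∀ g, a * (a * g) = g) ∧ (∀ g, b * (b * g) = g) ∧ (∀ g, c * (c * g) = g) ∧ a * a = 1 ∧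
      b * b = 1 ∧ c * c = 1 ∧ (∀ g, c * (a * g) = a * (c * g)) ∧ c * a = a * c ∧ a⁻¹ = a ∧
      b⁻¹ = b ∧ c⁻¹ = c ∧ (∀ g : G, 1 * g = g) ∧ (∀ g : G, g * 1 = g) ∧
      (∀ u v w : G, u * v * w = u * (v * w)) ∧ ∀ u v : G, (u * v)⁻¹ = v⁻¹ * u⁻¹ :=
  ⟨mul_cancel_inv a2, mul_cancel_inv b2, mul_cancel_inv c2, a2, b2, c2,
    fun g => by rw [← mul_assoc, ← ac, mul_assoc], ac.symm, inv_eq_self a2, inv_eq_self b2,
    inv_eq_self c2, one_mul, mul_one, mul_assoc, mul_inv_rev⟩

theorem conj_eq_one {g s : G} (h : g * s * g = 1) (hg : g * g = 1) : s = 1 := by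
  have := congrArg (fun w => g * w * g) h
  simpa only [mul_assoc, mul_cancel_inv hg, hg, mul_one] using this

theorem NM.card_D [Finite G] (h : NM a b c) {α : ℕ} (hm : orderOf (a * b) = 2 ^ (α + 2)) :
    orderOf (a * (b * a * b)) = 2 ^ (α + 1) ∧
      Nat.card (closure {a, b * a * b} : Subgroup G) = 2 ^ (α + 2) := by
  have h1 : orderOf (a * (b * a * b)) = 2 ^ (α + 1) := by
    rw [x_sq, orderOf_pow, hm, pow_succ, Nat.gcd_eq_right (Dvd.intro_left _ rfl),
      Nat.mul_div_cancel _ (by norm_num)]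
  refine ⟨h1, ?_⟩
  rw [card_dih h.a2 (conj_sq h.b2 h.a2) (r_notMem h.a2 (conj_sq h.b2 h.a2) h.a1
    fun e => h.a1 (conj_eq_one e h.b2)), h1, pow_succ' 2 (α + 1)]

theorem pre2 [Finite G] (h : NM a b c) (hr : Red G) (h4 : Nat.card G = 4 * LL a b c)
    (hP : IsPGroup 2 (normalClosure {a})) : ∃ α β o, orderOf (a * b) = 2 ^ (α + 2) ∧
      orderOf (b * c) = 2 ^ β * o ∧ Odd o ∧ o ≠ 1 ∧ β < α + 2 ∧
      Nat.card G = 4 * (2 ^ (α + 2) * o) ∧
      ((Nat.card (normalClosure {a}) = 2 ^ (α + 2) ∧ β ≠ 0) ∨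
        (Nat.card (normalClosure {a}) = 2 ^ (α + 2) * 2 ∧ (b * c) ^ o ∈ normalClosure {a})) := by
  obtain ⟨α, hm⟩ := h.x_two hP
  obtain ⟨β, o, ho, hn⟩ := Nat.exists_eq_two_pow_mul_odd (orderOf_pos (b * c)).ne'
  have eo := ord_odd_part hn
  have mz : (b * c) ^ 2 ^ β ∈ zpowers (b * c) := pow_mem (mem_zpowers _) _
  set z := (b * c) ^ 2 ^ β with hz
  have o1 : o ≠ 1 := by
    rintro rfl
    rw [LL, hm, hn, mul_one] at h4
    rcases le_total α β with l | l
    · rw [Nat.lcm_eq_right (pow_dvd_pow 2 l)] at h4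
      exact h.not_two (k := β + 2) (by rw [LL, hm, hn, mul_one, Nat.lcm_eq_right (pow_dvd_pow 2 l), h4])
        (by rw [h4]; ring)
    · rw [Nat.lcm_eq_left (pow_dvd_pow 2 l)] at h4
      exact h.not_two (k := α + 2) (by rw [LL, hm, hn, mul_one, Nat.lcm_eq_left (pow_dvd_pow 2 l), h4])
        (by rw [h4]; ring)
  have z1 : z ≠ 1 := fun e => o1 (by rw [← eo, e, orderOf_one])
  have zz : z * z ≠ 1 := fun e => z1 (eq_one_of_odd (eo ▸ ho) e)
  obtain ⟨α, rfl⟩ : ∃ α', α = α' + 2 := by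
    refine ⟨α - 2, (Nat.sub_add_cancel (not_lt.1 fun l => z1 ?_)).symm⟩
    have h1 := comm_of_order_two h.a2 h.b2 (hm ▸ pow_dvd_pow 2 (show α ≤ 1 by omega))
    exact h.kill' hr mz (eo ▸ ho) (Commute.pow_left (Commute.mul_left h1 h.ac.symm) _)
  have lt : β < α + 2 := by
    by_contra l
    rw [LL, Nat.lcm_eq_right (hm ▸ hn ▸ (pow_dvd_pow 2 (not_lt.1 l)).mul_right o)] at h4
    have h1 := index_mul_card (closure ({b, c} : Set G))
    rw [h.card_DY, h4, show 4 * orderOf (b * c) = 2 * (2 * orderOf (b * c)) by ring] at h1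
    have := normal_of_index_eq_two (Nat.eq_of_mul_eq_mul_right (by have := orderOf_pos (b * c); omega) h1)
    refine z1 (hr z (eo ▸ ho) (h.zp_normal mz (cyc_mem_zp mz (mem_zp_of_order h.b2 h.c2
      (conj_mem' h.a2 (zp_le_dih mz)) fun e => zz ?_) ?_)))
    · have := congrArg (fun g => a * g * a) e
      simpa only [mul_assoc, mul_cancel_inv h.a2, h.a2, mul_one] using this
    · have := orderOf_conj a z
      rw [inv_eq_self h.a2] at this
      exact this.dvd
  have hc : Nat.card G = 4 * (2 ^ (α + 2) * o) := by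
    rw [h4, LL, hm, hn]
    congr 1
    refine Nat.dvd_antisymm (Nat.lcm_dvd (Dvd.intro _ rfl)
      (Nat.mul_dvd_mul_right (pow_dvd_pow 2 lt.le) o)) ?_
    exact (Nat.Coprime.pow_left _ (Nat.coprime_two_left.2 ho)).mul_dvd_of_dvd_of_dvd
      (Nat.dvd_lcm_left _ _) ((Dvd.intro_left _ rfl).trans (Nat.dvd_lcm_right _ _))
  refine ⟨α, β, o, hm, hn, ho, o1, lt, hc, ?_⟩
  set P := normalClosure ({a} : Set G) with hP'
  have le : closure {b, c} ⊓ P ≤ zpowers (b * c) := fun r hr' => by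
    refine ((dih_mem h.b2 h.c2).1 hr'.1).resolve_right fun h1 => z1 ?_
    have h3 : r ∈ P := hr'.2
    have h2 := mul_mem h3 ((inferInstance : P.Normal).conj_mem _ (inv_mem h3) z)
    rw [← mul_assoc, ← mul_assoc, refl_inv h.b2 h.c2 h1 mz, ← mul_inv_rev, inv_mem_iff] at h2
    exact notMem_two hP (eo ▸ ho) (mem_of_sq_mem h2 (eo ▸ ho))
  have h1 := card_sup_normal (closure {b, c}) P
  rw [h.eq_top (H := closure {b, c} ⊔ P) (mem_sup_right (mem_ncl a)) (mem_sup_left l_mem_dih)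
    (mem_sup_left r_mem_dih), card_top, hc, h.card_DY, hn] at h1
  obtain ⟨i, hi⟩ := (hP.to_le (inf_le_right : closure {b, c} ⊓ P ≤ P)).exists_card_eq
  obtain ⟨d, hd⟩ : Nat.card (closure {b, c} ⊓ P : Subgroup G) ∣ 2 ^ β := by
    have := card_dvd_of_le le
    rw [Nat.card_zpowers, hn, hi] at this
    exact hi ▸ (Nat.Coprime.pow_left _ (Nat.coprime_two_left.2 ho)).dvd_of_dvd_mul_right this
  obtain ⟨f, hf⟩ : 2 ^ (α + 2) ∣ Nat.card P := (h.card_D hm).2 ▸ card_dvd_of_le
    (dih_le (mem_ncl a) (conj_mem' h.b2 (mem_ncl a)))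
  have h2 : d * f = 2 := by
    rw [hf, hd] at h1
    refine Nat.eq_of_mul_eq_mul_left (show 0 < 2 * 2 ^ (α + 2) * o *
      Nat.card (closure {b, c} ⊓ P : Subgroup G) by have := ho.pos; rw [hi]; positivity) ?_
    linarith
  rcases (Nat.dvd_prime Nat.prime_two).1 (Dvd.intro_left d h2) with rfl | rfl
  · refine Or.inl ⟨by rw [hf, mul_one], ?_⟩
    rintro rfl
    rw [show d = 2 by omega] at hd
    omega
  · refine Or.inr ⟨hf, (cyc_mem le (pow_mem (mem_zpowers _) o) ?_).2⟩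
    rw [show d = 1 by omega, mul_one] at hd
    rw [← hd, ← pow_mul, mul_comm o, ← hn, pow_orderOf_eq_one]

theorem caseI [Finite G] (h : NM a b c) (hr : Red G) {α β o : ℕ}
    (hm : orderOf (a * b) = 2 ^ (α + 2)) (hn : orderOf (b * c) = 2 ^ β * o) (ho : Odd o)
    (o1 : o ≠ 1) (lt : β < α + 2) (b0 : β ≠ 0) (hc : Nat.card (normalClosure {a}) = 2 ^ (α + 2)) :
    orderOf (a * b) = 4 ∧ orderOf (b * c) = 6 ∧ R1 a b c := by
  obtain ⟨ox, cD⟩ := h.card_D hm
  have eo := ord_odd_part hn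
  have mz : (b * c) ^ 2 ^ β ∈ zpowers (b * c) := pow_mem (mem_zpowers _) _
  have z1 : (b * c) ^ 2 ^ β ≠ 1 := fun e => o1 (by rw [← eo, e, orderOf_one])
  have s1 := conj_sq h.b2 h.a2
  have eD : closure {a, b * a * b} = normalClosure {a} := eq_of_le_of_card_ge
    (dih_le (mem_ncl a) (conj_mem' h.b2 (mem_ncl a))) (by rw [hc, cD])
  have nD : (closure ({a, b * a * b} : Set G)).Normal := eD ▸ inferInstance
  obtain rfl : α = 0 := by
    by_contra a0
    have nR : (zpowers (a * (b * a * b))).Normal := ⟨fun w hw g => zp_conj (mem_zp_of_order h.a2 s1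
      (nD.conj_mem _ (zp_le_dih (mem_zpowers _)) g) fun e => by
        have h1 := orderOf_dvd_of_pow_eq_one ((sq _).trans e)
        rw [orderOf_conj, ox] at h1
        have := (Nat.pow_dvd_pow_iff_le_right (x := 2) (l := 1) (by norm_num)).1 h1
        omega) hw⟩
    refine z1 (h.kill hr (zpowers (a * (b * a * b))) mz (eo ▸ ho) ?_)
    rcases (dih_mem h.a2 s1).1 (nD.conj_mem a l_mem_dih ((b * c) ^ 2 ^ β)) with h1 | h1
    · exfalso
      have h2 := nR.conj_mem _ h1 ((b * c) ^ 2 ^ β)⁻¹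
      simp only [mul_assoc, inv_inv, inv_mul_cancel_left, inv_mul_cancel, mul_one] at h2
      refine h.a_notMem_X (zpowers_le_of_mem ?_ h2)
      simpa only [mul_assoc, sq] using pow_mem (mem_zpowers (a * b)) 2
    · have h2 := mul_mem h1 (inv_mem (mem_zpowers _))
      rwa [inv_mul_inv h.a2 s1, mul_assoc _ (b * a * b), mul_cancel_inv s1] at h2
  obtain rfl : β = 1 := by omega
  have x4 : a * (b * a * b) * (a * (b * a * b)) = 1 := by
    rw [← sq, ← pow_orderOf_eq_one (a * (b * a * b)), ox]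
    rfl
  have N := nf h.a2 h.b2 h.c2 h.ac
  have rel : c * (b * a * b) * c = a * (b * a * b) := by
    rcases dih_four h.a2 s1 x4 (conj_mem' h.c2 r_mem_dih) with e | e | e | e
    · exact absurd (conj_eq_one (conj_eq_one e h.c2) h.b2) h.a1
    · exact e
    · refine absurd (h.kill' hr mz (eo ▸ ho) ?_) z1
      rw [pow_one]
      calc _ = b * (c * (b * a * b) * c) * (c * b * c) := by
            simp only [pow_succ, pow_zero, N]
        _ = _ := by rw [e]; simp only [pow_succ, pow_zero, N]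
    · exfalso
      have h1 : a * (b * a * b) = 1 := conj_eq_one (g := c) (by
        rw [← h.a2]
        nth_rw 4 [← e]
        simp only [N]) h.c2
      rw [h1, orderOf_one] at ox
      omega
  have y3 : (b * c) ^ 3 * a = a * (b * c) ^ 3 := by
    calc _ = b * (c * (b * (c * (b * a * b) * c) * b) * c) * b * (b * c) ^ 3 := by
          simp only [pow_succ, pow_zero, N]
      _ = b * (c * (b * a * b) * c * a) * b * (b * c) ^ 3 := by
          nth_rw 1 [rel]
          simp only [N]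
      _ = b * (a * (b * a * b) * (a * (b * a * b))) * (b * a) * (b * c) ^ 3 := by
          rw [rel]
          simp only [N]
      _ = _ := by rw [x4]; simp only [N]
  have y6 : (b * c) ^ 6 = 1 := h.kill' hr (pow_mem (mem_zpowers _) _)
    (ho.of_dvd_nat (orderOf_dvd_of_pow_eq_one (by
      rw [← pow_mul, show 6 * o = 2 ^ 1 * o * 3 by ring, pow_mul, ← hn, pow_orderOf_eq_one, one_pow])))
    (by rw [show 6 = 3 * 2 by rfl, pow_mul]; exact Commute.pow_left y3 2)
  have d := orderOf_dvd_of_pow_eq_one y6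
  rw [hn] at d ⊢
  obtain rfl := ((Nat.dvd_prime Nat.prime_three).1
    (Nat.dvd_of_mul_dvd_mul_left (k := 2) (by norm_num) d)).resolve_left o1
  exact ⟨hm, rfl, h.a2, h.b2, h.c2, h.ac, by rw [← pow_orderOf_eq_one (a * b), hm]; rfl, y6, rel⟩

theorem rho_sq {a0 a1 a2 ρ τ σ : G} {S : Subgroup G} (cm : ∀ u ∈ S, ∀ w ∈ S, u * w = w * u)
    (s0 : a0 * a0 = 1) (s1 : a1 * a1 = 1) (s2 : a2 * a2 = 1) (i0 : ∀ w ∈ S, a0 * w * a0 = w⁻¹)
    (i1 : ∀ w ∈ S, a1 * w * a1 = w⁻¹) (i2 : ∀ w ∈ S, a2 * w * a2 = w⁻¹) (hρ : ρ ∈ S) (hτ : τ ∈ S)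
    (hσ : σ ∈ S) (e1 : a0 * a1 * (a0 * a1) = ρ) (e2 : a0 * a2 * (a0 * a2) = τ)
    (e3 : a1 * a2 * (a1 * a2) = ρ⁻¹) (e4 : a2 * σ * a0 * (a2 * σ * a0) = ρ⁻¹) :
    τ * τ = 1 ∧ ρ = τ * (σ * σ) := by
  have m : ∀ {s : G}, s * s = 1 → (∀ w ∈ S, s * w * s = w⁻¹) →
      ∀ w ∈ S, ∀ g, s * (w * g) = w⁻¹ * (s * g) := fun hs hi w hw g => by
    rw [← hi w hw]
    simp only [mul_assoc, mul_cancel_inv hs]
  constructor
  · have f1 : a0 * a1 * a0 = ρ * a1 := by rw [← e1]; simp only [mul_assoc, s1, mul_one]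
    have f2 : a0 * a2 * a0 = τ * a2 := by rw [← e2]; simp only [mul_assoc, s2, mul_one]
    have f3 : ρ = ρ * τ⁻¹ * (ρ * τ⁻¹ * ρ⁻¹) := by
      calc ρ = a0 * (a1 * a2 * (a1 * a2)) * a0 := by rw [e3, i0 _ (inv_mem hρ), inv_inv]
        _ = a0 * a1 * a0 * (a0 * a2 * a0) * (a0 * a1 * a0 * (a0 * a2 * a0)) := by
          simp only [mul_assoc, mul_cancel_inv s0]
        _ = ρ * τ⁻¹ * (ρ * τ⁻¹ * (a1 * a2 * (a1 * a2))) := by
          rw [f1, f2]
          simp only [mul_assoc, m s1 i1 τ hτ, m s1 i1 _ (inv_mem hρ),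
            m s2 i2 ρ hρ, m s2 i2 _ (inv_mem hτ), inv_inv]
        _ = _ := by rw [e3]
    rw [cm ρ hρ _ (inv_mem hτ), mul_inv_cancel_right, ← cm ρ hρ _ (inv_mem hτ), mul_assoc,
      left_eq_mul, ← mul_inv_rev, inv_eq_one] at f3
    exact f3
  · rw [← inv_inj, ← e4, mul_inv_rev τ, mul_inv_rev σ, ← e2]
    simp only [mul_assoc, mul_inv_rev, inv_eq_self s0, inv_eq_self s2, m s2 i2 σ hσ,
      m s0 i0 _ (inv_mem hσ), inv_inv]

theorem w3_facts {a0 a1 a2 ρ : G} (s0 : a0 * a0 = 1) (s1 : a1 * a1 = 1) (s2 : a2 * a2 = 1)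
    (r2 : ρ * ρ = 1) (c0 : a0 * ρ = ρ * a0) (c1 : a1 * ρ = ρ * a1) (c2 : a2 * ρ = ρ * a2)
    (e1 : a0 * a1 * (a0 * a1) = ρ) (e2 : a0 * a2 * (a0 * a2) = ρ) (e3 : a1 * a2 * (a1 * a2) = ρ) :
    a2 * a1 * a0 = a0 * a1 * a2 * ρ ∧ a0 * (a0 * a1 * a2) = a0 * a1 * a2 * a0 ∧
      a0 * a1 * a2 * (a0 * a1 * a2) = ρ := by
  have f : ∀ {s t : G}, s * s = 1 → t * t = 1 → s * t * (s * t) = ρ →
      ∀ g, t * (s * g) = ρ * (s * (t * g)) := fun hs ht e g => by
    rw [← inv_eq_self r2, ← e]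
    simp only [mul_assoc, mul_inv_rev, inv_eq_self hs, inv_eq_self ht, mul_cancel_inv hs,
      mul_cancel_inv ht]
  have k : ∀ {s : G}, s * ρ = ρ * s → ∀ g, s * (ρ * g) = ρ * (s * g) := fun e g => by
    rw [← mul_assoc, e, mul_assoc]
  refine ⟨(mul_left_inj 1).1 ?_, (mul_left_inj 1).1 ?_, (mul_left_inj 1).1 ?_⟩ <;>
  simp only [mul_assoc, f s0 s1 e1, f s0 s2 e2, f s1 s2 e3, k c0, k c1, k c2, mul_cancel_inv r2,
    mul_cancel_inv s0, mul_cancel_inv s1, mul_cancel_inv s2]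

theorem WM.card_of_two (h : WM a b c) (hx : a * b * (a * b) = 1) :
    Nat.card G ∣ 2 * orderOf (b * c) := by
  have N := nf h.a2 h.b2 h.c2 h.ac
  have e : a * b * (a * c) = b * c := by
    rw [← one_mul (b * c), ← hx]
    simp only [N]
  have h1 := card_dih_dvd hx (t := a * c) (by simp only [N])
  rwa [h.eq_top' l_mem_dih (e ▸ mul_mem l_mem_dih r_mem_dih), card_top, e] at h1

theorem orient [Finite G] (h : WM a b c) (y3 : (b * c) ^ 3 = 1)
    (cm : ∀ u ∈ normalClosure {a}, ∀ w ∈ normalClosure {a}, u * w = w * u)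
    (e : c * (b * a * b) * c = b * (c * (b * a * b) * c) * b) : Nat.card G ≤ 24 := by
  have N := nf h.a2 h.b2 h.c2 h.ac
  have m1 := conj_mem' h.b2 (mem_ncl a)
  have m2 := conj_mem' h.c2 m1
  have s1 := conj_sq h.b2 h.a2
  have s2 := conj_sq h.c2 s1
  have c1 := cm _ (mem_ncl a) _ m1
  have c2 := cm _ (mem_ncl a) _ m2
  have c3 := cm _ m1 _ m2
  have b1 : ∀ g, b * (a * g) = b * a * b * (b * g) := fun g => by simp only [N]
  have b2 : ∀ g, b * (b * a * b * g) = a * (b * g) := fun g => by simp only [N]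
  have b3 : ∀ g, b * (c * (b * a * b) * c * g) = c * (b * a * b) * c * (b * g) := fun g => by
    nth_rw 2 [e]
    simp only [N]
  have b4 : ∀ g, c * (b * a * b * g) = c * (b * a * b) * c * (c * g) := fun g => by simp only [N]
  have b5 : ∀ g, c * (c * (b * a * b) * c * g) = b * a * b * (c * g) := fun g => by simp only [N]
  generalize c * (b * a * b) * c = a2 at *
  generalize b * a * b = a1 at *
  have k1 : ∀ g, a1 * (a * g) = a * (a1 * g) := fun g => by rw [← mul_assoc, ← c1, mul_assoc]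
  have k2 : ∀ g, a2 * (a * g) = a * (a2 * g) := fun g => by rw [← mul_assoc, ← c2, mul_assoc]
  have k3 : ∀ g, a2 * (a1 * g) = a1 * (a2 * g) := fun g => by rw [← mul_assoc, ← c3, mul_assoc]
  have M := And.intro (And.intro k1 (And.intro k2 k3)) (And.intro (mul_cancel_inv s1)
    (And.intro (mul_cancel_inv s2) (And.intro (And.intro s1 s2) (And.intro c1.symm
    (And.intro c2.symm c3.symm)))))
  set E := closure {a * a1, a * a2} with hE
  have l : a * a1 ∈ E := l_mem_dih
  have r : a * a2 ∈ E := r_mem_dih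
  have nE : E.Normal := h.normal (fun w => conj_dih h.a2 (by simpa only [N, M] using l)
      (by simpa only [N, M] using r))
    (fun w => conj_dih h.b2 (by simpa only [N, M, b1, b2] using l)
      (by simpa only [N, M, b1, b3] using mul_mem l r))
    fun w => conj_dih h.c2 (by simpa only [N, M, b4] using r) (by simpa only [N, M, b5] using l)
  have cE := card_dih_dvd (s := a * a1) (t := a * a2) (by simp only [N, M]) (by simp only [N, M])
  have o1 : orderOf (a * a1 * (a * a2)) ∣ 2 := orderOf_dvd_of_pow_eq_one (by simp only [sq, N, M])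
  have cQ := (h.quot E).card_of_two (by
    rw [← map_mul, ← map_mul, QuotientGroup.mk'_apply, QuotientGroup.eq_one_iff]
    simpa only [N, M, b1] using l)
  have o2 : orderOf (QuotientGroup.mk' E b * QuotientGroup.mk' E c) ∣ 3 :=
    orderOf_dvd_of_pow_eq_one (by rw [← map_mul, ← map_pow, y3, map_one])
  rw [← card_quot E]
  exact Nat.le_of_dvd (by norm_num) (Nat.mul_dvd_mul (cQ.trans (Nat.mul_dvd_mul_left 2 o2))
    (cE.trans (Nat.mul_dvd_mul_left 2 o1)))

theorem caseII [Finite G] (h : NM a b c) (hr : Red G) (hP : IsPGroup 2 (normalClosure {a}))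
    {α β o : ℕ} (hm : orderOf (a * b) = 2 ^ (α + 2)) (hn : orderOf (b * c) = 2 ^ β * o)
    (ho : Odd o) (o1 : o ≠ 1) (lt : β < α + 2) (hG : Nat.card G = 4 * (2 ^ (α + 2) * o))
    (hc : Nat.card (normalClosure {a}) = 2 ^ (α + 2) * 2) (hy : (b * c) ^ o ∈ normalClosure {a}) :
    (orderOf (a * b) = 4 ∧ orderOf (b * c) = 6 ∧ R2 2 true a b c) ∨
      (orderOf (a * b) = 8 ∧ orderOf (b * c) = 12 ∧ ∃ s, R2 4 s a b c) := by
  obtain ⟨ox, cD⟩ := h.card_D hm
  have N := nf h.a2 h.b2 h.c2 h.ac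
  have m0 := mem_ncl a
  have m1 := conj_mem' h.b2 m0
  have me := conj_mem' h.c2 m1
  have m2 := conj_mem' h.b2 me
  have s1 := conj_sq h.b2 h.a2
  have se := conj_sq h.c2 s1
  have s2 := conj_sq h.b2 se
  set P := normalClosure ({a} : Set G) with hP'
  set D := closure ({a, b * a * b} : Set G) with hD
  have DP : D ≤ P := dih_le m0 m1
  have idx : D.relIndex P = 2 := by
    have := card_inf_mul D P
    rw [inf_eq_right.2 DP, cD, hc] at this
    exact Nat.eq_of_mul_eq_mul_left (by positivity) this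
  have two : ∀ u ∈ P, ∀ w ∈ P, (u * w ∈ D ↔ (u ∈ D ↔ w ∈ D)) := fun u hu w hw =>
    mul_mem_iff_of_index_two (H := D.subgroupOf P) idx (a := ⟨u, hu⟩) (b := ⟨w, hw⟩)
  set S := D.normalCore with hS
  have SD : S ≤ D := normalCore_le D
  have sqS : ∀ w ∈ P, w * w ∈ S := fun w hw g => by
    have h1 := (inferInstance : P.Normal).conj_mem w hw g
    simpa [mul_assoc] using (two _ h1 _ h1).2 Iff.rfl
  have l : a ∈ D := l_mem_dih
  have r : b * a * b ∈ D := r_mem_dih
  have bD : ∀ w ∈ D, b * w * b ∈ D := fun w => conj_dih h.b2 r (by simpa only [N] using l)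
  have eD : c * (b * a * b) * c ∉ D := fun e => by
    have : D.Normal := h.normal (fun w hw => mul_mem (mul_mem l hw) l) bD
      fun w => conj_dih h.c2 (by simpa only [N] using l) e
    rw [relIndex_eq_one.2 (normalClosure_le_normal (Set.singleton_subset_iff.2 l))] at idx
    omega
  have D2 : b * (c * (b * a * b) * c) * b ∉ D := fun e => eD (by simpa only [N] using bD _ e)
  have x2 : a * (b * a * b) ∉ S := fun e =>
    eD (by simpa only [N] using mul_mem l (SD (conj_mem' h.c2 e)))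
  have aS : a ∉ S := fun e => x2 (mul_mem e (conj_mem' h.b2 e))
  have hρ := sqS _ (mul_mem m0 m1)
  set ρ := a * (b * a * b) * (a * (b * a * b)) with eρ
  have eS : S = zpowers ρ := le_antisymm (fun w hw => by
    rcases (dih_mem h.a2 s1).1 (SD hw) with h1 | h1
    · exact (zp_par h1).resolve_right fun h2 =>
        x2 ((mul_mem_cancel_left hw).1 (zpowers_le_of_mem hρ h2))
    · obtain ⟨v, -, e | e⟩ := refl_conj h.a2 s1 h1 <;>
        have h2 := (inferInstance : S.Normal).conj_mem _ hw v⁻¹ <;>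
        simp only [e, mul_assoc, inv_inv, inv_mul_cancel, mul_one, inv_mul_cancel_left] at h2
      · exact absurd (by simpa only [N] using conj_mem' h.b2 h2) aS
      · exact absurd h2 aS) (zpowers_le_of_mem hρ)
  have cyc : IsCyclic S := eS ▸ inferInstance
  have oρ : orderOf ρ = 2 ^ α := by
    rw [eρ, ← sq, orderOf_pow, ox, pow_succ, Nat.gcd_eq_right (Dvd.intro_left _ rfl),
      Nat.mul_div_cancel _ (by norm_num)]
  set π := QuotientGroup.mk' S with hπ
  have one : ∀ w, π w = 1 ↔ w ∈ S := fun w => QuotientGroup.eq_one_iff w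
  have hq : WM (π a) (π b) (π c) := h.quot S
  have M := nf hq.a2 hq.b2 hq.c2 hq.ac
  have sqQ : ∀ w ∈ P, π w * π w = 1 := fun w hw => by rw [← map_mul, one]; exact sqS w hw
  have cmQ : ∀ u ∈ P, ∀ w ∈ P, π u * π w = π w * π u := fun u hu w hw => by
    rw [← inv_mul_inv (sqQ u hu) (sqQ w hw), ← map_mul, inv_eq_self (sqQ _ (mul_mem hu hw))]
  have ne1 : π a ≠ π (b * a * b) := fun e => x2 ((one _).1 (by rw [map_mul, ← e, hq.a2]))
  have sym : ∀ w ∈ D, π (b * w * b) = π w → π w = 1 ∨ π w = π a * π (b * a * b) := by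
    intro w hw e
    rcases dih_four hq.a2 (sqQ _ m1) (by rw [← map_mul]; exact sqQ _ (mul_mem m0 m1))
      (dih_le (H := (closure {π a, π (b * a * b)}).comap π) l_mem_dih r_mem_dih hw) with
      e1 | e1 | e1 | e1
    · exact Or.inl e1
    · exact Or.inr e1
    · exact absurd (by rw [← e1, ← e]; simp only [map_mul, e1, M]) ne1
    · exact absurd (by rw [← e1, ← e]; simp only [map_mul, e1, M]) ne1
  have H0 : π (b * (c * (b * a * b) * c) * b) * π (c * (b * a * b) * c) = 1 := by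
    rw [← cmQ _ me _ m2, ← map_mul]
    refine (sym _ ((two _ me _ m2).2 (iff_of_false eD D2)) ?_).resolve_right fun H => ne1 ?_
    · rw [map_mul π (c * (b * a * b) * c), cmQ _ me _ m2]
      simp only [map_mul, M]
    · have h4 : π (b * c) ^ 4 ∈ centralizer {π a} := mem_centralizer_singleton_iff.2 (by
        calc _ = π (b * c) * (π a * (π (b * c) * π (c * (b * a * b) * c * (b * (c * (b * a * b) * c) *
              b)) * π (c * b))) * π (b * c) ^ 3 := by simp only [map_mul, pow_succ, pow_zero, M]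
          _ = π (b * c) * (π a * π (b * a * b) * π (b * (c * (b * a * b) * c) * b)) *
              π (b * c) ^ 3 := by rw [H]; simp only [map_mul, M]
          _ = _ := by rw [← H]; simp only [map_mul, pow_succ, pow_zero, M])
      have h5 : π (b * c) ^ o ∈ centralizer {π a} := mem_centralizer_singleton_iff.2 (by
        rw [← map_pow]
        exact cmQ _ hy _ m0)
      obtain ⟨i, rfl⟩ := ho
      have h6 := pow_mem h5 (2 * i + 1)
      rw [← pow_mul, show (2 * i + 1) * (2 * i + 1) = 4 * (i * i + i) + 1 by ring, pow_succ,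
        pow_mul] at h6
      have h7 := mem_centralizer_singleton_iff.1 ((mul_mem_cancel_left (pow_mem h4 _)).1 h6)
      calc π a = π a * π (b * c) * π (c * b) := by simp only [map_mul, M]
        _ = _ := by rw [← h7]; simp only [map_mul, M]
  have H1 : π (c * (b * a * b) * c) = π (b * (c * (b * a * b) * c) * b) := by
    rw [← inv_eq_self (sqQ _ m2)]
    exact eq_inv_of_mul_eq_one_right H0
  have Y3 : π (b * c) ^ 3 * π a = π a * π (b * c) ^ 3 := by
    calc _ = π (b * c) * π (b * (c * (b * a * b) * c) * b) * π (b * c) ^ 2 := by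
          simp only [map_mul, pow_succ, pow_zero, M]
      _ = _ := by rw [← H1]; simp only [map_mul, pow_succ, pow_zero, M]
  obtain rfl : o = 3 := by
    have h1 : ((b * c) ^ 3) ^ 2 ^ β = 1 := by
      refine h.kill hr S (pow_mem (pow_mem (mem_zpowers _) _) _) (ho.of_dvd_nat
        (orderOf_dvd_of_pow_eq_one ?_)) ((one _).1 ?_)
      · rw [← pow_mul, ← pow_mul, ← hn, mul_comm, pow_mul, pow_orderOf_eq_one, one_pow]
      · rw [map_mul, map_mul, map_mul, map_inv, map_pow, map_pow, (Commute.pow_left Y3 _).eq,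
          mul_inv_cancel_right, hq.a2]
    have d := orderOf_dvd_of_pow_eq_one ((pow_mul _ _ _).trans h1)
    rw [hn, mul_comm 3] at d
    exact ((Nat.dvd_prime Nat.prime_three).1
      (Nat.dvd_of_mul_dvd_mul_left (by positivity) d)).resolve_left o1
  have ne2 : π a ≠ π (b * (c * (b * a * b) * c) * b) := fun e => ne1 (by
    calc π a = π b * π (b * (c * (b * a * b) * c) * b) * π b := by
          rw [e, ← H1]; nth_rw 1 [H1]; simp only [map_mul, M]
      _ = _ := by rw [← e]; simp only [map_mul])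
  have yb : π b * π ((b * c) ^ 3) * π b = π ((b * c) ^ 3) := by
    rw [← map_mul, ← map_mul, dih_inv_l h.b2 h.c2 (pow_mem (mem_zpowers _) 3), map_inv,
      inv_eq_self (sqQ _ hy)]
  have Y1 : π ((b * c) ^ 3) ≠ 1 := fun e => by
    have h1 := orient hq (by rw [← map_mul, ← map_pow, e]) (by
      rw [← Set.image_singleton, ← map_normalClosure _ _ (QuotientGroup.mk'_surjective S)]
      rintro _ ⟨u, hu, rfl⟩ _ ⟨w, hw, rfl⟩
      exact cmQ u hu w hw) (by simpa only [map_mul] using H1)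
    have h2 := card_quot S
    rw [hG, eS, Nat.card_zpowers, oρ, ← eS] at h2
    have h3 := Nat.mul_le_mul_right (2 ^ α) h1
    have h4 : 0 < 2 ^ α := by positivity
    rw [h2, pow_add] at h3
    omega
  have hs : (a * (b * a * b) * (b * (c * (b * a * b) * c) * b))⁻¹ * (b * c) ^ 3 ∈ S := by
    by_cases hD3 : (b * c) ^ 3 ∈ D
    · refine absurd ?_ ne2
      have e := (sym _ hD3 (by rw [map_mul, map_mul, yb])).resolve_left Y1
      refine mul_left_cancel (a := π (b * a * b)) ?_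
      rw [← cmQ _ m0 _ m1, ← e]
      calc _ = π (b * c) * π ((b * c) ^ 3) * π (c * b) := by
            simp only [map_mul, map_one, pow_succ, pow_zero, M]
        _ = _ := by rw [e]; simp only [map_mul, M]
    · rcases sym _ ((two _ hy _ m2).2 (iff_of_false hD3 D2)) (by
        rw [map_mul π ((b * c) ^ 3), ← yb, ← H1]
        simp only [map_mul, M]) with e | e
      · refine absurd ?_ ne2
        rw [map_mul, mul_eq_one_iff_eq_inv, inv_eq_self (sqQ _ m2)] at e
        calc π a = π (b * c) * π (c * (b * a * b) * c) * π (c * b) := by simp only [map_mul, M]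
          _ = _ := by rw [H1, ← e]; simp only [map_mul, map_one, pow_succ, pow_zero, M]
      · rw [← one, map_mul, map_inv, map_mul, map_mul π a, ← e]
        simp only [map_mul, map_one, pow_succ, pow_zero, M]
  have SX : S ≤ zpowers (a * b) := eS ▸ zpowers_le_of_mem (by
    simpa only [eρ, pow_succ, pow_zero, N] using pow_mem (mem_zpowers (a * b)) 4)
  have i0 : ∀ w ∈ S, a * w * a = w⁻¹ := fun w hw => dih_inv_l h.a2 h.b2 (SX hw)
  have ib : ∀ w ∈ S, b * w * b = w⁻¹ := fun w hw => dih_inv_r h.a2 h.b2 (SX hw)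
  have ic : ∀ {g s : G}, g * g = 1 → (∀ w ∈ S, s * w * s = w⁻¹) →
      ∀ w ∈ S, g * s * g * w * (g * s * g) = w⁻¹ := fun {g s} hg hi w hw => by
    calc _ = g * (s * (g * w * g) * s) * g := by simp only [mul_assoc]
      _ = _ := by
        rw [hi _ (conj_mem' hg hw)]
        simp only [mul_inv_rev, inv_eq_self hg, mul_assoc, mul_cancel_inv hg, hg, mul_one]
  have i1 := ic h.b2 i0
  have i2 := ic h.b2 (ic h.c2 i1)
  set s := (a * (b * a * b) * (b * (c * (b * a * b) * c) * b))⁻¹ * (b * c) ^ 3 with es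
  have y3 : (b * c) ^ 3 = a * (b * a * b) * (b * (c * (b * a * b) * c) * b) * s := by
    rw [es, mul_inv_cancel_left]
  have cS : ∀ w ∈ S, c * w * c = w := fun w hw => by
    have h1 : (b * c) ^ 3 * w = w⁻¹ * (b * c) ^ 3 := by
      have mv : ∀ {t : G}, t * t = 1 → (∀ w ∈ S, t * w * t = w⁻¹) →
          ∀ w ∈ S, ∀ g, t * (w * g) = w⁻¹ * (t * g) := fun ht hi w hw g => by
        rw [← hi w hw]
        simp only [mul_assoc, mul_cancel_inv ht]
      rw [y3, mul_assoc, cyc_comm hs hw, mul_assoc, mul_assoc a, mv s2 i2 w hw,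
        mv s1 i1 _ (inv_mem hw), inv_inv, mv h.a2 i0 w hw]
      simp only [mul_assoc]
    have h2 := h.sq_comm S (b * c) w hw
    rw [pow_succ', sq, mul_assoc, h2, ← mul_assoc, ← mul_assoc w⁻¹, mul_left_inj, ← ib w hw] at h1
    have h3 := congrArg (fun g => b * g * c) h1
    simpa only [N] using h3
  have hσ : b * (c * (b * a * b) * c) * b * (c * (b * a * b) * c) ∈ S := by rw [← one, map_mul, H0]
  have e3 : b * a * b * (b * (c * (b * a * b) * c) * b) * (b * a * b * (b * (c * (b * a * b) * c) *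
      b)) = ρ⁻¹ := by
    rw [← ib _ hρ, ← cS _ hρ]
    simp only [eρ, N]
  obtain ⟨t2, r1⟩ := rho_sq (fun _ hu _ hw => cyc_comm hu hw) h.a2 s1 s2 i0 i1 i2 hρ
    (sqS _ (mul_mem m0 m2)) hσ rfl rfl e3 (by
      rw [← cS _ (inv_mem hρ)]
      simp only [eρ, N])
  have hτ := sqS _ (mul_mem m0 m2)
  generalize b * (c * (b * a * b) * c) * b * (c * (b * a * b) * c) = σ at hσ r1
  generalize eτ : a * (b * (c * (b * a * b) * c) * b) * (a * (b * (c * (b * a * b) * c) * b)) = τ
    at hτ t2 r1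
  have r2 : ρ * ρ = 1 := by
    obtain ⟨i, hi⟩ := mem_zpowers_iff.1 (eS ▸ hσ)
    have h1 : ρ * ρ = (ρ * ρ) ^ i * (ρ * ρ) ^ i := by
      rw [(Commute.refl ρ).mul_zpow, hi]
      calc ρ * ρ = τ * (σ * σ) * (τ * (σ * σ)) := by rw [← r1]
        _ = _ := by
          rw [mul_assoc, ← mul_assoc (σ * σ), ← cyc_comm hτ (mul_mem hσ hσ), mul_assoc,
            mul_cancel_inv t2]
    have h2 : (orderOf (ρ * ρ) : ℤ) ∣ 2 * i - 1 := orderOf_dvd_iff_zpow_eq_one.2 (by
      rw [zpow_sub_one, two_mul, zpow_add, ← h1, mul_inv_cancel])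
    refine notMem_two hP (Nat.not_even_iff_odd.1 fun ⟨k, hk⟩ => ?_) (DP (SD (mul_mem hρ hρ)))
    rw [hk] at h2
    obtain ⟨j, hj⟩ := h2
    rw [Nat.cast_add, add_mul] at hj
    omega
  have two' : ∀ w ∈ S, w = 1 ∨ w = ρ := fun w hw => zp_two r2 (eS ▸ hw)
  have sq' : ∀ w ∈ S, w * w = 1 := fun w hw => by
    rcases two' w hw with rfl | rfl
    · exact one_mul _
    · exact r2
  have cm : ∀ {t : G}, t * t = 1 → (∀ w ∈ S, t * w * t = w⁻¹) → ∀ w ∈ S, t * w = w * t :=
    fun ht hi w hw => by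
      nth_rw 2 [← inv_eq_self (sq' w hw)]
      rw [← hi w hw, mul_assoc, ht, mul_one]
  rw [sq' σ hσ, mul_one] at r1
  rw [inv_eq_self r2] at e3
  obtain ⟨f1, f2, f3⟩ := w3_facts h.a2 s1 s2 r2 (cm h.a2 i0 _ hρ) (cm s1 i1 _ hρ) (cm s2 i2 _ hρ)
    rfl (eτ.trans r1.symm) e3
  have g1 : a * (b * c) ^ 3 = (b * c) ^ 3 * a := by
    rw [y3, ← mul_assoc, f2, mul_assoc, cm h.a2 i0 s hs, ← mul_assoc]
  have g2 : (b * c) ^ 6 = ρ := by
    rw [show 6 = 3 * 2 by rfl, pow_mul, y3, (Commute.mul_left (Commute.mul_left (cm h.a2 i0 s hs)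
      (cm s1 i1 s hs)) (cm s2 i2 s hs)).mul_pow, sq, sq, f3, sq' s hs, mul_one]
  have g3 : ρ = (a * b) ^ 4 := by simp only [eρ, pow_succ, pow_zero, N]
  have g4 : (b * c) ^ (3 * 4) = 1 := by rw [show 3 * 4 = 6 + 6 by rfl, pow_add, g2, r2]
  have b0 : β ≠ 0 := by
    rintro rfl
    exact Y1 (by rw [← one_mul 3, ← pow_zero 2, ← hn, pow_orderOf_eq_one, map_one])
  have a1 := (Nat.pow_dvd_pow_iff_le_right (x := 2) (l := 1) (by norm_num)).1
    (oρ ▸ orderOf_dvd_of_pow_eq_one ((sq ρ).trans r2))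
  interval_cases α
  · obtain rfl : β = 1 := by omega
    have ρ1 : ρ = 1 := orderOf_eq_one_iff.1 oρ
    refine Or.inl ⟨hm, hn, h.a2, h.b2, h.c2, h.ac, g1, g2.trans ρ1, g2.trans g3, ?_⟩
    rw [y3, (two' s hs).elim id fun e => e.trans ρ1, mul_one]
    rfl
  · obtain rfl : β = 2 := by
      by_contra b2
      obtain rfl : β = 1 := by omega
      rw [← g2, show 6 = 2 ^ 1 * 3 by rfl, ← hn, pow_orderOf_eq_one, orderOf_one] at oρ
      omega
    refine Or.inr ⟨hm, hn, ?_⟩
    rcases two' s hs with e | e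
    · exact ⟨true, h.a2, h.b2, h.c2, h.ac, g1, g4, g2.trans g3, by rw [y3, e, mul_one]; rfl⟩
    · exact ⟨false, h.a2, h.b2, h.c2, h.ac, g1, g4, g2.trans g3, by rw [y3, e, ← f1]; rfl⟩

theorem solv2 [Finite G] (h : NM a b c) (hr : Red G) (h4 : Nat.card G = 4 * LL a b c)
    (hP : IsPGroup 2 (normalClosure {a})) :
    (orderOf (a * b) = 4 ∧ orderOf (b * c) = 6 ∧ (R1 a b c ∨ R2 2 true a b c)) ∨
      (orderOf (a * b) = 8 ∧ orderOf (b * c) = 12 ∧ ∃ s, R2 4 s a b c) := by
  obtain ⟨α, β, o, hm, hn, ho, o1, lt, hG, ⟨hc, b0⟩ | ⟨hc, hy⟩⟩ := pre2 h hr h4 hP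
  · obtain ⟨h1, h2, h3⟩ := caseI h hr hm hn ho o1 lt b0 hc
    exact Or.inl ⟨h1, h2, Or.inl h3⟩
  · exact (caseII h hr hP hm hn ho o1 lt hG hc hy).imp_left fun e => ⟨e.1, e.2.1, Or.inr e.2.2⟩

end Pool.Agent.MP_912f41_co

end MrgPart0

-- ======== part 1: formerly Pool.Agent.MP_912f41_co.Emb
section MrgPart1

/-! Upper bounds from relations, construction of homomorphisms, and the reduction step. -/

set_option autoImplicit false

namespace Pool.Agent.MP_912f41_co

open Subgroup DihedralGroup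

variable {G : Type} [Group G] {a b c : G}

theorem gen_top (gen : closure {a, b, c} = ⊤) {H : Subgroup G} (ha : a ∈ H) (hb : b ∈ H)
    (hc : c ∈ H) : H = ⊤ := by
  rw [eq_top_iff, ← gen, closure_le]
  rintro x (rfl | rfl | rfl) <;> assumption

theorem mem3 (a b c : G) : a ∈ closure {a, b, c} ∧ b ∈ closure {a, b, c} ∧ c ∈ closure {a, b, c} :=
  ⟨subset_closure (by simp), subset_closure (by simp), subset_closure (by simp)⟩

theorem gen_sub (a b c : G) : closure {(⟨a, (mem3 a b c).1⟩ : closure ({a, b, c} : Set G)),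
    ⟨b, (mem3 a b c).2.1⟩, ⟨c, (mem3 a b c).2.2⟩} = ⊤ := by
  rw [eq_top_iff, ← closure_closure_coe_preimage]
  refine closure_mono ?_
  rintro ⟨x, hx⟩ (e | e | e)
  · exact Or.inl (Subtype.ext e)
  · exact Or.inr (Or.inl (Subtype.ext e))
  · exact Or.inr (Or.inr (Subtype.ext e))

theorem range_eq (gen : closure {a, b, c} = ⊤) {H : Type} [Group H] (f : G →* H) :
    f.range = closure {f a, f b, f c} := by
  rw [MonoidHom.range_eq_map, ← gen, MonoidHom.map_closure, Set.image_insert_eq, Set.image_pair]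

theorem gen_map (gen : closure {a, b, c} = ⊤) (N : Subgroup G) [N.Normal] :
    closure {QuotientGroup.mk' N a, QuotientGroup.mk' N b, QuotientGroup.mk' N c} = ⊤ := by
  rw [← range_eq gen, MonoidHom.range_eq_top]
  exact QuotientGroup.mk'_surjective N

theorem quot_gen (gen : closure {a, b, c} = ⊤) (N : Subgroup G) [N.Normal] (ha : a ∈ N) :
    closure {QuotientGroup.mk' N b, QuotientGroup.mk' N c} = ⊤ :=
  gen_top (gen_map gen N) (by
    rw [show QuotientGroup.mk' N a = 1 from (QuotientGroup.eq_one_iff a).2 ha]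
    exact one_mem _) l_mem_dih r_mem_dih

theorem ub0 [Finite G] (a2 : a * a = 1) (b2 : b * b = 1) (c2 : c * c = 1) (ac : a * c = c * a)
    (gen : closure {a, b, c} = ⊤) (x4 : (a * b) ^ 4 = 1)
    (rel : c * (b * a * b) * c = a * (b * a * b)) {k : ℕ} (y : (b * c) ^ k = 1) :
    Nat.card G ∣ 8 * k := by
  have N := nf a2 b2 c2 ac
  set P := closure {a, b * a * b} with hP
  have l : a ∈ P := l_mem_dih
  have r : b * a * b ∈ P := r_mem_dih
  have nP : P.Normal := normal_of_gen gen (by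
    rintro s (rfl | rfl | rfl) w hw
    · exact mul_mem (mul_mem l hw) (inv_mem l)
    · rw [inv_eq_self b2]
      exact conj_dih b2 r (by simpa only [N] using l) hw
    · rw [inv_eq_self c2]
      exact conj_dih c2 (by simpa only [N] using l) (rel ▸ mul_mem l r) hw)
  have o1 : orderOf (a * (b * a * b)) ∣ 2 := orderOf_dvd_of_pow_eq_one (by
    rw [x_sq, ← pow_mul, x4])
  have o2 : orderOf (QuotientGroup.mk' P b * QuotientGroup.mk' P c) ∣ k :=
    orderOf_dvd_of_pow_eq_one (by rw [← map_mul, ← map_pow, y, map_one])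
  have c1 := card_dih_dvd a2 (conj_sq b2 a2)
  have c3 := card_dih_dvd (s := QuotientGroup.mk' P b) (t := QuotientGroup.mk' P c)
    (by rw [← map_mul, b2, map_one]) (by rw [← map_mul, c2, map_one])
  rw [quot_gen gen P l, card_top] at c3
  rw [← card_quot P, show 8 * k = 2 * k * (2 * 2) by ring]
  exact Nat.mul_dvd_mul (c3.trans (Nat.mul_dvd_mul_left 2 o2)) (c1.trans (Nat.mul_dvd_mul_left 2 o1))

theorem R1.ub [Finite G] (h : R1 a b c) : Nat.card (closure {a, b, c} : Subgroup G) ≤ 48 := by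
  obtain ⟨h1, h2, h3, h4, h5, h6, h7⟩ := h
  exact Nat.le_of_dvd (by norm_num) (ub0 (Subtype.ext h1) (Subtype.ext h2) (Subtype.ext h3)
    (Subtype.ext h4) (gen_sub a b c) (Subtype.ext h5) (Subtype.ext h7) (k := 6) (Subtype.ext h6))

theorem ub2 [Finite G] {k : ℕ} {s : Bool} (h : R2 k s a b c) (gen : closure {a, b, c} = ⊤) :
    Nat.card G ∣ 24 * k := by
  obtain ⟨a2, b2, c2, ac, h5, h6, h7, h8⟩ := h
  have my : (b * c) ^ 3 ∈ zpowers (b * c) := pow_mem (mem_zpowers _) 3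
  have nZ : (zpowers ((b * c) ^ 3)).Normal := normal_of_gen gen (by
    rintro t (rfl | rfl | rfl) w hw
    · exact zp_conj (by rw [h5, mul_inv_cancel_right]; exact mem_zpowers _) hw
    · exact dih_conj_mem b2 c2 l_mem_dih (zpowers_le_of_mem my) hw
    · exact dih_conj_mem b2 c2 r_mem_dih (zpowers_le_of_mem my) hw)
  set π := QuotientGroup.mk' (zpowers ((b * c) ^ 3)) with hπ
  have y3 : (π b * π c) ^ 3 = 1 := by
    rw [← map_mul, ← map_pow]
    exact (QuotientGroup.eq_one_iff _).2 (mem_zpowers _)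
  have A2 : π a * π a = 1 := by rw [← map_mul, a2, map_one]
  have B2 : π b * π b = 1 := by rw [← map_mul, b2, map_one]
  have C2 : π c * π c = 1 := by rw [← map_mul, c2, map_one]
  have AC : π a * π c = π c * π a := by rw [← map_mul, ac, map_mul]
  have N := nf A2 B2 C2 AC
  have x4 : (π a * π b) ^ 4 = 1 := by
    rw [← map_mul, ← map_pow, ← h7, map_pow, map_mul, show 6 = 3 * 2 by rfl, pow_mul, y3, one_pow]
  have e : π b * (π c * (π b * π a * π b) * π c) * π b = π c * (π b * π a * π b) * π c := by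
    calc _ = (π b * π c) ^ 3 * (π c * (π b * π a * π b) * π c) * ((π b * π c) ^ 3)⁻¹ := by
          simp only [pow_succ, pow_zero, N]
      _ = _ := by rw [y3, one_mul, inv_one, mul_one]
  have h9 := congrArg π h8
  rw [map_pow, map_mul, y3] at h9
  rw [← card_quot (zpowers ((b * c) ^ 3)), Nat.card_zpowers]
  refine Nat.mul_dvd_mul (ub0 A2 B2 C2 AC (gen_map gen _) x4 ?_ y3)
    (orderOf_dvd_of_pow_eq_one ((pow_mul _ _ _).symm.trans h6))
  cases s <;> simp only [W3, cond, map_mul, e] at h9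
  · rw [mul_assoc, eq_comm, mul_eq_one_iff_eq_inv] at h9
    rw [h9]
    simp only [N]
  · rw [eq_inv_of_mul_eq_one_right h9.symm, eq_comm, ← mul_eq_one_iff_eq_inv, ← x4]
    simp only [pow_succ, pow_zero, N]

theorem R2.ub [Finite G] {k : ℕ} {s : Bool} (h : R2 k s a b c) (k0 : 0 < k) :
    Nat.card (closure {a, b, c} : Subgroup G) ≤ 24 * k := by
  obtain ⟨h1, h2, h3, h4, h5, h6, h7, h8⟩ := h
  refine Nat.le_of_dvd (by omega) (ub2 (s := s) ⟨Subtype.ext h1, Subtype.ext h2, Subtype.ext h3,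
    Subtype.ext h4, Subtype.ext h5, Subtype.ext h6, Subtype.ext h7, Subtype.ext ?_⟩ (gen_sub a b c))
  cases s <;> exact h8

theorem R1.prod {H : Type} [Group H] {A B C : H} (h : R1 a b c) (h' : R1 A B C) :
    R1 (a, A) (b, B) (c, C) := by
  obtain ⟨h1, h2, h3, h4, h5, h6, h7⟩ := h
  obtain ⟨k1, k2, k3, k4, k5, k6, k7⟩ := h'
  exact ⟨Prod.ext h1 k1, Prod.ext h2 k2, Prod.ext h3 k3, Prod.ext h4 k4, Prod.ext h5 k5,
    Prod.ext h6 k6, Prod.ext h7 k7⟩

theorem R2.prod {H : Type} [Group H] {A B C : H} {k : ℕ} {s : Bool} (h : R2 k s a b c)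
    (h' : R2 k s A B C) : R2 k s (a, A) (b, B) (c, C) := by
  obtain ⟨h1, h2, h3, h4, h5, h6, h7, h8⟩ := h
  obtain ⟨k1, k2, k3, k4, k5, k6, k7, k8⟩ := h'
  refine ⟨Prod.ext h1 k1, Prod.ext h2 k2, Prod.ext h3 k3, Prod.ext h4 k4, Prod.ext h5 k5,
    Prod.ext h6 k6, Prod.ext h7 k7, ?_⟩
  cases s <;> exact Prod.ext h8 k8

theorem trick {H : Type} [Group H] [Finite G] [Finite H] (gen : closure {a, b, c} = ⊤) {A B C : H}
    (hc : Nat.card (closure {(a, A), (b, B), (c, C)} : Subgroup (G × H)) ≤ Nat.card G) :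
    ∃ φ : G →* H, φ a = A ∧ φ b = B ∧ φ c = C := by
  obtain ⟨ma, mb, mc⟩ := mem3 (a, A) (b, B) (c, C)
  set K := closure {(a, A), (b, B), (c, C)} with hK
  set f := (MonoidHom.fst G H).comp K.subtype with hf
  have hs : Function.Surjective f := MonoidHom.range_eq_top.1
    (gen_top gen ⟨⟨_, ma⟩, rfl⟩ ⟨⟨_, mb⟩, rfl⟩ ⟨⟨_, mc⟩, rfl⟩)
  set e := MulEquiv.ofBijective f (hs.bijective_of_nat_card_le hc) with he
  have k : ∀ u : K, ((MonoidHom.snd G H).comp (K.subtype.comp e.symm.toMonoidHom)) (f u) =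
      (u : G × H).2 := fun u => congrArg (fun v : K => (v : G × H).2) (e.symm_apply_apply u)
  exact ⟨_, k ⟨_, ma⟩, k ⟨_, mb⟩, k ⟨_, mc⟩⟩

theorem sr_ne_one {n : ℕ} (i : ZMod n) : (sr i : DihedralGroup n) ≠ 1 := fun e => by cases e

theorem sr01 {n : ℕ} : (sr 0 * sr 1 : DihedralGroup n) = r 1 := by simp

theorem dih_hom [Finite G] (gen : closure {a, b, c} = ⊤) (b2 : b * b = 1) (c2 : c * c = 1)
    (W : Subgroup G) [W.Normal] (ha : a ∈ W) (hb : b ∉ W) (hc : c ∉ W) {k : ℕ}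
    (hk : k ∣ orderOf (QuotientGroup.mk' W (b * c))) :
    ∃ φ : G →* DihedralGroup k, φ a = 1 ∧ φ b = sr 0 ∧ φ c = sr 1 := by
  have : NeZero k := ⟨ne_zero_of_dvd_ne_zero (orderOf_pos _).ne' hk⟩
  set π := QuotientGroup.mk' W with hπ
  have B2 : π b * π b = 1 := by rw [← map_mul, b2, map_one]
  have C2 : π c * π c = 1 := by rw [← map_mul, c2, map_one]
  have h1 := card_dih B2 C2 (r_notMem B2 C2 (mt (QuotientGroup.eq_one_iff b).1 hb)
    (mt (QuotientGroup.eq_one_iff c).1 hc))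
  rw [quot_gen gen W ha, card_top] at h1
  obtain ⟨φ, h⟩ := trick (gen_map gen W) (A := (1 : DihedralGroup k)) (B := sr 0) (C := sr 1) (by
    have h2 := card_dih_dvd (s := (π b, (sr 0 : DihedralGroup k))) (t := (π c, sr 1))
      (Prod.ext B2 (sr_mul_self _)) (Prod.ext C2 (sr_mul_self _))
    rw [Prod.mk_mul_mk, Prod.orderOf_mk, sr01, orderOf_r_one, Nat.lcm_eq_left (map_mul π b c ▸ hk),
      ← h1] at h2
    refine (card_le_of_le ((closure_le _).2 ?_)).trans (Nat.le_of_dvd Nat.card_pos h2)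
    rintro x (rfl | rfl | rfl)
    · rw [show QuotientGroup.mk' W a = 1 from (QuotientGroup.eq_one_iff a).2 ha]
      exact one_mem _
    · exact l_mem_dih
    · exact r_mem_dih)
  exact ⟨φ.comp π, h⟩

theorem card_dihedral {q : ℕ} : Nat.card (closure {sr 0, sr 1} : Subgroup (DihedralGroup q)) =
    2 * q := by
  rw [card_dih (sr_mul_self _) (sr_mul_self _) (r_notMem (sr_mul_self _) (sr_mul_self _)
    (sr_ne_one _) (sr_ne_one _)), sr01, orderOf_r_one]

theorem hom_dih [Finite G] (gen : closure {a, b, c} = ⊤) (a2 : a * a = 1) (b2 : b * b = 1)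
    (c2 : c * c = 1) (U : Subgroup G) [U.Normal] [IsCyclic U] {q k l t : ℕ}
    (hc : ∀ z ∈ zpowers (b * c) ⊓ U, z * a = a * z) (θ : G →* DihedralGroup q) (θa : θ a = 1)
    (θb : θ b = sr 0) (θc : θ c = sr 1) (hn : orderOf (QuotientGroup.mk' U (b * c)) = q * k)
    (hl : Nat.card (zpowers (b * c) ⊓ U : Subgroup G) = l) (lo : Odd l)
    (hG : Nat.card G = 2 * q * (l * t)) (co : t.Coprime l) (ck : k.Coprime (q * l)) :
    ∃ φ : G →* DihedralGroup (q * l), φ a = 1 ∧ φ b = sr 0 ∧ φ c = sr 1 := by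
  set W := normalClosure ({a} : Set G) with hW
  set Z := zpowers (b * c) ⊓ U with hZ
  have nZ : Z.Normal := cyc_normal (Z := U) inf_le_right
  have WK : W ≤ θ.ker := normalClosure_le_normal (Set.singleton_subset_iff.2 θa)
  have θy : θ (b * c) = r 1 := by rw [map_mul, θb, θc, sr01]
  have ZK : Z ≤ θ.ker := fun z hz => by
    obtain ⟨i, rfl⟩ := mem_zpowers_iff.1 hz.1
    have h1 : (QuotientGroup.mk' U (b * c)) ^ i = 1 := by
      rw [← map_zpow]
      exact (QuotientGroup.eq_one_iff _).2 hz.2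
    rw [← orderOf_dvd_iff_zpow_eq_one, hn, Nat.cast_mul] at h1
    rw [MonoidHom.mem_ker, map_zpow, θy, ← orderOf_dvd_iff_zpow_eq_one, orderOf_r_one]
    exact (Dvd.intro _ rfl).trans h1
  have i1 : Z.relIndex W ∣ t := by
    have h1 : Z.relIndex W ∣ Z.relIndex θ.ker := by
      rw [← QuotientGroup.ker_mk' Z, relIndex_ker, relIndex_ker]
      exact card_dvd_of_le (map_mono WK)
    have h2 := card_inf_mul Z θ.ker
    have h3 := index_mul_card θ.ker
    obtain ⟨d, hd⟩ : 2 * q ∣ θ.ker.index := by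
      rw [index_ker, ← card_dihedral]
      exact card_dvd_of_le (dih_le ⟨b, θb⟩ ⟨c, θc⟩)
    rw [inf_eq_right.2 ZK, hl] at h2
    rw [hd, ← h2, hG, mul_assoc] at h3
    have h4 := Nat.card_pos (α := G)
    rw [hG] at h4
    have h5 := Nat.eq_of_mul_eq_mul_left (Nat.pos_of_mul_pos_right h4) h3
    rw [mul_left_comm] at h5
    exact h1.trans (Dvd.intro_left d (Nat.eq_of_mul_eq_mul_left lo.pos h5))
  have k1 : ∀ z ∈ Z, z ∈ W → z = 1 := fun z hz => cent_ncl a2 hc (hl ▸ lo)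
    (hl ▸ co.coprime_dvd_left i1) hz
  have d1 : Nat.card (zpowers (b * c) ⊓ W : Subgroup G) ∣ k := by
    have : IsCyclic (zpowers (b * c) ⊓ W : Subgroup G) := Subgroup.isCyclic_of_le inf_le_left
    obtain ⟨w, hw, e⟩ := exists_gen (Z := zpowers (b * c) ⊓ W)
    rw [← e]
    refine orderOf_dvd_of_pow_eq_one (k1 _ ⟨pow_mem hw.1 k, ?_⟩ (pow_mem hw.2 k))
    obtain ⟨i, rfl⟩ := mem_zpowers_iff.1 hw.1
    have h1 := MonoidHom.mem_ker.1 (WK hw.2)
    rw [map_zpow, θy, ← orderOf_dvd_iff_zpow_eq_one, orderOf_r_one] at h1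
    obtain ⟨i, rfl⟩ := h1
    rw [← zpow_natCast, ← zpow_mul, mul_right_comm, zpow_mul, ← Nat.cast_mul, zpow_natCast]
    exact zpow_mem (pow_mem_of_mk hn) i
  refine dih_hom gen b2 c2 W (mem_ncl a) (fun e => sr_ne_one 0 (θb.symm.trans (WK e)))
    (fun e => sr_ne_one 1 (θc.symm.trans (WK e))) ?_
  have h1 := orderOf_mk W (b * c)
  rw [← orderOf_mk U (b * c), hn, hl] at h1
  exact (ck.coprime_dvd_left d1).symm.dvd_of_dvd_mul_right (h1 ▸ ⟨k, by ring⟩)

/-- reduction of the index of a dihedral group -/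
def dproj {k n : ℕ} (h : k ∣ n) : DihedralGroup n →* DihedralGroup k where
  toFun
    | r i => r (ZMod.castHom h (ZMod k) i)
    | sr i => sr (ZMod.castHom h (ZMod k) i)
  map_one' := congrArg r (map_zero _)
  map_mul' := by
    rintro (i | i) (j | j)
    · exact congrArg r (map_add _ _ _)
    · exact congrArg sr (map_sub _ _ _)
    · exact congrArg sr (map_add _ _ _)
    · exact congrArg r (map_sub _ _ _)

theorem dproj0 {k n : ℕ} (h : k ∣ n) : dproj h (sr 0) = sr 0 := congrArg sr (map_zero _)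

theorem dproj1 {k n : ℕ} (h : k ∣ n) : dproj h (sr 1) = sr 1 := congrArg sr (map_one _)

theorem dproj_surj {k n : ℕ} (h : k ∣ n) : Function.Surjective (dproj h) := by
  rintro (i | i) <;> obtain ⟨j, rfl⟩ := ZMod.ringHom_surjective (ZMod.castHom h (ZMod k)) i
  · exact ⟨r j, rfl⟩
  · exact ⟨sr j, rfl⟩

theorem card_le_of_proj {H : Type} [Group H] [Finite G] (π : G →* H) (hs : Function.Surjective π)
    (a b c : G) {k : ℕ} (hk : Nat.card G = Nat.card H * k) :
    Nat.card (closure {a, b, c} : Subgroup G) ≤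
      k * Nat.card (closure {π a, π b, π c} : Subgroup H) := by
  have h1 := card_inf_mul π.ker (closure {a, b, c})
  rw [relIndex_ker, MonoidHom.map_closure, Set.image_insert_eq, Set.image_pair] at h1
  have h2 := index_mul_card π.ker
  rw [index_ker, MonoidHom.range_eq_top.2 hs, card_top, hk] at h2
  have h3 := Nat.card_pos (α := G)
  rw [hk] at h3
  rw [← h1, ← Nat.eq_of_mul_eq_mul_left (Nat.pos_of_mul_pos_right h3) h2]
  exact Nat.mul_le_mul_right _ (card_le_of_le inf_le_right)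

theorem inj_of_card {H : Type} [Group H] [Finite G] (φ : G →* H)
    (h : Nat.card G ≤ Nat.card φ.range) : Function.Injective φ :=
  Subtype.val_injective.comp (φ.rangeRestrict_surjective.bijective_of_nat_card_le h).1

theorem non_of_odd (a2 : a * a = 1) (b2 : b * b = 1) (c2 : c * c = 1) (ac : a * c = c * a)
    (gen : closure {a, b, c} = ⊤) {w : G} (hw : w * a ∈ closure {a * b, b * c}) {k : ℕ} (hk : Odd k)
    (h : w ^ k = 1) : closure {a * b, b * c} = ⊤ := by
  have N := nf a2 b2 c2 ac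
  have l : a * b ∈ closure {a * b, b * c} := l_mem_dih
  have r : b * c ∈ closure {a * b, b * c} := r_mem_dih
  have h1 := mul_mem hw (conj_dih a2 (by simpa only [N] using inv_mem l)
    (by simpa only [N] using mul_mem l (mul_mem l r)) hw)
  obtain ⟨i, rfl⟩ := hk
  have h2 : w ∈ closure {a * b, b * c} := by
    refine (mul_mem_cancel_left (pow_mem (show w * w ∈ _ by simpa only [N] using h1) i)).1 ?_
    rw [← sq, ← pow_mul, ← pow_succ, h]
    exact one_mem _
  have h3 := (mul_mem_cancel_left h2).1 hw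
  have h4 := (mul_mem_cancel_left h3).1 l
  exact gen_top gen h3 h4 ((mul_mem_cancel_left h4).1 r)

theorem NM.euler_iff [Finite G] (h : NM a b c) {t : ℕ} (ht : Nat.card G = 2 * LL a b c * t)
    (p : ℕ) : euler a b c = -2 * p ↔ t * (orderOf (a * b) * orderOf (b * c)) =
      t * (2 * orderOf (a * b) + 2 * orderOf (b * c)) +
        4 * p * Nat.gcd (orderOf (a * b)) (orderOf (b * c)) := by
  have h1 := index_mul_card (closure ({b, c} : Set G))
  have h2 := index_mul_card (closure ({a, c} : Set G))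
  have h3 := index_mul_card (closure ({a, b} : Set G))
  rw [h.card_DY, ht] at h1
  rw [h.card_V, ht] at h2
  rw [h.card_DX, ht] at h3
  have hg := Nat.gcd_mul_lcm (orderOf (a * b)) (orderOf (b * c))
  have hL := LL_pos a b c
  have hm := orderOf_pos (a * b)
  have hn := orderOf_pos (b * c)
  rw [euler]
  unfold LL at *
  generalize Nat.lcm (orderOf (a * b)) (orderOf (b * c)) = L at *
  generalize Nat.gcd (orderOf (a * b)) (orderOf (b * c)) = g at *
  generalize orderOf (a * b) = m at *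
  generalize orderOf (b * c) = n at *
  zify at *
  constructor
  · intro e
    refine mul_left_cancel₀ (show (2 * L : ℤ) ≠ 0 by omega) ?_
    linear_combination (-4 * m * n) * e + 2 * m * h1 - m * n * h2 + 2 * n * h3 - 8 * p * hg
  · intro e
    refine mul_left_cancel₀ (show (4 * m * n : ℤ) ≠ 0 by positivity) ?_
    linear_combination (-2 * L) * e + 2 * m * h1 - m * n * h2 + 2 * n * h3 - 8 * p * hg

theorem NM.red [Finite G] (h : NM a b c) {t : ℕ} (ht : Nat.card G = 2 * LL a b c * t)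
    (t2 : t ∣ 2) : ∃ (U : Subgroup G) (_ : U.Normal) (_ : IsCyclic U) (j l : ℕ),
      (∀ w ∈ U, Odd (orderOf w)) ∧ Nat.card (zpowers (a * b) ⊓ U : Subgroup G) = j ∧
      Nat.card (zpowers (b * c) ⊓ U : Subgroup G) = l ∧ Nat.card U = j * l ∧ Odd j ∧ Odd l ∧
      Red (G ⧸ U) ∧ NM (QuotientGroup.mk' U a) (QuotientGroup.mk' U b) (QuotientGroup.mk' U c) ∧
      LL a b c = LL (QuotientGroup.mk' U a) (QuotientGroup.mk' U b) (QuotientGroup.mk' U c) *
        (j * l) := by
  have h8 : Nat.card G ∣ 8 * LL a b c := by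
    rw [ht, show 8 * LL a b c = 2 * LL a b c * 4 by ring]
    exact Nat.mul_dvd_mul_left _ (t2.trans ⟨2, rfl⟩)
  obtain ⟨U, ⟨hn, ho, hc⟩, hU⟩ := exists_max (fun U : Subgroup G => U.Normal ∧
    (∀ w ∈ U, Odd (orderOf w)) ∧ ∀ u ∈ U, ∀ w ∈ U, u * w = w * u)
    ⟨inferInstance, fun w hw => by simp [mem_bot.1 hw], fun u hu w hw => by
      rw [mem_bot.1 hu, mem_bot.1 hw]⟩
  have cyc := cyc_of_odd (oc_of h8) ho hc
  have od : ∀ Z ≤ U, Odd (Nat.card Z) := fun Z hZ => by
    have : IsCyclic Z := Subgroup.isCyclic_of_le hZ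
    obtain ⟨w, hw, e⟩ := exists_gen (Z := Z)
    exact e ▸ ho w (hZ hw)
  have one : ∀ w, QuotientGroup.mk' U w = 1 ↔ w ∈ U := fun w => QuotientGroup.eq_one_iff w
  have co : (Nat.card (zpowers (a * b) ⊓ U : Subgroup G)).Coprime
      (Nat.card (zpowers (b * c) ⊓ U : Subgroup G)) := by
    obtain ⟨w, hw, e⟩ := exists_ord (Z := U) ((Nat.gcd_dvd_left _
      (Nat.card (zpowers (b * c) ⊓ U : Subgroup G))).trans (card_dvd_of_le
      (inf_le_right : zpowers (a * b) ⊓ U ≤ U)))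
    have k : ∀ Z ≤ U, orderOf w ∣ Nat.card Z → w ∈ Z := fun Z hZ d =>
      cyc_mem hZ hw (orderOf_dvd_iff_pow_eq_one.1 d)
    rw [Nat.Coprime, ← e, orderOf_eq_one_iff]
    exact eq_one_of_odd (ho w hw) (h.inter_sq (k _ inf_le_right (e ▸ Nat.gcd_dvd_left _ _)).1
      (zp_le_dih (k _ inf_le_right (e ▸ Nat.gcd_dvd_right _ _)).1))
  have cU := Nat.dvd_antisymm (card_dvd_lcm h8 U ho) (lcm_dvd_card a b c U)
  have q1 := LL_quot a b c U
  rw [co.lcm_eq_mul] at cU q1
  have hq : NM (QuotientGroup.mk' U a) (QuotientGroup.mk' U b) (QuotientGroup.mk' U c) :=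
    ⟨h.toWM.quot U, fun e => h.a1 (eq_one_of_odd (ho _ ((one _).1 e)) h.a2),
      fun e => h.b1 (eq_one_of_odd (ho _ ((one _).1 e)) h.b2),
      fun e => h.c1 (eq_one_of_odd (ho _ ((one _).1 e)) h.c2)⟩
  refine ⟨U, hn, cyc, _, _, ho, rfl, rfl, cU, od _ inf_le_right, od _ inf_le_right,
    fun u hu nu => ?_, hq, ?_⟩
  · obtain ⟨u, rfl⟩ := QuotientGroup.mk'_surjective U u
    set W := (zpowers (QuotientGroup.mk' U u)).comap (QuotientGroup.mk' U) with hW
    have oW : ∀ w ∈ W, Odd (orderOf w) := fun w hw => by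
      rw [← orderOf_mk U w]
      exact (hu.of_dvd_nat (orderOf_dvd_of_mem_zpowers hw)).mul (od _ inf_le_right)
    refine (one u).2 (hU W ⟨nu.comap _, oW, fun v hv w hw => congrArg Subtype.val
      (comm_of_cyc ((QuotientGroup.mk' U).subgroupComap _) (fun z hz w => Subtype.ext
        (h.odd_comm U (oW _ w.2) ((one _).1 (congrArg Subtype.val hz)))) ⟨v, hv⟩ ⟨w, hw⟩)⟩
      (fun w hw => ?_) (mem_zpowers _))
    rw [hW, mem_comap, (one w).2 hw]
    exact one_mem _
  · obtain ⟨s, hs⟩ : LL (QuotientGroup.mk' U a) (QuotientGroup.mk' U b) (QuotientGroup.mk' U c) ∣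
        LL a b c := lcm_dvd_lcm (map_mul (QuotientGroup.mk' U) a b ▸ orderOf_map_dvd _ _)
      (map_mul (QuotientGroup.mk' U) b c ▸ orderOf_map_dvd _ _)
    have d := Nat.mul_dvd_mul_right hq.two_L_dvd (Nat.card U)
    have pL := LL_pos (QuotientGroup.mk' U a) (QuotientGroup.mk' U b) (QuotientGroup.mk' U c)
    rw [card_quot, ht, hs, mul_assoc, mul_assoc 2, mul_assoc] at d
    have d1 := (Nat.dvd_of_mul_dvd_mul_left pL (Nat.dvd_of_mul_dvd_mul_left (by norm_num) d)).trans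
      (Nat.mul_dvd_mul_left s t2)
    rw [← cU] at q1 ⊢
    exact Nat.dvd_antisymm q1 (hs ▸ Nat.mul_dvd_mul_left _
      ((Nat.coprime_two_right.2 (od U le_rfl)).dvd_of_dvd_mul_right d1))

end Pool.Agent.MP_912f41_co

end MrgPart1

-- marker of a merged file
example : 731051 + 601744 = 731051 + 601744 := rfl
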