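import Mathlib.Algebra.Torsor.Defs
import Mathlib.Tactic.Monotonicity.Lemmas
import Mathlib.Data.Int.ConditionallyCompleteOrder
import Mathlib.Data.Int.Star
import Mathlib.Algebra.Order.Ring.Star
import Mathlib.GroupTheory.GroupAction.Blocks
import Mathlib.GroupTheory.IndexNormal
import Mathlib.GroupTheory.NoncommCoprod
import Mathlib.GroupTheory.SpecificGroups.ZGroup
import Mathlib.Order.CompletePartialOrder
import Mathlib.Tactic.Algebra.Basic
import Pool.Agent.MP_912f41_co.Defs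

-- ======== part 0: formerly Pool.Agent.MP_912f41_co.Basic
section MrgPart0

/-! Elementary facts on cyclic and dihedral subgroups and on generating triples. -/

set_option autoImplicit false

namespace Pool.Agent.MP_912f41_co

open Subgroup

variable {G : Type} [Group G]

/-! ### cyclic groups -/

theorem pow_card_of_mem {A : Subgroup G} {w : G} (hw : w ∈ A) : w ^ Nat.card A = 1 :=
  congrArg Subtype.val (pow_card_eq_one' (G := A) (x := ⟨w, hw⟩))

theorem cyc_mem [Finite G] {Z B : Subgroup G} [IsCyclic Z] (hB : B ≤ Z) {w : G} (hw : w ∈ Z)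
    (h : w ^ Nat.card B = 1) : w ∈ B := by
  classical
  have := Fintype.ofFinite Z
  have hk : 0 < Nat.card B := Nat.card_pos
  have h1 := IsCyclic.card_pow_eq_one_le (α := Z) hk
  set S : Finset Z := Finset.univ.filter fun a => (a : G) ∈ B with hS
  have h2 : S.card = Nat.card B := by
    rw [← Nat.card_congr (subgroupOfEquivOfLe hB).toEquiv, ← Nat.card_eq_finsetCard]
    exact Nat.card_congr (Equiv.subtypeEquivRight (by simp [hS, mem_subgroupOf]))
  have h3 : S ⊆ Finset.univ.filter fun a : Z => a ^ Nat.card B = 1 := by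
    intro a ha
    simp only [hS, Finset.mem_filter, Finset.mem_univ, true_and] at ha ⊢
    exact Subtype.ext (pow_card_of_mem ha)
  have h4 := Finset.eq_of_subset_of_card_le h3 (h2 ▸ h1)
  have h5 : (⟨w, hw⟩ : Z) ∈ S := by
    rw [h4]
    simp only [Finset.mem_filter, Finset.mem_univ, true_and]
    exact Subtype.ext (by simpa using h)
  simpa [hS] using h5

theorem cyc_le [Finite G] {Z A B : Subgroup G} [IsCyclic Z] (hA : A ≤ Z) (hB : B ≤ Z)
    (h : Nat.card A ∣ Nat.card B) : A ≤ B := fun w hw => by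
  obtain ⟨k, hk⟩ := h
  exact cyc_mem hB (hA hw) (by rw [hk, pow_mul, pow_card_of_mem hw, one_pow])

theorem cyc_mem_zp [Finite G] {Z : Subgroup G} [IsCyclic Z] {u w : G} (hu : u ∈ Z) (hw : w ∈ Z)
    (h : orderOf w ∣ orderOf u) : w ∈ zpowers u :=
  cyc_mem (zpowers_le_of_mem hu) hw (by rw [Nat.card_zpowers]; exact orderOf_dvd_iff_pow_eq_one.1 h)

theorem cyc_comm {Z : Subgroup G} [IsCyclic Z] {u w : G} (hu : u ∈ Z) (hw : w ∈ Z) :
    u * w = w * u := by
  obtain ⟨g, hg⟩ := IsCyclic.exists_generator (α := Z)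
  obtain ⟨i, hi⟩ := mem_zpowers_iff.1 (hg ⟨u, hu⟩)
  obtain ⟨j, hj⟩ := mem_zpowers_iff.1 (hg ⟨w, hw⟩)
  have hi' : (g : G) ^ i = u := by simpa using congrArg Subtype.val hi
  have hj' : (g : G) ^ j = w := by simpa using congrArg Subtype.val hj
  rw [← hi', ← hj', zpow_mul_comm]

theorem orderOf_conj (g w : G) : orderOf (g * w * g⁻¹) = orderOf w :=
  orderOf_injective (MulAut.conj g).toMonoidHom (MulAut.conj g).injective w

theorem cyc_conj [Finite G] {Z B : Subgroup G} [IsCyclic Z] (hB : B ≤ Z) {g : G}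
    (hg : ∀ w ∈ B, g * w * g⁻¹ ∈ Z) {w : G} (hw : w ∈ B) : g * w * g⁻¹ ∈ B :=
  cyc_mem hB (hg w hw) (by rw [conj_pow, pow_card_of_mem hw]; simp)

theorem cyc_normal [Finite G] {Z B : Subgroup G} [IsCyclic Z] [hZ : Z.Normal] (hB : B ≤ Z) :
    B.Normal := ⟨fun _ hw g => cyc_conj hB (fun w hw => hZ.conj_mem w (hB hw) g) hw⟩

theorem mem_normalizer_of_conj [Finite G] {B : Subgroup G} {g : G}
    (hg : ∀ w ∈ B, g * w * g⁻¹ ∈ B) : g ∈ normalizer (B : Set G) :=
  mem_normalizer_fintype hg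

theorem zp_conj {u g : G} (hg : g * u * g⁻¹ ∈ zpowers u) {w : G} (hw : w ∈ zpowers u) :
    g * w * g⁻¹ ∈ zpowers u := by
  obtain ⟨i, rfl⟩ := mem_zpowers_iff.1 hw
  rw [← conj_zpow]
  exact zpow_mem hg i

theorem mem_normalizer_zp [Finite G] {u g : G} :
    g ∈ normalizer (zpowers u : Set G) ↔ g * u * g⁻¹ ∈ zpowers u :=
  ⟨fun h => (mem_normalizer_iff.1 h u).1 (mem_zpowers u),
    fun h => mem_normalizer_of_conj fun _ hw => zp_conj h hw⟩

theorem eq_one_of_pow_coprime {w : G} {i j : ℕ} (hi : w ^ i = 1) (hj : w ^ j = 1)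
    (h : i.Coprime j) : w = 1 :=
  orderOf_eq_one_iff.1 (Nat.eq_one_of_dvd_coprimes h (orderOf_dvd_of_pow_eq_one hi)
    (orderOf_dvd_of_pow_eq_one hj))

theorem eq_one_of_odd {w : G} (h : Odd (orderOf w)) (h2 : w * w = 1) : w = 1 :=
  eq_one_of_pow_coprime (pow_orderOf_eq_one w) (by rw [sq]; exact h2) (Nat.coprime_two_right.2 h)

/-- if a power prime to the order lies in a subgroup, so does the element -/
theorem mem_of_pow_mem [Finite G] {H : Subgroup G} {w : G} {k : ℕ} (h : w ^ k ∈ H)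
    (hk : k.Coprime (orderOf w)) : w ∈ H :=
  zpowers_le_of_mem h (mem_zpowers_pow_iff.2 hk)

theorem mem_of_sq_mem [Finite G] {H : Subgroup G} {w : G} (h : w * w ∈ H)
    (hk : Odd (orderOf w)) : w ∈ H :=
  mem_of_pow_mem (k := 2) (by rw [sq]; exact h) (Nat.coprime_two_left.2 hk)

theorem exists_prime_pow [Finite G] {w : G} {r : ℕ} (h : r ∣ orderOf w) :
    ∃ u ∈ zpowers w, orderOf u = r :=
  ⟨w ^ (orderOf w / r), pow_mem (mem_zpowers w) _,
    orderOf_pow_orderOf_div (orderOf_pos w).ne' h⟩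

theorem inv_eq_self {s : G} (hs : s * s = 1) : s⁻¹ = s := inv_eq_of_mul_eq_one_right hs

theorem mul_cancel_inv {s : G} (hs : s * s = 1) (g : G) : s * (s * g) = g := by
  rw [← mul_assoc, hs, one_mul]

/-- a subgroup normalised by generators is normal -/
theorem normal_of_gen [Finite G] {S : Set G} (hS : closure S = ⊤) {B : Subgroup G}
    (h : ∀ s ∈ S, ∀ w ∈ B, s * w * s⁻¹ ∈ B) : B.Normal := by
  rw [← normalizer_eq_top_iff, eq_top_iff, ← hS, closure_le]
  exact fun s hs => mem_normalizer_of_conj (h s hs)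

theorem card_inf_mul (H K : Subgroup G) : Nat.card (K ⊓ H : Subgroup G) * H.relIndex K =
    Nat.card K := by
  rw [← inf_relIndex_left, ← relIndex_bot_left, ← relIndex_bot_left]
  exact relIndex_mul_relIndex _ _ _ bot_le inf_le_left

theorem card_sup_normal (H N : Subgroup G) [N.Normal] :
    Nat.card (H ⊔ N : Subgroup G) * Nat.card (H ⊓ N : Subgroup G) = Nat.card H * Nat.card N := by
  have h1 := card_inf_mul N (H ⊔ N)
  rw [relIndex_sup_right, inf_eq_right.2 le_sup_right] at h1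
  rw [← h1, ← card_inf_mul N H]
  ring

theorem orderOf_mk [Finite G] (N : Subgroup G) [N.Normal] (w : G) :
    orderOf (QuotientGroup.mk' N w) * Nat.card (zpowers w ⊓ N : Subgroup G) = orderOf w := by
  have h1 := card_inf_mul N (zpowers w)
  have h2 := relIndex_ker (zpowers w) (QuotientGroup.mk' N)
  rw [QuotientGroup.ker_mk', MonoidHom.map_zpowers, Nat.card_zpowers] at h2
  rw [h2, Nat.card_zpowers] at h1
  rw [← h1, mul_comm]

theorem card_quot (N : Subgroup G) : Nat.card (G ⧸ N) * Nat.card N = Nat.card G :=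
  (card_eq_card_quotient_mul_card_subgroup N).symm

/-! ### dihedral subgroups -/

section Dih

variable {s t : G}

theorem dih_inv_r (hs : s * s = 1) (ht : t * t = 1) {w : G} (hw : w ∈ zpowers (s * t)) :
    t * w * t = w⁻¹ := by
  obtain ⟨i, rfl⟩ := mem_zpowers_iff.1 hw
  have h : t * (s * t) * t⁻¹ = (s * t)⁻¹ := by
    rw [mul_inv_rev, inv_eq_self hs, inv_eq_self ht, mul_assoc, mul_assoc, ht, mul_one]
  calc _ = t * (s * t) ^ i * t⁻¹ := by rw [inv_eq_self ht]
    _ = _ := by rw [← conj_zpow, h, inv_zpow]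

theorem zp_dual (hs : s * s = 1) (ht : t * t = 1) : zpowers (t * s) = zpowers (s * t) := by
  rw [← zpowers_inv, mul_inv_rev, inv_eq_self hs, inv_eq_self ht]

theorem ord_dual (hs : s * s = 1) (ht : t * t = 1) : orderOf (t * s) = orderOf (s * t) := by
  rw [← orderOf_inv, mul_inv_rev, inv_eq_self hs, inv_eq_self ht]

theorem dih_inv_l (hs : s * s = 1) (ht : t * t = 1) {w : G} (hw : w ∈ zpowers (s * t)) :
    s * w * s = w⁻¹ := dih_inv_r ht hs (zp_dual hs ht ▸ hw)

theorem dih_mem (hs : s * s = 1) (ht : t * t = 1) {g : G} :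
    g ∈ closure {s, t} ↔ g ∈ zpowers (s * t) ∨ g * t ∈ zpowers (s * t) := by
  have ms : s ∈ closure ({s, t} : Set G) := subset_closure (by simp)
  have mt : t ∈ closure ({s, t} : Set G) := subset_closure (by simp)
  have hz : zpowers (s * t) ≤ closure {s, t} := zpowers_le_of_mem (mul_mem ms mt)
  constructor
  · intro hg
    induction hg using closure_induction with
    | mem x hx =>
      rcases hx with rfl | rfl
      · exact Or.inr (mem_zpowers _)
      · exact Or.inr (ht ▸ one_mem _)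
    | one => exact Or.inl (one_mem _)
    | mul x y _ _ hx hy =>
      rcases hx with hx | hx <;> rcases hy with hy | hy
      · exact Or.inl (mul_mem hx hy)
      · exact Or.inr (mul_assoc x y t ▸ mul_mem hx hy)
      · refine Or.inr ?_
        have := mul_mem hx (inv_mem hy)
        rw [← dih_inv_r hs ht hy] at this
        simpa only [mul_assoc, mul_cancel_inv ht] using this
      · refine Or.inl ?_
        have := mul_mem hx (inv_mem hy)
        rw [← dih_inv_r hs ht hy] at this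
        simpa only [mul_assoc, mul_cancel_inv ht, ht, mul_one] using this
    | inv x _ hx =>
      rcases hx with hx | hx
      · exact Or.inl (inv_mem hx)
      · refine Or.inr ?_
        have := dih_inv_r hs ht (inv_mem hx)
        rw [inv_inv, mul_inv_rev, inv_eq_self ht, mul_cancel_inv ht] at this
        rw [this]
        exact hx
  · rintro (h | h)
    · exact hz h
    · have := mul_mem (hz h) mt
      rwa [mul_assoc, ht, mul_one] at this

theorem zp_le_dih : zpowers (s * t) ≤ closure {s, t} :=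
  zpowers_le_of_mem (mul_mem (subset_closure (by simp)) (subset_closure (by simp)))

theorem l_mem_dih : s ∈ closure ({s, t} : Set G) := subset_closure (by simp)

theorem r_mem_dih : t ∈ closure ({s, t} : Set G) := subset_closure (by simp)

theorem dih_le {H : Subgroup G} (hs : s ∈ H) (ht : t ∈ H) : closure {s, t} ≤ H := by
  rw [closure_le]
  rintro x (rfl | rfl)
  · exact hs
  · exact ht

/-- reflections -/
theorem refl_inv (hs : s * s = 1) (ht : t * t = 1) {g : G} (hg : g * t ∈ zpowers (s * t))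
    {w : G} (hw : w ∈ zpowers (s * t)) : g * w * g⁻¹ = w⁻¹ := by
  have e : g = g * t * t := by rw [mul_assoc, ht, mul_one]
  have h1 := dih_inv_r hs ht hw
  have h2 := cyc_comm hg (inv_mem hw)
  calc g * w * g⁻¹ = g * t * (t * w * t) * (g * t)⁻¹ := by
        rw [mul_inv_rev, inv_eq_self ht]
        simp only [mul_assoc, mul_cancel_inv ht]
    _ = _ := by rw [h1, h2, mul_inv_cancel_right]

theorem refl_sq (hs : s * s = 1) (ht : t * t = 1) {g : G} (hg : g * t ∈ zpowers (s * t)) :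
    g * g = 1 := by
  have h1 := dih_inv_r hs ht hg
  calc g * g = g * t * (t * (g * t) * t) := by simp only [mul_assoc, mul_cancel_inv ht, ht, mul_one]
    _ = 1 := by rw [h1, mul_inv_cancel]

theorem dih_conj (hs : s * s = 1) (ht : t * t = 1) {g : G} (hg : g ∈ closure {s, t})
    {w : G} (hw : w ∈ zpowers (s * t)) : g * w * g⁻¹ = w ∨ g * w * g⁻¹ = w⁻¹ := by
  rcases (dih_mem hs ht).1 hg with h | h
  · exact Or.inl (by rw [cyc_comm h hw, mul_inv_cancel_right])
  · exact Or.inr (refl_inv hs ht h hw)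

theorem dih_conj_mem (hs : s * s = 1) (ht : t * t = 1) {g : G} (hg : g ∈ closure {s, t})
    {B : Subgroup G} (hB : B ≤ zpowers (s * t)) {w : G} (hw : w ∈ B) : g * w * g⁻¹ ∈ B := by
  rcases dih_conj hs ht hg (hB hw) with h | h <;> rw [h]
  · exact hw
  · exact inv_mem hw

theorem r_notMem (hs : s * s = 1) (ht : t * t = 1) (s1 : s ≠ 1) (t1 : t ≠ 1) :
    t ∉ zpowers (s * t) := by
  intro h
  have h1 := dih_inv_r hs ht (mem_zpowers _)
  rw [cyc_comm h (mem_zpowers _), mul_assoc, ht, mul_one] at h1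
  have h2 : (s * t) ^ (2 : ℤ) = 1 := by
    rw [zpow_two]
    exact mul_eq_one_iff_eq_inv.2 h1
  obtain ⟨i, hi⟩ := mem_zpowers_iff.1 h
  rcases Int.even_or_odd' i with ⟨k, rfl | rfl⟩
  · rw [zpow_mul, h2, one_zpow] at hi
    exact t1 hi.symm
  · rw [zpow_add, zpow_mul, h2, one_zpow, one_mul, zpow_one] at hi
    exact s1 (mul_eq_right.1 hi)

theorem mem_zp_of_order (hs : s * s = 1) (ht : t * t = 1) {g : G} (hg : g ∈ closure {s, t})
    (h : g * g ≠ 1) : g ∈ zpowers (s * t) :=
  ((dih_mem hs ht).1 hg).resolve_right fun h1 => h (refl_sq hs ht h1)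

theorem relIndex_dih (hs : s * s = 1) (ht : t * t = 1) {K : Subgroup G}
    (hK : K ≤ closure {s, t}) :
    (zpowers (s * t)).relIndex K = 1 ∨ (zpowers (s * t)).relIndex K = 2 := by
  by_cases h : K ≤ zpowers (s * t)
  · exact Or.inl (relIndex_eq_one.2 h)
  · right
    obtain ⟨g, hg, hg'⟩ := SetLike.not_le_iff_exists.1 h
    rw [relIndex_eq_two_iff_exists_notMem_and]
    refine ⟨g, hg, hg', fun w hw => ?_⟩
    have h1 := ((dih_mem hs ht).1 (hK hg)).resolve_left hg'
    rcases (dih_mem hs ht).1 (hK hw) with h2 | h2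
    · exact Or.inr h2
    · refine Or.inl ?_
      have := mul_mem h2 (inv_mem h1)
      rw [← dih_inv_r hs ht h1] at this
      simpa only [mul_assoc, mul_cancel_inv ht, ht, mul_one] using this

theorem card_sub_dih (hs : s * s = 1) (ht : t * t = 1) {K : Subgroup G}
    (hK : K ≤ closure {s, t}) :
    Nat.card K = Nat.card (K ⊓ zpowers (s * t) : Subgroup G) ∨
      Nat.card K = 2 * Nat.card (K ⊓ zpowers (s * t) : Subgroup G) := by
  have h := card_inf_mul (zpowers (s * t)) K
  rcases relIndex_dih hs ht hK with h1 | h1 <;> rw [h1] at h <;> omega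

theorem card_sub_dih' (hs : s * s = 1) (ht : t * t = 1) {K : Subgroup G}
    (hK : K ≤ closure {s, t}) {g : G} (hg : g ∈ K) (hg' : g ∉ zpowers (s * t)) :
    Nat.card K = 2 * Nat.card (K ⊓ zpowers (s * t) : Subgroup G) := by
  have h := card_inf_mul (zpowers (s * t)) K
  rcases relIndex_dih hs ht hK with h1 | h1
  · exact absurd (relIndex_eq_one.1 h1 hg) hg'
  · rw [h1] at h; omega

theorem card_dih (hs : s * s = 1) (ht : t * t = 1) (h : t ∉ zpowers (s * t)) :
    Nat.card (closure {s, t} : Subgroup G) = 2 * orderOf (s * t) := by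
  rw [card_sub_dih' hs ht le_rfl r_mem_dih h, inf_eq_right.2 zp_le_dih, Nat.card_zpowers]

theorem card_dih_dvd (hs : s * s = 1) (ht : t * t = 1) :
    Nat.card (closure {s, t} : Subgroup G) ∣ 2 * orderOf (s * t) := by
  rcases card_sub_dih hs ht (le_refl (closure {s, t})) with h | h <;>
    rw [h, inf_eq_right.2 zp_le_dih, Nat.card_zpowers]
  exact Dvd.intro_left 2 rfl

/-- every reflection is conjugate to one of the two generators -/
theorem refl_conj (hs : s * s = 1) (ht : t * t = 1) {g : G} (hg : g * t ∈ zpowers (s * t)) :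
    ∃ w ∈ zpowers (s * t), g = w * t * w⁻¹ ∨ g = w * s * w⁻¹ := by
  obtain ⟨i, hi⟩ := mem_zpowers_iff.1 hg
  have e : g = (s * t) ^ i * t := by rw [hi, mul_assoc, ht, mul_one]
  have k : ∀ j : ℤ, (s * t) ^ j * t * ((s * t) ^ j)⁻¹ = (s * t) ^ (2 * j) * t := fun j => by
    rw [← dih_inv_r hs ht (zpow_mem (mem_zpowers _) j), two_mul, zpow_add]
    simp only [mul_assoc, mul_cancel_inv ht]
  rcases Int.even_or_odd' i with ⟨j, rfl | rfl⟩
  · exact ⟨_, zpow_mem (mem_zpowers _) j, Or.inl (by rw [k, e])⟩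
  · refine ⟨_, zpow_mem (mem_zpowers _) j, Or.inr ?_⟩
    rw [e, ← dih_inv_l hs ht (zpow_mem (mem_zpowers _) j), two_mul, zpow_add, zpow_add, zpow_one]
    simp only [mul_assoc, mul_cancel_inv hs, ht, mul_one]

/-- for odd order the two generators are conjugate -/
theorem conj_of_odd [Finite G] (hs : s * s = 1) (ht : t * t = 1) (h : Odd (orderOf (s * t))) :
    ∃ w ∈ zpowers (s * t), s = w * t * w⁻¹ := by
  obtain ⟨k, hk⟩ := h
  refine ⟨(s * t) ^ (k + 1), pow_mem (mem_zpowers _) _, ?_⟩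
  rw [← dih_inv_r hs ht (pow_mem (mem_zpowers _) (k + 1))]
  have h1 : (s * t) ^ (k + 1) * (s * t) ^ (k + 1) = s * t := by
    rw [← pow_add, show k + 1 + (k + 1) = 2 * k + 1 + 1 by ring, ← hk, pow_succ,
      pow_orderOf_eq_one, one_mul]
  calc s = (s * t) ^ (k + 1) * (s * t) ^ (k + 1) * t := by rw [h1, mul_assoc, ht, mul_one]
    _ = _ := by simp only [mul_assoc, mul_cancel_inv ht]

end Dih

end Pool.Agent.MP_912f41_co

end MrgPart0

-- ======== part 1: formerly Pool.Agent.MP_912f41_co.Tri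
section MrgPart1

/-! Generating triples. -/

set_option autoImplicit false

namespace Pool.Agent.MP_912f41_co

open Subgroup

variable {G : Type} [Group G]

/-- possibly degenerate non-orientable triples -/
structure WM (a b c : G) : Prop where
  a2 : a * a = 1
  b2 : b * b = 1
  c2 : c * c = 1
  ac : a * c = c * a
  gen : closure {a, b, c} = ⊤
  non : closure {a * b, b * c} = ⊤

/-- non-orientable triples of involutions -/
structure NM (a b c : G) : Prop extends WM a b c where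
  a1 : a ≠ 1
  b1 : b ≠ 1
  c1 : c ≠ 1

/-- least common multiple of valency and face length -/
noncomputable abbrev LL (a b c : G) : ℕ := Nat.lcm (orderOf (a * b)) (orderOf (b * c))

/-- no normal cyclic subgroup of odd order -/
def Red (G : Type) [Group G] : Prop :=
  ∀ u : G, Odd (orderOf u) → (zpowers u).Normal → u = 1

/-- no abelian normal subgroup -/
def NoAb (G : Type) [Group G] : Prop :=
  ∀ N : Subgroup G, N.Normal → (∀ u ∈ N, ∀ w ∈ N, u * w = w * u) → N = ⊥

theorem cyc_hom [Finite G] (U : Subgroup G) [U.Normal] [IsCyclic U] :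
    ∃ (A : Type) (_ : CommGroup A) (φ : G →* A), ∀ g, φ g = 1 ↔ ∀ w ∈ U, g * w = w * g := by
  refine ⟨(ZMod (Nat.card U))ˣ, inferInstance,
    (IsCyclic.mulAutMulEquiv U).toMonoidHom.comp MulAut.conjNormal, fun g => ?_⟩
  simp only [MulEquiv.toMonoidHom_eq_coe, MonoidHom.coe_comp, MonoidHom.coe_coe,
    Function.comp_apply, EmbeddingLike.map_eq_one_iff]
  constructor
  · intro h w hw
    have := congrArg (fun f : MulAut U => (f ⟨w, hw⟩ : G)) h
    simp only [MulAut.conjNormal_apply, MulAut.one_apply] at this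
    exact mul_inv_eq_iff_eq_mul.1 this
  · intro h
    ext w
    simp only [MulAut.conjNormal_apply, MulAut.one_apply]
    exact mul_inv_eq_iff_eq_mul.2 (h w w.2)

variable {a b c : G}

theorem WM.eq_top (h : WM a b c) {H : Subgroup G} (ha : a ∈ H) (hb : b ∈ H) (hc : c ∈ H) :
    H = ⊤ := by
  rw [eq_top_iff, ← h.gen, closure_le]
  rintro x (rfl | rfl | rfl) <;> assumption

theorem WM.eq_top' (h : WM a b c) {H : Subgroup G} (hx : a * b ∈ H) (hy : b * c ∈ H) :
    H = ⊤ := by
  rw [eq_top_iff, ← h.non]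
  exact dih_le hx hy

theorem inv_mul_inv {s t : G} (hs : s * s = 1) (ht : t * t = 1) : (s * t)⁻¹ = t * s := by
  rw [mul_inv_rev, inv_eq_self hs, inv_eq_self ht]

theorem WM.dual (h : WM a b c) : WM c b a where
  a2 := h.c2
  b2 := h.b2
  c2 := h.a2
  ac := h.ac.symm
  gen := h.eq_top (subset_closure (by simp)) (subset_closure (by simp)) (subset_closure (by simp))
  non := h.eq_top' (by rw [← inv_mem_iff, inv_mul_inv h.a2 h.b2]; exact r_mem_dih)
    (by rw [← inv_mem_iff, inv_mul_inv h.b2 h.c2]; exact l_mem_dih)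

theorem NM.dual (h : NM a b c) : NM c b a := ⟨h.toWM.dual, h.c1, h.b1, h.a1⟩

theorem WM.LL_dual (h : WM a b c) : LL c b a = LL a b c := by
  rw [LL, LL, ord_dual h.b2 h.c2, ord_dual h.a2 h.b2, Nat.lcm_comm]

theorem WM.map (h : WM a b c) {H : Type} [Group H] (f : G →* H) (hf : Function.Surjective f) :
    WM (f a) (f b) (f c) where
  a2 := by rw [← map_mul, h.a2, map_one]
  b2 := by rw [← map_mul, h.b2, map_one]
  c2 := by rw [← map_mul, h.c2, map_one]
  ac := by rw [← map_mul, h.ac, map_mul]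
  gen := by
    have := congrArg (Subgroup.map f) h.gen
    rwa [MonoidHom.map_closure, Set.image_insert_eq, Set.image_pair, map_top_of_surjective f hf]
      at this
  non := by
    have := congrArg (Subgroup.map f) h.non
    rwa [MonoidHom.map_closure, Set.image_pair, map_top_of_surjective f hf, map_mul, map_mul]
      at this

theorem WM.quot (h : WM a b c) (N : Subgroup G) [N.Normal] :
    WM (QuotientGroup.mk' N a) (QuotientGroup.mk' N b) (QuotientGroup.mk' N c) :=
  h.map _ (QuotientGroup.mk'_surjective N)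

theorem WM.normal [Finite G] (h : WM a b c) {B : Subgroup G} (ha : ∀ w ∈ B, a * w * a ∈ B)
    (hb : ∀ w ∈ B, b * w * b ∈ B) (hc : ∀ w ∈ B, c * w * c ∈ B) : B.Normal := by
  refine normal_of_gen h.gen ?_
  rintro s (rfl | rfl | rfl)
  · rwa [inv_eq_self h.a2]
  · rwa [inv_eq_self h.b2]
  · rwa [inv_eq_self h.c2]

theorem WM.central (h : WM a b c) {w : G} (hx : a * b * w = w * (a * b))
    (hy : b * c * w = w * (b * c)) (g : G) : g * w = w * g := by
  have : centralizer {w} = ⊤ := h.eq_top' (mem_centralizer_singleton_iff.2 hx)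
    (mem_centralizer_singleton_iff.2 hy)
  exact mem_centralizer_singleton_iff.1 (this ▸ mem_top g)

theorem WM.sq_of_inv (h : WM a b c) {w : G} (hx : a * b * w = w * (a * b))
    (hy : b * c * w = w * (b * c)) (hb : b * w * b = w⁻¹) : w * w = 1 := by
  rw [h.central hx hy b, mul_assoc, h.b2, mul_one] at hb
  exact mul_eq_one_iff_eq_inv.2 hb

theorem WM.inter_sq (h : WM a b c) {w : G} (hx : w ∈ zpowers (a * b)) (hy : w ∈ closure {b, c}) :
    w * w = 1 := by
  rcases (dih_mem h.b2 h.c2).1 hy with h1 | h1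
  · exact h.sq_of_inv (cyc_comm (mem_zpowers _) hx) (cyc_comm (mem_zpowers _) h1)
      (dih_inv_r h.a2 h.b2 hx)
  · exact refl_sq h.b2 h.c2 h1

theorem WM.c_comm (h : WM a b c) {U : Subgroup G} [hU : U.Normal] (hX : U ≤ zpowers (a * b))
    (ho : ∀ w ∈ U, Odd (orderOf w)) {w : G} (hw : w ∈ U) : c * w = w * c := by
  have h1 : c * w * c ∈ U := by
    have := hU.conj_mem w hw c
    rwa [inv_eq_self h.c2] at this
  have hv : w⁻¹ * (c * w * c) ∈ U := mul_mem (inv_mem hw) h1
  set v := w⁻¹ * (c * w * c) with hv'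
  have e1 : c * v * c = v⁻¹ := by
    simp only [hv', mul_inv_rev, inv_eq_self h.c2, inv_inv, mul_assoc, h.c2, mul_one]
  have e2 := dih_inv_r h.a2 h.b2 (hX hv)
  have e3 : b * c * v = v * (b * c) := by
    have e4 : c * v = v⁻¹ * c := by rw [← e1, mul_assoc, h.c2, mul_one]
    have e5 : b * v⁻¹ = v * b := by rw [← e2, ← mul_assoc, mul_cancel_inv h.b2]
    rw [mul_assoc, e4, ← mul_assoc, e5, mul_assoc]
  have e6 := eq_one_of_odd (ho v hv) (h.sq_of_inv (cyc_comm (mem_zpowers _) (hX hv)) e3 e2)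
  rw [hv', inv_mul_eq_one] at e6
  calc c * w = c * w * c * c := by rw [mul_assoc, h.c2, mul_one]
    _ = w * c := by rw [← e6]

theorem WM.sq_comm [Finite G] (h : WM a b c) (U : Subgroup G) [U.Normal] [IsCyclic U] (g : G) :
    ∀ w ∈ U, g * g * w = w * (g * g) := by
  obtain ⟨A, _, φ, hφ⟩ := cyc_hom U
  have k : ∀ s : G, s * s = 1 → s ∈ ((powMonoidHom 2).comp φ).ker := fun s hs => by
    simp only [MonoidHom.mem_ker, MonoidHom.coe_comp, Function.comp_apply, powMonoidHom_apply]
    rw [sq, ← map_mul, hs, map_one]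
  have h1 : g ∈ ((powMonoidHom 2).comp φ).ker :=
    h.eq_top (k a h.a2) (k b h.b2) (k c h.c2) ▸ mem_top g
  simp only [MonoidHom.mem_ker, MonoidHom.coe_comp, Function.comp_apply, powMonoidHom_apply] at h1
  rw [sq, ← map_mul] at h1
  exact (hφ _).1 h1

theorem WM.odd_comm [Finite G] (h : WM a b c) (U : Subgroup G) [U.Normal] [IsCyclic U] {g : G}
    (hg : Odd (orderOf g)) {w : G} (hw : w ∈ U) : g * w = w * g :=
  mem_centralizer_singleton_iff.1
    (mem_of_sq_mem (mem_centralizer_singleton_iff.2 (h.sq_comm U g w hw)) hg)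

/-- a power of odd exponent that centralises a cyclic normal subgroup -/
theorem WM.odd_pow_comm [Finite G] (h : WM a b c) (U : Subgroup G) [U.Normal] [IsCyclic U] {g : G}
    {k : ℕ} (hk : Odd k) {w : G} (hw : w ∈ U) (hg : g ^ k * w = w * g ^ k) : g * w = w * g := by
  obtain ⟨i, rfl⟩ := hk
  have h1 : (g * g) ^ i ∈ centralizer {w} :=
    pow_mem (mem_centralizer_singleton_iff.2 (h.sq_comm U g w hw)) i
  have h2 : g ^ (2 * i + 1) ∈ centralizer {w} := mem_centralizer_singleton_iff.2 hg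
  rw [pow_succ, pow_mul, sq] at h2
  exact mem_centralizer_singleton_iff.1 ((mul_mem_cancel_left h1).1 h2)

theorem NM.b_notMem_X (h : NM a b c) : b ∉ zpowers (a * b) := r_notMem h.a2 h.b2 h.a1 h.b1

theorem NM.c_notMem_Y (h : NM a b c) : c ∉ zpowers (b * c) := r_notMem h.b2 h.c2 h.b1 h.c1

theorem NM.b_notMem_Y (h : NM a b c) : b ∉ zpowers (b * c) :=
  zp_dual h.b2 h.c2 ▸ h.dual.b_notMem_X

theorem NM.a_notMem_X (h : NM a b c) : a ∉ zpowers (a * b) :=
  zp_dual h.a2 h.b2 ▸ h.dual.c_notMem_Y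

theorem NM.card_DX (h : NM a b c) :
    Nat.card (closure {a, b} : Subgroup G) = 2 * orderOf (a * b) :=
  card_dih h.a2 h.b2 h.b_notMem_X

theorem NM.card_DY (h : NM a b c) :
    Nat.card (closure {b, c} : Subgroup G) = 2 * orderOf (b * c) :=
  card_dih h.b2 h.c2 h.c_notMem_Y

theorem NM.a_ne_c (h : NM a b c) : a ≠ c := by
  rintro rfl
  apply h.b_notMem_X
  rw [h.eq_top' (H := zpowers (a * b)) (mem_zpowers _) (zp_dual h.a2 h.b2 ▸ mem_zpowers _)]
  exact mem_top _

theorem NM.x_ne_one (h : NM a b c) : a * b ≠ 1 := by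
  intro h1
  apply h.b_notMem_Y
  rw [h.eq_top' (H := zpowers (b * c)) (h1 ▸ one_mem _) (mem_zpowers _)]
  exact mem_top _

theorem NM.y_ne_one (h : NM a b c) : b * c ≠ 1 := fun h1 =>
  h.dual.x_ne_one (by rw [← inv_mul_inv h.b2 h.c2, h1, inv_one])

theorem NM.card_V (h : NM a b c) : Nat.card (closure {a, c} : Subgroup G) = 4 := by
  rw [card_dih h.a2 h.c2 (r_notMem h.a2 h.c2 h.a1 h.c1), orderOf_eq_prime (p := 2)]
  · rw [sq, mul_assoc, ← mul_assoc c, ← h.ac, mul_assoc, h.c2, mul_one, h.a2]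
  · intro h1
    exact h.a_ne_c (by rw [← inv_eq_self h.c2]; exact eq_inv_of_mul_eq_one_left h1)

theorem NM.two_L_dvd (h : NM a b c) : 2 * LL a b c ∣ Nat.card G := by
  rw [LL, ← Nat.lcm_mul_left]
  exact Nat.lcm_dvd (h.card_DX ▸ card_subgroup_dvd_card _) (h.card_DY ▸ card_subgroup_dvd_card _)

theorem LL_pos [Finite G] (a b c : G) : 0 < LL a b c := Nat.lcm_pos (orderOf_pos _) (orderOf_pos _)

theorem NM.card_cases [Finite G] (h : NM a b c) (h4 : Nat.card G ∣ 4 * LL a b c) :
    Nat.card G = 2 * LL a b c ∨ Nat.card G = 4 * LL a b c := by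
  obtain ⟨t, ht⟩ := h.two_L_dvd
  have hL := LL_pos a b c
  rw [ht, show 4 * LL a b c = 2 * LL a b c * 2 by ring] at h4
  have := Nat.dvd_of_mul_dvd_mul_left (by omega) h4
  rcases (Nat.dvd_prime Nat.prime_two).1 this with rfl | rfl
  · exact Or.inl (by omega)
  · exact Or.inr (by omega)

theorem LL_quot [Finite G] (a b c : G) (N : Subgroup G) [N.Normal] :
    LL a b c ∣ LL (QuotientGroup.mk' N a) (QuotientGroup.mk' N b) (QuotientGroup.mk' N c) *
      Nat.lcm (Nat.card (zpowers (a * b) ⊓ N : Subgroup G))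
        (Nat.card (zpowers (b * c) ⊓ N : Subgroup G)) := by
  refine Nat.lcm_dvd ?_ ?_
  · rw [← orderOf_mk N (a * b), map_mul]
    exact Nat.mul_dvd_mul (Nat.dvd_lcm_left _ _) (Nat.dvd_lcm_left _ _)
  · rw [← orderOf_mk N (b * c), map_mul]
    exact Nat.mul_dvd_mul (Nat.dvd_lcm_right _ _) (Nat.dvd_lcm_right _ _)

theorem lcm_dvd_card (a b c : G) (N : Subgroup G) :
    Nat.lcm (Nat.card (zpowers (a * b) ⊓ N : Subgroup G))
      (Nat.card (zpowers (b * c) ⊓ N : Subgroup G)) ∣ Nat.card N :=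
  Nat.lcm_dvd (card_dvd_of_le inf_le_right) (card_dvd_of_le inf_le_right)

theorem quot_dvd [Finite G] {k : ℕ} (hk : Nat.card G ∣ k * LL a b c) (N : Subgroup G) [N.Normal] :
    Nat.card (G ⧸ N) ∣
      k * LL (QuotientGroup.mk' N a) (QuotientGroup.mk' N b) (QuotientGroup.mk' N c) := by
  have h1 := (LL_quot a b c N).trans (Nat.mul_dvd_mul_left _ (lcm_dvd_card a b c N))
  have h2 := hk.trans (Nat.mul_dvd_mul_left k h1)
  rw [← card_quot N, ← mul_assoc] at h2
  exact Nat.dvd_of_mul_dvd_mul_right Nat.card_pos h2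

/-! ### Sylow subgroups of odd order -/

theorem sylow_in [Finite G] {r : ℕ} [hr : Fact r.Prime] {w : G}
    (h : r ^ (Nat.card G).factorization r ∣ orderOf w) : ∃ S : Sylow r G, ↑S ≤ zpowers w := by
  obtain ⟨u, hu, ho⟩ := exists_prime_pow h
  exact ⟨Sylow.ofCard (zpowers u) (by rw [Nat.card_zpowers, ho]), zpowers_le_of_mem hu⟩

theorem pow_dvd_lcm {r k m n : ℕ} (hr : r.Prime) (hm : m ≠ 0) (hn : n ≠ 0)
    (h : r ^ k ∣ Nat.lcm m n) : r ^ k ∣ m ∨ r ^ k ∣ n := by
  rw [hr.pow_dvd_iff_le_factorization (Nat.lcm_ne_zero hm hn), Nat.factorization_lcm hm hn,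
    Finsupp.sup_apply, le_sup_iff] at h
  rwa [hr.pow_dvd_iff_le_factorization hm, hr.pow_dvd_iff_le_factorization hn]

theorem sylow_cov [Finite G] (h8 : Nat.card G ∣ 8 * LL a b c) {r : ℕ} [hr : Fact r.Prime]
    (h2 : r ≠ 2) : ∃ S : Sylow r G, ↑S ≤ zpowers (a * b) ∨ ↑S ≤ zpowers (b * c) := by
  have h1 := (Nat.ordProj_dvd (Nat.card G) r).trans h8
  have h3 : (r ^ (Nat.card G).factorization r).Coprime 8 :=
    Nat.Coprime.pow _ 3 ((Nat.coprime_primes hr.out Nat.prime_two).2 h2)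
  rcases pow_dvd_lcm hr.out (orderOf_pos _).ne' (orderOf_pos _).ne' (h3.dvd_of_dvd_mul_left h1)
    with h | h
  · obtain ⟨S, hS⟩ := sylow_in h
    exact ⟨S, Or.inl hS⟩
  · obtain ⟨S, hS⟩ := sylow_in h
    exact ⟨S, Or.inr hS⟩

theorem conj_into [Finite G] {r : ℕ} [Fact r.Prime] (S : Sylow r G) {P : Subgroup G}
    (hP : IsPGroup r P) : ∃ g : G, ∀ w ∈ P, g * w * g⁻¹ ∈ S := by
  obtain ⟨Q, hQ⟩ := hP.exists_le_sylow
  obtain ⟨g, rfl⟩ := MulAction.exists_smul_eq G Q S
  refine ⟨g, fun w hw => ?_⟩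
  change _ ∈ ((g • Q : Sylow r G) : Subgroup G)
  rw [Sylow.coe_subgroup_smul]
  exact smul_mem_pointwise_smul w (MulAut.conj g) _ (hQ hw)

theorem isCyclic_of_conj {P Z : Subgroup G} [IsCyclic Z] {g : G} (h : ∀ w ∈ P, g * w * g⁻¹ ∈ Z) :
    IsCyclic P :=
  isCyclic_of_injective (((MulAut.conj g).toMonoidHom.comp P.subtype).codRestrict Z
    fun w => h w w.2) fun _ _ huw => Subtype.ext ((MulAut.conj g).injective (congrArg Subtype.val huw))

/-- subgroups of odd prime power order are cyclic -/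
def OC (G : Type) [Group G] : Prop :=
  ∀ r : ℕ, r.Prime → r ≠ 2 → ∀ P : Subgroup G, IsPGroup r P → IsCyclic P

theorem oc_of [Finite G] (h8 : Nat.card G ∣ 8 * LL a b c) : OC G := by
  intro r hr h2 P hP
  have := Fact.mk hr
  obtain ⟨S, hS⟩ := sylow_cov h8 h2
  obtain ⟨g, hg⟩ := conj_into S hP
  rcases hS with hS | hS
  · exact isCyclic_of_conj fun w hw => hS (hg w hw)
  · exact isCyclic_of_conj fun w hw => hS (hg w hw)

theorem normal_le [Finite G] (h8 : Nat.card G ∣ 8 * LL a b c) {r : ℕ} (hr : r.Prime) (h2 : r ≠ 2)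
    {P : Subgroup G} [P.Normal] (hP : IsPGroup r P) :
    P ≤ zpowers (a * b) ∨ P ≤ zpowers (b * c) := by
  have := Fact.mk hr
  obtain ⟨S, hS⟩ := sylow_cov h8 h2
  exact hS.imp (hP.le_sylow_of_normal S).trans (hP.le_sylow_of_normal S).trans

theorem isP_zp [Finite G] {r k : ℕ} {u : G} (h : orderOf u ∣ r ^ k) : IsPGroup r (zpowers u) :=
  IsPGroup.of_card_dvd_pow (by rwa [Nat.card_zpowers])

theorem isP_iff {r : ℕ} {P : Subgroup G} : IsPGroup r P ↔ ∀ w ∈ P, ∃ k, w ^ r ^ k = 1 :=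
  ⟨fun h w hw => (h ⟨w, hw⟩).imp fun _ hk => congrArg Subtype.val hk,
    fun h w => (h w w.2).imp fun _ hk => Subtype.ext hk⟩

end Pool.Agent.MP_912f41_co

end MrgPart1

-- ======== part 2: formerly Pool.Agent.MP_912f41_co.DC
section MrgPart2

/-! Counting with double cosets. -/

set_option autoImplicit false

namespace Pool.Agent.MP_912f41_co

open Subgroup

variable {G : Type} [Group G]

/-- the conjugate `g H g⁻¹` -/
def cj (H : Subgroup G) (g : G) : Subgroup G := H.comap (MulAut.conj g⁻¹).toMonoidHom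

theorem mem_cj {H : Subgroup G} {g w : G} : w ∈ cj H g ↔ g⁻¹ * w * g ∈ H := by
  simp [cj, mem_comap]

theorem cj_one (H : Subgroup G) : cj H 1 = H := by ext w; simp [mem_cj]

theorem card_cj (H : Subgroup G) (g : G) : Nat.card (cj H g) = Nat.card H :=
  Nat.card_congr
    { toFun := fun w => ⟨g⁻¹ * w * g, mem_cj.1 w.2⟩
      invFun := fun w => ⟨g * w * g⁻¹, mem_cj.2 (by simp [mul_assoc])⟩
      left_inv := fun w => Subtype.ext (by simp [mul_assoc])
      right_inv := fun w => Subtype.ext (by simp [mul_assoc]) }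

theorem cj_mono {H K : Subgroup G} (h : H ≤ K) (g : G) : cj H g ≤ cj K g :=
  fun _ hw => mem_cj.2 (h (mem_cj.1 hw))

theorem mem_core {H : Subgroup G} {w : G} (h : ∀ g, w ∈ cj H g) : w ∈ H.normalCore := fun g => by
  simpa using mem_cj.1 (h g⁻¹)

theorem smul_mk {D H : Subgroup G} (d : D) (g : G) :
    d • (g : G ⧸ H) = ((d * g : G) : G ⧸ H) := rfl

theorem stab_eq (D H : Subgroup G) (g : G) :
    MulAction.stabilizer D (g : G ⧸ H) = (cj H g).subgroupOf D := by
  ext d
  rw [MulAction.mem_stabilizer_iff, mem_subgroupOf, mem_cj, smul_mk, eq_comm, QuotientGroup.eq,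
    mul_assoc]

theorem ob_eq (D H : Subgroup G) (g : G) :
    (cj H g).relIndex D = (MulAction.orbit D (g : G ⧸ H)).ncard := by
  rw [relIndex, ← stab_eq, MulAction.index_stabilizer]

theorem mem_orb {D H : Subgroup G} {g k : G} :
    (k : G ⧸ H) ∈ MulAction.orbit D (g : G ⧸ H) ↔ ∃ d ∈ D, g⁻¹ * d⁻¹ * k ∈ H := by
  constructor
  · rintro ⟨d, hd⟩
    refine ⟨d, d.2, ?_⟩
    simp only [smul_mk, QuotientGroup.eq, mul_inv_rev] at hd
    exact hd
  · rintro ⟨d, hd, h⟩
    refine ⟨⟨d, hd⟩, ?_⟩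
    simp only [smul_mk, QuotientGroup.eq, mul_inv_rev]
    exact h

theorem ob_pos [Finite G] (D K : Subgroup G) : 0 < K.relIndex D :=
  Nat.pos_of_ne_zero (index_ne_zero_of_finite (H := K.subgroupOf D))

theorem ob_le [Finite G] (D H : Subgroup G) (g : G) : (cj H g).relIndex D ≤ H.index := by
  rw [ob_eq, index, ← Set.ncard_univ]
  exact Set.ncard_le_ncard (Set.subset_univ _)

theorem ob_add [Finite G] {D H : Subgroup G} {g : G} (h : ¬ ∃ d ∈ D, d⁻¹ * g ∈ H) :
    H.relIndex D + (cj H g).relIndex D ≤ H.index := by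
  have e : H.relIndex D = (cj H 1).relIndex D := by rw [cj_one]
  rw [e, ob_eq, ob_eq, index, ← Set.ncard_univ, ← Set.ncard_union_eq]
  · exact Set.ncard_le_ncard (Set.subset_univ _)
  · rcases MulAction.orbit.eq_or_disjoint (G := D) ((1 : G) : G ⧸ H) (g : G ⧸ H) with h1 | h1
    · exfalso
      have := MulAction.mem_orbit_self (M := D) (g : G ⧸ H)
      rw [← h1, mem_orb] at this
      exact h (by simpa using this)
    · exact h1

theorem ob_all {D H : Subgroup G} (h : ∀ g, ∃ d ∈ D, d⁻¹ * g ∈ H) : H.relIndex D = H.index := by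
  have e : H.relIndex D = (cj H 1).relIndex D := by rw [cj_one]
  rw [e, ob_eq, index, ← Set.ncard_univ]
  congr 1
  refine Set.eq_univ_of_forall fun q => ?_
  induction q using QuotientGroup.induction_on with
  | H g => exact mem_orb.2 (by simpa using h g)

theorem all_of_ob [Finite G] {D H : Subgroup G} (h : H.relIndex D = H.index) (g : G) :
    ∃ d ∈ D, d⁻¹ * g ∈ H := by
  by_contra h1
  have := ob_add h1
  have := ob_pos D (cj H g)
  omega

variable {a b c : G}

theorem NM.dc [Finite G] (h : NM a b c) {H : Subgroup G} (hb : b ∈ H) (hc : c ∈ H) (g : G) :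
    Nat.card (closure {a, b} ⊓ cj H g : Subgroup G) * (cj H g).relIndex (closure {a, b}) =
      2 * orderOf (a * b) ∧
    ∃ u, 0 < u ∧ (cj H g).relIndex (closure {a, b}) * Nat.card H = 2 * LL a b c * u := by
  have h1 := card_inf_mul (cj H g) (closure {a, b})
  rw [h.card_DX] at h1
  refine ⟨h1, ?_⟩
  have h2 : 2 * LL a b c ∣ (cj H g).relIndex (closure {a, b}) * Nat.card H := by
    rw [LL, ← Nat.lcm_mul_left]
    refine Nat.lcm_dvd ?_ (Dvd.dvd.mul_left ?_ _)
    · rw [← h1, mul_comm, ← card_cj H g]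
      exact Nat.mul_dvd_mul_left _ (card_dvd_of_le inf_le_right)
    · rw [← h.card_DY]
      exact card_dvd_of_le (dih_le hb hc)
  obtain ⟨u, hu⟩ := h2
  refine ⟨u, Nat.pos_of_ne_zero ?_, hu⟩
  rintro rfl
  have := Nat.mul_pos (ob_pos (closure {a, b}) (cj H g)) (Nat.card_pos (α := H))
  omega

theorem inf_inf_X (K : Subgroup G) :
    (closure {a, b} ⊓ K) ⊓ zpowers (a * b) = zpowers (a * b) ⊓ K := by
  rw [inf_comm, ← inf_assoc, inf_eq_left.2 zp_le_dih]

theorem NM.kappa_one (h : NM a b c) {H : Subgroup G} (hb : b ∈ H) :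
    Nat.card (closure {a, b} ⊓ H : Subgroup G) =
      2 * Nat.card (zpowers (a * b) ⊓ H : Subgroup G) := by
  rw [card_sub_dih' h.a2 h.b2 inf_le_left ⟨r_mem_dih, hb⟩ h.b_notMem_X, inf_inf_X]

theorem WM.kappa (h : WM a b c) (K : Subgroup G) :
    Nat.card (closure {a, b} ⊓ K : Subgroup G) = Nat.card (zpowers (a * b) ⊓ K : Subgroup G) ∨
    Nat.card (closure {a, b} ⊓ K : Subgroup G) =
      2 * Nat.card (zpowers (a * b) ⊓ K : Subgroup G) := by
  have := card_sub_dih h.a2 h.b2 (K := closure {a, b} ⊓ K) inf_le_left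
  rwa [inf_inf_X] at this

theorem WM.le_cj_of (h : WM a b c) {H : Subgroup G} {g d : G} (hd : d ∈ closure {a, b})
    (hg : d⁻¹ * g ∈ H) : zpowers (a * b) ⊓ H ≤ cj H g := by
  intro w hw
  have h1 := dih_conj_mem h.a2 h.b2 (inv_mem hd) (B := zpowers (a * b) ⊓ H) inf_le_left hw
  have h2 := mul_mem (mul_mem (inv_mem hg) h1.2) hg
  rw [mem_cj]
  simpa [mul_assoc] using h2

/-- the intersection with the face rotation group lies in the core -/
theorem NM.dc2 [Finite G] (h : NM a b c) (h4 : Nat.card G ∣ 4 * LL a b c) {H : Subgroup G}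
    (hb : b ∈ H) (hc : c ∈ H) : zpowers (a * b) ⊓ H ≤ H.normalCore := by
  intro w hw
  refine mem_core fun g => ?_
  by_cases hg : ∃ d ∈ closure {a, b}, d⁻¹ * g ∈ H
  · obtain ⟨d, hd, hg⟩ := hg
    exact h.le_cj_of hd hg hw
  · have h1 := Nat.mul_le_mul_right (Nat.card H) (ob_add hg)
    obtain ⟨k1, u1, p1, e1⟩ := h.dc hb hc 1
    obtain ⟨k2, u2, p2, e2⟩ := h.dc hb hc g
    rw [cj_one] at k1 e1
    have hL := LL_pos a b c
    rw [add_mul, e1, e2, index_mul_card] at h1
    have h2 := Nat.le_of_dvd (by omega) h4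
    have h3 : u1 + u2 ≤ 2 := by
      by_contra h5
      have : 2 * LL a b c * 3 ≤ 2 * LL a b c * (u1 + u2) := Nat.mul_le_mul_left _ (by omega)
      nlinarith
    obtain rfl : u1 = 1 := by omega
    obtain rfl : u2 = 1 := by omega
    have h5 := Nat.eq_of_mul_eq_mul_right Nat.card_pos (e1.trans e2.symm)
    rw [← h5] at k2
    have h6 := Nat.eq_of_mul_eq_mul_right (ob_pos _ _) (k1.trans k2.symm)
    rw [h.kappa_one hb] at h6
    refine (cyc_le (Z := zpowers (a * b)) (B := zpowers (a * b) ⊓ cj H g) inf_le_left inf_le_left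
      ?_ hw).2
    rcases h.kappa (cj H g) with h7 | h7
    · exact ⟨2, by omega⟩
    · exact ⟨1, by omega⟩

theorem NM.ob_mul [Finite G] (h : NM a b c) {H : Subgroup G} (hb : b ∈ H) :
    Nat.card (zpowers (a * b) ⊓ H : Subgroup G) * H.relIndex (closure {a, b}) =
      orderOf (a * b) := by
  have h1 := card_inf_mul H (closure {a, b})
  rw [h.card_DX, h.kappa_one hb] at h1
  nlinarith

theorem NM.dc2_dvd [Finite G] (h : NM a b c) (h4 : Nat.card G ∣ 4 * LL a b c) {H : Subgroup G}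
    (hb : b ∈ H) (hc : c ∈ H) :
    orderOf (a * b) ∣ Nat.card (zpowers (a * b) ⊓ H : Subgroup G) * H.index := by
  rw [← h.ob_mul hb]
  refine Nat.mul_dvd_mul_left _ ?_
  obtain ⟨-, u, p1, e1⟩ := h.dc hb hc 1
  have h1 := Nat.mul_le_mul_right (Nat.card H) (ob_le (closure {a, b}) H 1)
  rw [cj_one] at e1 h1
  have hL := LL_pos a b c
  have hH := Nat.card_pos (α := H)
  have hG := index_mul_card H
  refine Nat.dvd_of_mul_dvd_mul_right hH ?_
  rw [e1, hG] at h1 ⊢
  rcases h.card_cases h4 with h2 | h2 <;> rw [h2] at h1 ⊢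
  · obtain rfl : u = 1 := by nlinarith
    simp
  · have : u ≤ 2 := by nlinarith
    interval_cases u
    · exact ⟨2, by ring⟩
    · exact ⟨1, by ring⟩

theorem card_le_two [Finite G] {Z : Subgroup G} [IsCyclic Z] (h : ∀ w ∈ Z, w * w = 1) :
    Nat.card Z = 1 ∨ Nat.card Z = 2 := by
  obtain ⟨g, hg⟩ := IsCyclic.exists_ofOrder_eq_natCard (α := Z)
  rw [← hg, ← Nat.dvd_prime Nat.prime_two]
  exact orderOf_dvd_of_pow_eq_one (Subtype.ext (by simpa [sq] using h g g.2))

/-- `u` for the subgroup itself -/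
theorem NM.gf [Finite G] (h : NM a b c) {H : Subgroup G} (hb : b ∈ H) (hc : c ∈ H) {t f : ℕ}
    (ht : Nat.card G = 2 * LL a b c * t) (hf : Nat.card H = 2 * orderOf (b * c) * f) (g : G) :
    ∃ u, 0 < u ∧ u ≤ t ∧ Nat.card (closure {a, b} ⊓ cj H g : Subgroup G) * u =
      2 * (Nat.gcd (orderOf (a * b)) (orderOf (b * c)) * f) ∧
      (u = t → (cj H g).relIndex (closure {a, b}) = H.index) := by
  obtain ⟨k, u, p, e⟩ := h.dc hb hc g
  have hL := LL_pos a b c
  have h1 := Nat.mul_le_mul_right (Nat.card H) (ob_le (closure {a, b}) H g)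
  have hG := index_mul_card H
  rw [hG, e, ht] at h1
  refine ⟨u, p, Nat.le_of_mul_le_mul_left h1 (by omega), ?_, ?_⟩
  · have h2 := Nat.gcd_mul_lcm (orderOf (a * b)) (orderOf (b * c))
    refine Nat.eq_of_mul_eq_mul_left (show 0 < 2 * LL a b c by omega) ?_
    calc _ = Nat.card (closure {a, b} ⊓ cj H g : Subgroup G) * (2 * LL a b c * u) := by ring
      _ = 2 * orderOf (a * b) * (2 * orderOf (b * c) * f) := by rw [← e, ← mul_assoc, k, hf]
      _ = 4 * (orderOf (a * b) * orderOf (b * c)) * f := by ring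
      _ = _ := by rw [← h2]; ring
  · rintro rfl
    exact Nat.eq_of_mul_eq_mul_right Nat.card_pos (e.trans (ht.symm.trans hG.symm))

theorem NM.gcd_eq [Finite G] (h : NM a b c) {t : ℕ} (ht : Nat.card G = 2 * LL a b c * t) :
    ∃ u, 0 < u ∧ u ≤ t ∧ (Nat.gcd (orderOf (a * b)) (orderOf (b * c)) = u ∨
      (Nat.gcd (orderOf (a * b)) (orderOf (b * c)) = 2 * u ∧ 2 ∣ orderOf (a * b))) := by
  obtain ⟨u, p, q, e, -⟩ := h.gf (H := closure {b, c}) l_mem_dih r_mem_dih (f := 1) ht
    (by rw [h.card_DY, mul_one]) 1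
  rw [cj_one, h.kappa_one l_mem_dih] at e
  have : IsCyclic (zpowers (a * b) ⊓ closure {b, c} : Subgroup G) :=
    Subgroup.isCyclic_of_le inf_le_left
  refine ⟨u, p, q, ?_⟩
  rcases card_le_two (Z := zpowers (a * b) ⊓ closure {b, c})
    (fun w hw => h.inter_sq hw.1 hw.2) with h1 | h1
  · rw [h1] at e; omega
  · refine Or.inr ⟨by rw [h1] at e; omega, ?_⟩
    rw [← h1, ← Nat.card_zpowers]
    exact card_dvd_of_le inf_le_left

end Pool.Agent.MP_912f41_co

end MrgPart2

-- ======== part 3: formerly Pool.Agent.MP_912f41_co.Comm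
section MrgPart3

/-! Commuting subgroups in groups with almost cyclic Sylow subgroups. -/

set_option autoImplicit false

namespace Pool.Agent.MP_912f41_co

open Subgroup

variable {G : Type} [Group G] {a b c : G}

/-- a Sylow 2-subgroup has a cyclic subgroup of index at most four -/
def H2 (G : Type) [Group G] : Prop := ∃ w : G, ∀ k, 2 ^ k ∣ Nat.card G → 2 ^ k ∣ 4 * orderOf w

theorem two_pow_sub {e n : ℕ} (h : 2 ^ e ∣ 4 * n) : 2 ^ (e - 2) ∣ n := by
  rcases le_total e 2 with h1 | h1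
  · rw [Nat.sub_eq_zero_of_le h1]; exact one_dvd _
  · obtain ⟨k, rfl⟩ := Nat.exists_eq_add_of_le h1
    rw [pow_add] at h
    rw [Nat.add_sub_cancel_left]
    exact Nat.dvd_of_mul_dvd_mul_left (by norm_num) h

theorem two_pow_le (e : ℕ) : 2 ^ e ∣ 4 * 2 ^ (e - 2) := by
  rw [show 4 = 2 ^ 2 by rfl, ← pow_add]
  exact pow_dvd_pow _ (by omega)

theorem h2_of [Finite G] {w : G} (h : 2 ^ ((Nat.card G).factorization 2 - 2) ∣ orderOf w) : H2 G :=
  ⟨w, fun _ hk => ((pow_dvd_pow 2 ((Nat.prime_two.pow_dvd_iff_le_factorization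
    Nat.card_pos.ne').1 hk)).trans (two_pow_le _)).trans (Nat.mul_dvd_mul_left 4 h)⟩

theorem h2_of4 [Finite G] (h4 : Nat.card G ∣ 4 * LL a b c) : H2 G := by
  rcases pow_dvd_lcm Nat.prime_two (orderOf_pos _).ne' (orderOf_pos _).ne'
    (two_pow_sub ((Nat.ordProj_dvd (Nat.card G) 2).trans h4)) with h | h
  · exact h2_of h
  · exact h2_of h

theorem h2_of8 {w : G} (hw : orderOf w = 2) {L : ℕ} (h8 : Nat.card G ∣ 8 * L) (hL : Odd L) :
    H2 G := ⟨w, fun k hk => by
  rw [hw]
  exact (Nat.Coprime.pow_left k (Nat.coprime_two_left.2 hL)).dvd_of_dvd_mul_right (hk.trans h8)⟩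

theorem H2.quot [Finite G] (h : H2 G) (N : Subgroup G) [N.Normal] : H2 (G ⧸ N) := by
  obtain ⟨w, hw⟩ := h
  refine ⟨QuotientGroup.mk' N w, fun k hk => ?_⟩
  obtain ⟨e, o, ho, he⟩ := Nat.exists_eq_two_pow_mul_odd (Nat.card_pos (α := N)).ne'
  have h1 : 2 ^ (k + e) ∣ Nat.card G := by
    rw [← card_quot N, pow_add, he]
    exact Nat.mul_dvd_mul hk (Dvd.intro _ rfl)
  have h2 := hw _ h1
  rw [← orderOf_mk N w] at h2
  have h3 := h2.trans (Nat.mul_dvd_mul_left 4 (Nat.mul_dvd_mul_left _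
    (card_dvd_of_le (inf_le_right : zpowers w ⊓ N ≤ N))))
  rw [he, pow_add, ← mul_assoc, mul_comm (2 ^ e) o, ← mul_assoc] at h3
  exact (Nat.Coprime.pow_left k (Nat.coprime_two_left.2 ho)).dvd_of_dvd_mul_right
    (Nat.dvd_of_mul_dvd_mul_right (by positivity) h3)

theorem H2.sub [Finite G] (h : H2 G) {S : Subgroup G} (hS : IsPGroup 2 S) :
    ∃ v ∈ S, Nat.card S ≤ 4 * orderOf v := by
  obtain ⟨w, hw⟩ := h
  obtain ⟨T, hT⟩ := hS.exists_le_sylow
  have hc := T.card_eq_multiplicity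
  set e := (Nat.card G).factorization 2 with he
  obtain ⟨u, -, hu⟩ := exists_prime_pow (two_pow_sub (hw e (Nat.ordProj_dvd _ _)))
  obtain ⟨g, hg⟩ := conj_into T (isP_zp (u := u) hu.dvd)
  set C := zpowers (g * u * g⁻¹) with hC
  have hCT : C ≤ T := zpowers_le_of_mem (hg u (mem_zpowers u))
  have h1 := card_inf_mul C T
  rw [inf_eq_right.2 hCT, hC, Nat.card_zpowers, orderOf_conj, hu, ← hC] at h1
  have h2 : C.relIndex T ≤ 4 := by
    have h3 := Nat.le_of_dvd (by positivity) (two_pow_le e)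
    have h4 : Nat.card (T : Subgroup G) = 2 ^ e := hc
    rw [← h4, ← h1, mul_comm] at h3
    exact Nat.le_of_mul_le_mul_right h3 (by positivity)
  have h3 := (relIndex_le_of_le_right hT (ob_pos _ C).ne').trans h2
  have : IsCyclic (S ⊓ C : Subgroup G) := Subgroup.isCyclic_of_le inf_le_right
  obtain ⟨v, hv⟩ := IsCyclic.exists_ofOrder_eq_natCard (α := (S ⊓ C : Subgroup G))
  refine ⟨v, v.2.1, ?_⟩
  rw [← card_inf_mul C S, ← hv, Subgroup.orderOf_coe, mul_comm]
  exact Nat.mul_le_mul_right _ h3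

theorem isZ_of (hoc : OC G) {A : Subgroup G} (h : ∀ P ≤ A, IsPGroup 2 P → IsCyclic P) :
    IsZGroup A := by
  refine ⟨fun p hp P => ?_⟩
  have h1 : IsPGroup p ((P : Subgroup A).map A.subtype) := P.2.map _
  have h2 : IsCyclic ((P : Subgroup A).map A.subtype) := by
    by_cases h2 : p = 2
    · subst h2
      exact h _ (map_subtype_le _) h1
    · exact hoc p hp h2 _ h1
  exact isCyclic_of_surjective _ (equivMapOfInjective _ _ A.subtype_injective).symm.surjective

theorem noncyc {P : Type} [Group P] [Finite P] (hP : IsPGroup 2 P) (h : ¬ IsCyclic P) :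
    4 ≤ Nat.card P ∧ ∀ p : P, ∃ i, orderOf p = 2 ^ i ∧ 2 * 2 ^ i ≤ Nat.card P := by
  obtain ⟨k, hk⟩ := hP.exists_card_eq
  constructor
  · rw [hk]
    refine Nat.pow_le_pow_right (n := 2) (i := 2) (by norm_num) ?_
    by_contra h1
    exact h (isCyclic_of_card_dvd_prime (p := 2) (hk ▸ pow_dvd_pow 2 (show k ≤ 1 by omega)))
  · intro p
    obtain ⟨i, hi, e⟩ := (Nat.dvd_prime_pow Nat.prime_two).1 (hk ▸ orderOf_dvd_natCard p)
    refine ⟨i, e, ?_⟩
    rw [hk, ← pow_succ']
    refine Nat.pow_le_pow_right (by norm_num) (lt_of_le_of_ne hi ?_)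
    rintro rfl
    exact h (isCyclic_of_orderOf_eq_card p (e.trans hk.symm))

theorem l2 [Finite G] (hoc : OC G) (h2 : H2 G) {A B : Subgroup G} (hd : A ⊓ B = ⊥)
    (hc : ∀ u ∈ A, ∀ w ∈ B, u * w = w * u) : IsZGroup A ∨ IsZGroup B := by
  by_contra h
  rw [not_or] at h
  have hA := mt (isZ_of hoc) h.1
  have hB := mt (isZ_of hoc) h.2
  push Not at hA hB
  obtain ⟨P, hP, p2, pc⟩ := hA
  obtain ⟨Q, hQ, q2, qc⟩ := hB
  set f := MonoidHom.noncommCoprod P.subtype Q.subtype fun u w => hc u (hP u.2) w (hQ w.2)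
  have inj : Function.Injective f := by
    rw [MonoidHom.noncommCoprod_injective, range_subtype, range_subtype]
    exact ⟨P.subtype_injective, Q.subtype_injective, (disjoint_iff.2 hd).mono hP hQ⟩
  obtain ⟨k1, e1⟩ := p2.exists_card_eq
  obtain ⟨k2, e2⟩ := q2.exists_card_eq
  have hc : Nat.card f.range = Nat.card P * Nat.card Q := by
    rw [← Nat.card_prod]
    exact (Nat.card_congr (MonoidHom.ofInjective inj).toEquiv).symm
  obtain ⟨v, ⟨⟨p, q⟩, rfl⟩, hv⟩ := h2.sub (S := f.range)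
    (IsPGroup.of_card (n := k1 + k2) (by rw [hc, e1, e2, pow_add]))
  obtain ⟨c1, d1⟩ := noncyc p2 pc
  obtain ⟨c2, d2⟩ := noncyc q2 qc
  obtain ⟨i, hi, hi'⟩ := d1 p
  obtain ⟨j, hj, hj'⟩ := d2 q
  rw [hc, orderOf_injective f inj, Prod.orderOf_mk, hi, hj] at hv
  rcases le_total i j with h1 | h1
  · rw [Nat.lcm_eq_right (pow_dvd_pow 2 h1)] at hv
    nlinarith
  · rw [Nat.lcm_eq_left (pow_dvd_pow 2 h1)] at hv
    nlinarith

theorem comm_Z [Finite G] (h8 : Nat.card G ∣ 8 * LL a b c) (h2 : H2 G) (A B : Subgroup G)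
    [A.Normal] [B.Normal] (hc : ∀ u ∈ A, ∀ w ∈ B, u * w = w * u) :
    IsZGroup (A.map (QuotientGroup.mk' (A ⊓ B))) ∨ IsZGroup (B.map (QuotientGroup.mk' (A ⊓ B))) := by
  refine l2 (oc_of (quot_dvd h8 _)) (h2.quot _) ?_ ?_
  · rw [eq_bot_iff]
    rintro _ ⟨⟨u, hu, rfl⟩, w, hw, e⟩
    have h1 : w⁻¹ * u ∈ A ⊓ B := QuotientGroup.eq.1 e
    exact (QuotientGroup.eq_one_iff u).2 ⟨hu, (mul_mem_cancel_left (inv_mem hw)).1 h1.2⟩
  · rintro _ ⟨u, hu, rfl⟩ _ ⟨w, hw, rfl⟩
    rw [← map_mul, ← map_mul, hc u hu w hw]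

/-- the elements of an abelian subgroup killed by an exponent -/
def tors (N : Subgroup G) (hN : ∀ u ∈ N, ∀ w ∈ N, u * w = w * u) (k : ℕ) : Subgroup G where
  carrier := {w | w ∈ N ∧ w ^ k = 1}
  mul_mem' := fun {u w} hu hw => ⟨mul_mem hu.1 hw.1, by
    rw [Commute.mul_pow (hN u hu.1 w hw.1), hu.2, hw.2, one_mul]⟩
  one_mem' := ⟨one_mem _, one_pow k⟩
  inv_mem' := fun {u} hu => ⟨inv_mem hu.1, by rw [inv_pow, hu.2, inv_one]⟩

instance tors_normal (N : Subgroup G) [hn : N.Normal] (hN : ∀ u ∈ N, ∀ w ∈ N, u * w = w * u)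
    (k : ℕ) : (tors N hN k).Normal :=
  ⟨fun w hw g => ⟨hn.conj_mem w hw.1 g, by rw [conj_pow, hw.2]; simp⟩⟩

theorem comm_of_cyc {E H : Type} [Group E] [Group H] [IsCyclic H] (f : E →* H)
    (h : ∀ z, f z = 1 → ∀ w, w * z = z * w) (u w : E) : u * w = w * u :=
  (f.isMulCommutative_of_isCyclic_of_ker_le_center
    fun z hz => mem_center_iff.2 (h z hz)).is_comm.comm u w

theorem cyc_of_comm {E : Type} [Group E] [Finite E] [IsZGroup E] (h : ∀ u w : E, u * w = w * u) :
    IsCyclic E :=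
  let _ : CommGroup E := ⟨h⟩
  inferInstance

theorem cyc_der (E : Subgroup G) [Finite G] [IsZGroup E] :
    IsCyclic ((_root_.commutator E).map E.subtype) :=
  have := IsZGroup.isCyclic_commutator E
  isCyclic_of_surjective _ (equivMapOfInjective _ _ E.subtype_injective).surjective

theorem cyc_of_der (E : Subgroup G) [Finite G] [IsZGroup E]
    (h : ∀ z ∈ (_root_.commutator E).map E.subtype, ∀ w ∈ E, w * z = z * w) : IsCyclic E :=
  cyc_of_comm (comm_of_cyc Abelianization.of fun z hz w => Subtype.ext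
    (h z (mem_map_of_mem _ (Abelianization.ker_of E ▸ hz)) w w.2))

theorem cyc_of_Z [Finite G] {u s : G} (hu : Odd (orderOf u)) (hs : s * u * s⁻¹ = u⁻¹)
    [IsZGroup (normalClosure {u})] : IsCyclic (normalClosure {u}) := by
  have := cyc_der (normalClosure {u})
  obtain ⟨A, _, φ, hφ⟩ := cyc_hom ((_root_.commutator (normalClosure {u})).map
    (normalClosure {u}).subtype)
  have h1 : u ∈ φ.ker := by
    refine mem_of_sq_mem ?_ hu
    have := congrArg φ hs
    rw [map_mul, map_mul, map_inv, map_inv, mul_right_comm, mul_inv_cancel, one_mul] at this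
    rw [MonoidHom.mem_ker, map_mul]
    exact mul_eq_one_iff_eq_inv.2 this
  have h2 : normalClosure {u} ≤ φ.ker := normalClosure_le_normal (by simpa using h1)
  exact cyc_of_der _ fun z hz w hw => (hφ w).1 (h2 hw) z hz

theorem mem_ncl (u : G) : u ∈ normalClosure {u} := subset_normalClosure rfl

theorem conj_mem_ncl (u g : G) : g * u * g⁻¹ ∈ normalClosure {u} :=
  normalClosure_normal.conj_mem u (mem_ncl u) g

theorem normal_of_comm [Finite G] (hoc : OC G) {u : G} {r : ℕ} (hr : r.Prime) (h2 : r ≠ 2)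
    (hu : orderOf u = r) (h : ∀ v ∈ normalClosure {u}, ∀ w ∈ normalClosure {u}, v * w = w * v) :
    (zpowers u).Normal := by
  have h1 : normalClosure {u} ≤ tors _ h r :=
    normalClosure_le_normal (by simpa using ⟨mem_ncl u, hu ▸ pow_orderOf_eq_one u⟩)
  have := hoc r hr h2 (normalClosure {u}) (isP_iff.2 fun w hw => ⟨1, by simpa using (h1 hw).2⟩)
  exact cyc_normal (Z := normalClosure {u}) (zpowers_le_of_mem (mem_ncl u))

theorem normal_of_Z [Finite G] (hoc : OC G) {u s : G} {r : ℕ} (hr : r.Prime) (h2 : r ≠ 2)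
    (hu : orderOf u = r) (hs : s * u * s⁻¹ = u⁻¹) (Z : Subgroup G) [Z.Normal]
    (hZ : ∀ z ∈ Z, ∀ w ∈ normalClosure {u}, w * z = z * w)
    (h : IsZGroup ((normalClosure {u}).map (QuotientGroup.mk' Z))) : (zpowers u).Normal := by
  have e : (normalClosure {u}).map (QuotientGroup.mk' Z) =
      normalClosure {QuotientGroup.mk' Z u} := by
    rw [map_normalClosure _ _ (QuotientGroup.mk'_surjective Z), Set.image_singleton]
  have h1 : IsCyclic ((normalClosure {u}).map (QuotientGroup.mk' Z)) := by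
    rw [e] at h ⊢
    refine cyc_of_Z (s := QuotientGroup.mk' Z s) ?_ (by rw [← map_inv, ← map_mul, ← map_mul, hs,
      map_inv])
    exact Odd.of_dvd_nat (hu ▸ hr.odd_of_ne_two h2) (orderOf_map_dvd _ u)
  refine normal_of_comm hoc hr h2 hu fun v hv w hw => congrArg Subtype.val
    (comm_of_cyc ((QuotientGroup.mk' Z).subgroupMap (normalClosure {u})) (fun z hz w => ?_)
      ⟨v, hv⟩ ⟨w, hw⟩)
  exact Subtype.ext (hZ z ((QuotientGroup.eq_one_iff _).1 (congrArg Subtype.val hz)) w w.2)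

theorem NoAb.cyc (h : NoAb G) (M : Subgroup G) [hM : M.Normal] [IsCyclic M] : M = ⊥ :=
  h M hM fun _ hu _ hw => cyc_comm hu hw

theorem NoAb.z_bot [Finite G] (h : NoAb G) (M : Subgroup G) [M.Normal] [IsZGroup M] : M = ⊥ := by
  have := cyc_der M
  have h1 := h.cyc ((_root_.commutator M).map M.subtype)
  have := cyc_of_der M fun z hz w _ => by rw [h1, mem_bot] at hz; simp [hz]
  exact h.cyc M

theorem NoAb.cent [Finite G] (h : NoAb G) (hoc : OC G) (h2 : H2 G) {M : Subgroup G} [M.Normal]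
    (hM : M ≠ ⊥) {u : G} (hu : ∀ w ∈ M, w * u = u * w) : u = 1 := by
  have h1 : M ⊓ centralizer M = ⊥ := h _ inferInstance fun v hv w hw => hw.2 v hv.1
  rcases l2 hoc h2 h1 (fun v hv w hw => hw v hv) with h3 | h3
  · exact absurd (h.z_bot M) hM
  · exact mem_bot.1 (h.z_bot (centralizer M) ▸ hu)

theorem prime_inf [Finite G] {u : G} (hu : (orderOf u).Prime) {K : Subgroup G} (h : u ∉ K)
    {w : G} (hw : w ∈ zpowers u) (hK : w ∈ K) : w = 1 := by
  by_contra h1
  have h2 : orderOf w ∣ orderOf u := orderOf_dvd_of_mem_zpowers hw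
  rcases (Nat.dvd_prime hu).1 h2 with h3 | h3
  · exact h1 (orderOf_eq_one_iff.1 h3)
  · exact h (zpowers_le_of_mem hK (cyc_mem_zp hw (mem_zpowers u) (h3 ▸ dvd_rfl)))

theorem comm_of_norm [Finite G] {u w : G} (hu : (orderOf u).Prime) {K : Subgroup G} (h : u ∉ K)
    (h1 : w * u * w⁻¹ ∈ zpowers u) (h2 : w * u * w⁻¹ * u⁻¹ ∈ K) : w * u = u * w := by
  have := prime_inf hu h (mul_mem h1 (inv_mem (mem_zpowers u))) h2
  rwa [mul_inv_eq_one, mul_inv_eq_iff_eq_mul] at this

theorem NoAb.core [Finite G] (h : NoAb G) (hoc : OC G) (h2 : H2 G) {u : G}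
    (hu : (orderOf u).Prime) : (normalizer (zpowers u : Set G)).normalCore = ⊥ := by
  set M := (normalizer (zpowers u : Set G)).normalCore with hM
  have hn : M.Normal := inferInstance
  have k : ∀ w ∈ M, w * u * w⁻¹ ∈ zpowers u := fun w hw =>
    mem_normalizer_zp.1 (normalCore_le _ hw)
  have u1 : u ≠ 1 := by
    rintro rfl
    rw [orderOf_one] at hu
    exact Nat.not_prime_one hu
  by_contra hb
  by_cases hm : u ∈ M
  · have k1 : ∀ g, g * u * g⁻¹ * u = u * (g * u * g⁻¹) := fun g => by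
      by_cases h3 : u ∈ zpowers (g * u * g⁻¹)
      · exact cyc_comm (mem_zpowers _) h3
      · refine comm_of_norm hu h3 (k _ (hn.conj_mem u hm g)) ?_
        have h4 := k _ (hn.conj_mem u hm g⁻¹)
        have h5 : u * (g * u * g⁻¹) * u⁻¹ ∈ zpowers (g * u * g⁻¹) := by
          obtain ⟨i, hi⟩ := mem_zpowers_iff.1 h4
          refine mem_zpowers_iff.2 ⟨i, ?_⟩
          rw [conj_zpow, hi]
          group
        have := mul_mem (mem_zpowers (g * u * g⁻¹)) (inv_mem h5)
        simpa [mul_assoc] using this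
    have k2 : normalClosure {u} ≤ centralizer (Group.conjugatesOfSet {u}) := by
      rw [normalClosure, closure_le]
      intro v hv w hw
      obtain ⟨v', e1, hv'⟩ := Group.mem_conjugatesOfSet_iff.1 hv
      obtain ⟨w', e2, hw'⟩ := Group.mem_conjugatesOfSet_iff.1 hw
      rw [Set.mem_singleton_iff.1 e1] at hv'
      rw [Set.mem_singleton_iff.1 e2] at hw'
      obtain ⟨g, rfl⟩ := isConj_iff.1 hv'
      obtain ⟨g', rfl⟩ := isConj_iff.1 hw'
      have := congrArg (fun x => g * x * g⁻¹) (k1 (g⁻¹ * g'))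
      simpa [mul_assoc] using this
    have k3 : ∀ v ∈ normalClosure {u}, ∀ w ∈ normalClosure {u}, v * w = w * v := by
      intro v hv w hw
      have : normalClosure {u} ≤ centralizer {w} := by
        rw [normalClosure, closure_le]
        exact fun x hx => mem_centralizer_singleton_iff.2 (k2 hw x hx)
      exact mem_centralizer_singleton_iff.1 (this hv)
    exact u1 (mem_bot.1 (h _ inferInstance k3 ▸ mem_ncl u))
  · refine u1 (h.cent hoc h2 hb fun w hw => comm_of_norm hu hm (k w hw) ?_)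
    have := mul_mem hw (hn.conj_mem _ (inv_mem hw) u)
    simpa [mul_assoc] using this

end Pool.Agent.MP_912f41_co

end MrgPart3

-- ======== part 4: formerly Pool.Agent.MP_912f41_co.TI
section MrgPart4

/-! Trivial intersection subgroups. -/

set_option autoImplicit false

namespace Pool.Agent.MP_912f41_co

open Subgroup

variable {G : Type} [Group G] {a b c : G}

theorem orb_dvd {Γ Ω : Type} [Group Γ] [Finite Γ] [Finite Ω] [MulAction Γ Ω] (s : ℕ) :
    ∀ (k : ℕ) (S : Set Ω), S.ncard = k → (∀ ω ∈ S, ∀ g : Γ, g • ω ∈ S) →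
      (∀ ω ∈ S, Nat.card (MulAction.stabilizer Γ ω) ∣ s) → Nat.card Γ ∣ s * k := by
  intro k
  induction k using Nat.strong_induction_on with
  | _ k ih =>
    intro S hk hS hs
    rcases S.eq_empty_or_nonempty with rfl | ⟨ω, hω⟩
    · rw [← hk]; simp
    · have h1 : MulAction.orbit Γ ω ⊆ S := by
        rintro _ ⟨g, rfl⟩
        exact hS ω hω g
      have h2 := Set.ncard_sdiff_add_ncard_of_subset h1
      have h3 : 0 < (MulAction.orbit Γ ω).ncard :=
        (Set.ncard_pos (Set.toFinite _)).2 ⟨ω, MulAction.mem_orbit_self ω⟩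
      rw [← hk, ← h2, mul_add]
      refine dvd_add (ih _ (by omega) _ rfl (fun x hx g => ⟨hS x hx.1 g, fun h => hx.2 ?_⟩)
        fun x hx => hs x hx.1) ?_
      · obtain ⟨g', hg'⟩ := h
        exact ⟨g⁻¹ * g', by simp only [mul_smul] at hg' ⊢; rw [hg', inv_smul_smul]⟩
      · rw [← MulAction.index_stabilizer, ← card_mul_index (MulAction.stabilizer Γ ω)]
        exact Nat.mul_dvd_mul_right (hs ω hω) _

theorem card_subgroupOf (H K : Subgroup G) :
    Nat.card (H.subgroupOf K) = Nat.card (K ⊓ H : Subgroup G) := by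
  rw [← inf_subgroupOf_left]
  exact Nat.card_congr (subgroupOfEquivOfLe inf_le_left).toEquiv

theorem orb_sub [Finite G] {Y N : Subgroup G} (hY : Y ≤ N) {s : ℕ}
    (h : ∀ g ∉ N, Nat.card (Y ⊓ cj N g : Subgroup G) ∣ s) : Nat.card Y ∣ s * (N.index - 1) := by
  refine orb_dvd s _ ({((1 : G) : G ⧸ N)}ᶜ : Set (G ⧸ N)) ?_ ?_ ?_
  · have := Set.ncard_add_ncard_compl ({((1 : G) : G ⧸ N)} : Set (G ⧸ N))
    rw [Set.ncard_singleton] at this
    rw [index]
    omega
  · intro q hq d
    induction q using QuotientGroup.induction_on with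
    | H g =>
      simp only [smul_mk, Set.mem_compl_iff, Set.mem_singleton_iff, QuotientGroup.eq, mul_one,
        inv_mem_iff] at hq ⊢
      exact fun h1 => hq ((mul_mem_cancel_left (hY d.2)).1 h1)
  · intro q hq
    induction q using QuotientGroup.induction_on with
    | H g =>
      simp only [Set.mem_compl_iff, Set.mem_singleton_iff, QuotientGroup.eq, mul_one,
        inv_mem_iff] at hq
      rw [stab_eq, card_subgroupOf]
      exact h g hq

/-- trivial intersection outside `N` -/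
def TI (y : G) (N : Subgroup G) : Prop :=
  ∀ g ∉ N, ∀ w ∈ zpowers y, g⁻¹ * w * g ∈ zpowers y → w = 1

theorem orderOf_conj' (g w : G) : orderOf (g⁻¹ * w * g) = orderOf w := by
  simpa using orderOf_conj g⁻¹ w

theorem ti_of [Finite G] {y : G} {N : Subgroup G}
    (h : ∀ u ∈ zpowers y, (orderOf u).Prime → normalizer (zpowers u : Set G) ≤ N) : TI y N := by
  intro g hg w hw hgw
  by_contra h1
  obtain ⟨r, hr, hd⟩ := Nat.exists_prime_and_dvd (mt orderOf_eq_one_iff.1 h1)
  obtain ⟨u, hu, ho⟩ := exists_prime_pow hd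
  have hu' := zpowers_le_of_mem hw hu
  have h2 : g⁻¹ * u * g ∈ zpowers y :=
    mem_cj.1 (zpowers_le_of_mem (H := cj (zpowers y) g) (mem_cj.2 hgw) hu)
  refine hg (inv_mem_iff.1 (h u hu' (ho ▸ hr) (mem_normalizer_zp.2 ?_)))
  rw [inv_inv]
  exact cyc_mem_zp hu' h2 (orderOf_conj' g u).dvd

theorem TI.stab [Finite G] {y : G} (h : TI y (normalizer (zpowers y : Set G))) {g : G}
    (hg : g ∉ normalizer (zpowers y : Set G)) :
    Nat.card (zpowers y ⊓ cj (normalizer (zpowers y : Set G)) g : Subgroup G) ∣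
      (zpowers y).relIndex (normalizer (zpowers y : Set G)) := by
  have : IsCyclic (zpowers y ⊓ cj (normalizer (zpowers y : Set G)) g : Subgroup G) :=
    Subgroup.isCyclic_of_le inf_le_left
  obtain ⟨v, hv⟩ := IsCyclic.exists_ofOrder_eq_natCard
    (α := (zpowers y ⊓ cj (normalizer (zpowers y : Set G)) g : Subgroup G))
  rw [← hv, ← Subgroup.orderOf_coe, orderOf_dvd_iff_pow_eq_one]
  refine h g hg _ (pow_mem v.2.1 _) ?_
  have h1 := pow_index_mem ((zpowers y).subgroupOf (normalizer (zpowers y : Set G)))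
    ⟨_, mem_cj.1 v.2.2⟩
  rw [mem_subgroupOf] at h1
  have e := conj_pow (a := g⁻¹) (b := (v : G))
    (i := (zpowers y).relIndex (normalizer (zpowers y : Set G)))
  rw [inv_inv] at e
  rw [← e]
  exact h1

theorem TI.dvd [Finite G] {y : G} (h : TI y (normalizer (zpowers y : Set G))) :
    orderOf y ∣ (zpowers y).relIndex (normalizer (zpowers y : Set G)) *
      ((normalizer (zpowers y : Set G)).index - 1) :=
  Nat.card_zpowers y ▸ orb_sub le_normalizer fun _ hg => h.stab hg

theorem reg_orbit [Finite G] {Y N : Subgroup G} (hY : Y ≤ N) {g : G} (hg : g ∉ N)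
    (h : Y ⊓ cj N g = ⊥) : Nat.card Y + 1 ≤ N.index := by
  have h1 := ob_add (D := Y) (H := N) (g := g) fun ⟨d, hd, h⟩ =>
    hg ((mul_mem_cancel_left (hY (inv_mem hd))).1 h)
  have h2 := card_inf_mul (cj N g) Y
  rw [h, card_bot, one_mul] at h2
  rw [relIndex_eq_one.2 hY, h2] at h1
  omega

theorem TI.reg [Finite G] {y : G} (h : TI y (normalizer (zpowers y : Set G))) (y1 : y ≠ 1)
    (hc : (normalizer (zpowers y : Set G)).normalCore = ⊥)
    (h4 : (zpowers y).relIndex (normalizer (zpowers y : Set G)) ∣ 4) :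
    orderOf y + 1 ≤ (normalizer (zpowers y : Set G)).index := by
  set N := normalizer (zpowers y : Set G) with hN
  by_contra h1
  have k : ∀ g ∉ N, 2 ∣ Nat.card (zpowers y ⊓ cj N g : Subgroup G) := fun g hg => by
    obtain ⟨i, -, hi⟩ := (Nat.dvd_prime_pow Nat.prime_two (m := 2)).1 ((h.stab hg).trans h4)
    rcases i with _ | i
    · exact absurd (Nat.card_zpowers y ▸ reg_orbit le_normalizer hg (card_eq_one.1 hi)) h1
    · rw [hi]; exact dvd_pow_self 2 (by omega)
  by_cases h2 : ∀ g, g ∈ N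
  · exact y1 (mem_bot.1 (hc ▸ mem_core fun g => mem_cj.2 (h2 _)))
  · push Not at h2
    obtain ⟨g0, hg0⟩ := h2
    obtain ⟨z, hz, ho⟩ := exists_prime_pow (w := y)
      (Nat.card_zpowers y ▸ (k g0 hg0).trans (card_dvd_of_le inf_le_left))
    have h3 : z = 1 := mem_bot.1 (hc ▸ mem_core fun g => by
      by_cases hg : g ∈ N
      · exact mem_cj.2 (mul_mem (mul_mem (inv_mem hg) (le_normalizer hz)) hg)
      · exact (cyc_le (zpowers_le_of_mem hz) inf_le_left
          (by rw [Nat.card_zpowers, ho]; exact k g hg) (mem_zpowers z)).2)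
    rw [h3, orderOf_one] at ho
    omega

theorem cj_le {D H : Subgroup G} (hD : D ≤ H) {g : G} (hg : g ∈ H) : cj D g ≤ H := fun w hw => by
  have := mul_mem (mul_mem hg (hD (mem_cj.1 hw))) (inv_mem hg)
  simpa [mul_assoc] using this

theorem NM.le_norm [Finite G] (h : NM a b c) (h3 : 3 ≤ orderOf (b * c)) {H : Subgroup G}
    (hb : b ∈ H) (hc : c ∈ H) {f : ℕ} (hf : Nat.card H = 2 * orderOf (b * c) * f)
    (h1 : f ≤ 2 ∨ (f = 3 ∧ (orderOf (b * c)).Coprime 6)) :
    H ≤ normalizer (zpowers (b * c) : Set G) := by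
  have hD : closure {b, c} ≤ H := dih_le hb hc
  have hy : b * c ∈ closure ({b, c} : Set G) := zp_le_dih (mem_zpowers _)
  have idx : ∀ g ∈ H, (cj (closure {b, c}) g).relIndex H = f := fun g hg => by
    have := card_inf_mul (cj (closure {b, c}) g) H
    rw [inf_eq_right.2 (cj_le hD hg), card_cj, h.card_DY, hf] at this
    exact Nat.eq_of_mul_eq_mul_left (by omega) this
  have k : ∀ g ∈ H, g * (b * c) * g⁻¹ ∈ closure ({b, c} : Set G) := by
    intro g hg
    rcases h1 with h1 | ⟨rfl, h1⟩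
    · have h2 := idx 1 (one_mem _)
      rw [cj_one] at h2
      have h4 := ob_pos H (closure {b, c})
      have : ((closure ({b, c} : Set G)).subgroupOf H).Normal := by
        rcases (by omega : f = 1 ∨ f = 2) with rfl | rfl
        · exact normal_of_index_eq_one h2
        · exact normal_of_index_eq_two h2
      exact this.conj_mem ⟨b * c, hD hy⟩ hy ⟨g, hg⟩
    · have h2 := (relIndex_le_of_le_right (zp_le_dih.trans hD) (ob_pos H _).ne').trans
        (idx g⁻¹ (inv_mem hg)).le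
      have h4 := relIndex_dvd_card (cj (closure {b, c}) g⁻¹) (zpowers (b * c))
      rw [Nat.card_zpowers] at h4
      have h5 := Nat.Coprime.coprime_dvd_left h4 h1
      have h6 := ob_pos (zpowers (b * c)) (cj (closure {b, c}) g⁻¹)
      have h7 : (cj (closure {b, c}) g⁻¹).relIndex (zpowers (b * c)) = 1 := by
        generalize (cj (closure {b, c}) g⁻¹).relIndex (zpowers (b * c)) = i at *
        interval_cases i
        · rfl
        · exact absurd h5 (by norm_num)
        · exact absurd h5 (by norm_num)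
      simpa using mem_cj.1 (relIndex_eq_one.1 h7 (mem_zpowers _))
  intro g hg
  refine mem_normalizer_zp.2 (mem_zp_of_order h.b2 h.c2 (k g hg) fun h2 => ?_)
  have := orderOf_dvd_of_pow_eq_one ((sq _).trans h2)
  rw [orderOf_conj] at this
  have := Nat.le_of_dvd two_pos this
  omega

theorem WM.mem_norm [Finite G] (h : WM a b c) {u : G} (hu : u ∈ zpowers (b * c)) :
    b ∈ normalizer (zpowers u : Set G) ∧ c ∈ normalizer (zpowers u : Set G) :=
  ⟨mem_normalizer_of_conj fun _ hw => dih_conj_mem h.b2 h.c2 l_mem_dih (zpowers_le_of_mem hu) hw,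
    mem_normalizer_of_conj fun _ hw => dih_conj_mem h.b2 h.c2 r_mem_dih (zpowers_le_of_mem hu) hw⟩

theorem ncard_image_conj [Finite G] (X : Subgroup G) {Ω : Type} {f : G → Ω}
    (h : ∀ u ∈ X, ∀ w ∈ X, f u = f w → u = w) : (f '' X).ncard = Nat.card X := by
  rw [Set.InjOn.ncard_image fun u hu w hw => h u hu w hw]
  rfl

/-- the Frobenius group argument -/
theorem frob [Finite G] (h : NM a b c) (hab : NoAb G) (hm : orderOf (a * b) % 4 = 3)
    (hT : TI (a * b) (closure {a, b})) (hi : (closure ({a, b} : Set G)).index = orderOf (a * b) + 1) :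
    False := by
  classical
  set D := closure ({a, b} : Set G) with hD
  set x := a * b with hx
  set m := orderOf x with hm'
  have mo : Odd m := Nat.odd_iff.2 (by omega)
  have xo : ∀ w ∈ zpowers x, Odd (orderOf w) := fun w hw =>
    mo.of_dvd_nat (orderOf_dvd_of_mem_zpowers hw)
  have T2 : ∀ g ∉ D, ∀ w ∈ zpowers x, g⁻¹ * w * g ∈ D → w = 1 := fun g hg w hw h1 => by
    by_contra h2
    refine h2 (hT g hg w hw (mem_zp_of_order h.a2 h.b2 h1 fun h3 => h2 ?_))
    have := eq_one_of_odd (by rw [orderOf_conj']; exact xo w hw) h3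
    rwa [← orderOf_eq_one_iff, orderOf_conj', orderOf_eq_one_iff] at this
  have cD : c ∉ D := fun h1 => by
    rw [h.eq_top (H := D) l_mem_dih r_mem_dih h1, index_top] at hi
    omega
  have cov : insert ((1 : G) : G ⧸ D) ((fun w : G => ((w * c : G) : G ⧸ D)) '' zpowers x) =
      Set.univ := by
    refine Set.eq_of_subset_of_ncard_le (Set.subset_univ _) (le_of_eq ?_)
    rw [Set.ncard_insert_of_notMem, ncard_image_conj, Nat.card_zpowers, Set.ncard_univ, ← index, hi]
    · intro u hu w hw e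
      have := T2 c cD _ (mul_mem (inv_mem hu) hw) (by simpa [mul_assoc] using QuotientGroup.eq.1 e)
      exact inv_mul_eq_one.1 this
    · rintro ⟨w, hw, e⟩
      have h1 := QuotientGroup.eq.1 e
      rw [mul_one, inv_mem_iff] at h1
      exact cD ((mul_mem_cancel_left (zp_le_dih hw)).1 h1)
  have := Fintype.ofFinite (G ⧸ D)
  set σ : G →* ℤˣ := Equiv.Perm.sign.comp (MulAction.toPermHom G (G ⧸ D)) with hσ
  have fx : Function.fixedPoints (MulAction.toPermHom G (G ⧸ D) a) =
      {((1 : G) : G ⧸ D), (c : G ⧸ D)} := by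
    have ap : ∀ g : G, MulAction.toPermHom G (G ⧸ D) a (g : G ⧸ D) = ((a * g : G) : G ⧸ D) :=
      fun _ => rfl
    ext q
    rw [Function.mem_fixedPoints_iff]
    constructor
    · intro hq
      rcases cov ▸ Set.mem_univ q with h1 | ⟨w, hw, rfl⟩
      · exact Or.inl h1
      · right
        rw [ap, QuotientGroup.eq] at hq
        have e : a * w = w⁻¹ * a := by rw [← dih_inv_l h.a2 h.b2 hw, mul_assoc, h.a2, mul_one]
        have e2 : (a * (w * c))⁻¹ * (w * c) = a * (c⁻¹ * (w * w) * c) := by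
          rw [← mul_assoc a, e, mul_assoc w⁻¹, h.ac]
          simp [mul_assoc, inv_eq_self h.a2]
        rw [e2, mul_mem_cancel_left l_mem_dih] at hq
        simp [eq_one_of_odd (xo w hw) (T2 c cD _ (mul_mem hw hw) hq)]
    · rintro (rfl | rfl)
      · rw [ap, QuotientGroup.eq]
        simpa using l_mem_dih
      · rw [ap, QuotientGroup.eq, h.ac]
        simpa using l_mem_dih
  have σa : σ a = -1 := by
    rw [hσ, MonoidHom.comp_apply, Equiv.Perm.sign_of_pow_two_eq_one
      (by rw [← map_pow, sq, h.a2, map_one]), ← Nat.card_eq_fintype_card,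
      ← Nat.card_eq_fintype_card, ← index, hi, Nat.card_coe_set_eq, fx, Set.ncard_pair]
    · exact Odd.neg_one_pow (Nat.odd_iff.2 (by omega))
    · intro e
      exact cD (by simpa using QuotientGroup.eq.1 e)
  have xk : zpowers x ≤ σ.ker := zpowers_le_of_mem (mem_of_sq_mem
    (by rw [MonoidHom.mem_ker, map_mul, Int.units_mul_self]) mo)
  have DX : ∀ g ∈ D, g ∈ σ.ker → g ∈ zpowers x := fun g hg hk => by
    refine ((dih_mem h.a2 h.b2).1 hg).resolve_right fun h1 => ?_
    have h2 := (mul_mem_cancel_left hk).1 (xk h1)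
    have h3 := (mul_mem_cancel_right h2).1 (xk (mem_zpowers x))
    rw [MonoidHom.mem_ker, σa] at h3
    exact absurd h3 (by decide)
  have i2 : σ.ker.index = 2 := index_eq_two_iff.2 ⟨a, fun g => by
    simp only [MonoidHom.mem_ker, map_mul, σa]
    rcases Int.units_eq_one_or (σ g) with e | e <;> rw [e] <;> decide⟩
  set H := (zpowers x).subgroupOf σ.ker with hH
  have cH : Nat.card H = m := by rw [hH, card_subgroupOf, inf_eq_right.2 xk, Nat.card_zpowers]
  have cG : Nat.card σ.ker = m * (m + 1) := by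
    have h1 := card_mul_index σ.ker
    have h2 := card_mul_index D
    rw [hi, h.card_DX] at h2
    rw [i2, ← h2] at h1
    linarith
  have mp : 0 < m := by omega
  have iH : H.index = m + 1 := by
    have h1 := card_mul_index H
    rw [cH, cG] at h1
    exact Nat.eq_of_mul_eq_mul_left mp h1
  let _ : CommGroup H :=
    ⟨fun u w => Subtype.ext (Subtype.ext (cyc_comm (Z := zpowers x) u.2 w.2))⟩
  set τ : σ.ker →* H := MonoidHom.transfer (MonoidHom.id H) with hτ
  have τx : ∀ w : H, τ w = w := fun w => by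
    rw [hτ, MonoidHom.transfer_eq_pow _ _ fun k g hg => ?_]
    · apply Subtype.ext
      have := congrArg Subtype.val (pow_card_eq_one' (G := H) (x := w))
      rw [cH] at this
      change (w : σ.ker) ^ H.index = w
      rw [iH, pow_succ]
      exact mul_eq_right.2 this
    · have h1 : ((w : σ.ker) : G) ^ k ∈ zpowers x := pow_mem w.2 k
      apply Subtype.ext
      change (g : G)⁻¹ * ((w : σ.ker) : G) ^ k * g = ((w : σ.ker) : G) ^ k
      by_cases h2 : (g : G) ∈ D
      · rw [mul_assoc, cyc_comm h1 (DX g h2 g.2), inv_mul_cancel_left]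
      · rw [hT g h2 _ h1 hg]; simp
  have cK : Nat.card τ.ker = m + 1 := by
    have h1 := card_mul_index τ.ker
    rw [index_ker, (MonoidHom.range_eq_top (f := τ)).2 fun w => ⟨w, τx w⟩, card_top, cH, cG, mul_comm] at h1
    exact Nat.eq_of_mul_eq_mul_left mp h1
  set K := τ.ker.map σ.ker.subtype with hK
  have cK' : Nat.card K = m + 1 := by rw [hK, card_map_of_injective σ.ker.subtype_injective, cK]
  have mK : ∀ g, g ∈ K ↔ g ∈ σ.ker ∧ g ^ (m + 1) = 1 := fun g =>
    ⟨fun hg => ⟨map_subtype_le _ hg, cK' ▸ pow_card_of_mem hg⟩, fun hg => ⟨⟨g, hg.1⟩, by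
      refine eq_one_of_pow_coprime (i := m + 1) (j := m) ?_
        (orderOf_dvd_iff_pow_eq_one.1 ((_root_.orderOf_dvd_natCard _).trans cH.dvd)) (by simp)
      rw [← map_pow, show (⟨g, hg.1⟩ : σ.ker) ^ (m + 1) = 1 from Subtype.ext hg.2, map_one], rfl⟩⟩
  have nK : K.Normal := ⟨fun w hw g => (mK _).2 ⟨σ.normal_ker.conj_mem w ((mK w).1 hw).1 g, by
    rw [conj_pow, ((mK w).1 hw).2]; simp⟩⟩
  obtain ⟨k, hk⟩ := exists_prime_orderOf_dvd_card' (G := K) 2 (by rw [cK']; omega)
  rw [← Subgroup.orderOf_coe] at hk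
  have k2 : (k : G) * k = 1 := by rw [← sq, ← hk, pow_orderOf_eq_one]
  have k1 : (k : G) ≠ 1 := fun e => by rw [e, orderOf_one] at hk; omega
  have kD : (k : G) ∉ D := fun h1 => k1 (eq_one_of_odd (xo _ (DX _ h1 ((mK _).1 k.2).1)) k2)
  have cov2 : insert (1 : G) ((fun w : G => w * k * w⁻¹) '' zpowers x) = K := by
    refine Set.eq_of_subset_of_ncard_le ?_ (le_of_eq ?_)
    · rintro _ (rfl | ⟨w, -, rfl⟩)
      · exact one_mem K
      · exact nK.conj_mem _ k.2 w
    · rw [Set.ncard_insert_of_notMem, ncard_image_conj, Nat.card_zpowers, ← cK']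
      · rfl
      · intro u hu w hw e
        have h1 := mul_mem (inv_mem hu) hw
        have e2 : (k : G)⁻¹ * (u⁻¹ * w) * k = u⁻¹ * w := by
          have := congrArg (fun z => (k : G)⁻¹ * u⁻¹ * z * w) e
          simpa [mul_assoc] using this.symm
        exact inv_mul_eq_one.1 (hT k kD _ h1 (by rw [e2]; exact h1))
      · rintro ⟨w, -, e⟩
        exact k1 (by simpa using e)
  have sq1 : ∀ g ∈ K, g * g = 1 := fun g hg => by
    have hg' : g ∈ (K : Set G) := hg
    rw [← cov2] at hg'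
    rcases hg' with rfl | ⟨w, -, rfl⟩
    · exact one_mul 1
    · simp [mul_assoc, ← mul_assoc (k : G), k2]
  have := hab K nK fun u hu w hw => by
    rw [← inv_mul_inv (sq1 w hw) (sq1 u hu), inv_eq_self (sq1 _ (mul_mem hw hu))]
  rw [this, card_bot] at cK'
  omega

end Pool.Agent.MP_912f41_co

end MrgPart4

-- marker of a merged file
example : 731051 + 834964 = 731051 + 834964 := rfl
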