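import Pool.Agent.MP_912f41_co.F1

/-! Reduced triples: the non-solvable case and the first step of the solvable case. -/

set_option autoImplicit false

namespace Pool.Agent.MP_912f41_co

open Subgroup

variable {G : Type} [Group G] {a b c : G}

theorem exists_max [Finite G] (P : Subgroup G → Prop) (h : P ⊥) :
    ∃ U, P U ∧ ∀ W, P W → U ≤ W → W ≤ U := by
  obtain ⟨U, -, hU⟩ := Finite.exists_le_maximal h
  exact ⟨U, hU.1, fun _ hW h => hU.2 hW h⟩

theorem exists_gen {Z : Subgroup G} [IsCyclic Z] : ∃ u ∈ Z, orderOf u = Nat.card Z := by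
  obtain ⟨g, hg⟩ := IsCyclic.exists_ofOrder_eq_natCard (α := Z)
  exact ⟨g, g.2, by rw [← hg, Subgroup.orderOf_coe]⟩

theorem exists_ord [Finite G] {Z : Subgroup G} [IsCyclic Z] {k : ℕ} (h : k ∣ Nat.card Z) :
    ∃ u ∈ Z, orderOf u = k := by
  obtain ⟨g, hg, e⟩ := exists_gen (Z := Z)
  obtain ⟨u, hu, ho⟩ := exists_prime_pow (e ▸ h)
  exact ⟨u, zpowers_le_of_mem hg hu, ho⟩

theorem Red.two [Finite G] (h : Red G) (U : Subgroup G) [U.Normal] [IsCyclic U] :
    IsPGroup 2 U := by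
  refine isP_iff.2 fun w hw => ?_
  obtain ⟨k, o, ho, e⟩ := Nat.exists_eq_two_pow_mul_odd (orderOf_pos w).ne'
  refine ⟨k, h _ ?_ (cyc_normal (Z := U) (zpowers_le_of_mem (pow_mem hw _)))⟩
  refine ho.of_dvd_nat (orderOf_dvd_of_pow_eq_one ?_)
  rw [← pow_mul, ← e, pow_orderOf_eq_one]

theorem WM.zred [Finite G] (h : WM a b c) (hr : Red G) (K : Subgroup G) [K.Normal] [IsZGroup K] :
    IsCyclic K := by
  have := cyc_der K
  obtain ⟨k, hk⟩ := (hr.two ((_root_.commutator K).map K.subtype)).exists_card_eq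
  refine cyc_of_der K fun z hz w hw => ?_
  rcases k with _ | k
  · rw [pow_zero, card_eq_one] at hk
    rw [hk, mem_bot] at hz
    simp [hz]
  · have h1 := IsZGroup.coprime_commutator_index K
    rw [card_map_of_injective K.subtype_injective] at hk
    rw [hk, Nat.coprime_pow_left_iff (by omega), Nat.coprime_two_left] at h1
    exact h.odd_pow_comm _ h1 hz
      (cyc_comm (mem_map_of_mem K.subtype (pow_index_mem (_root_.commutator K) ⟨w, hw⟩)) hz)

theorem isZ_of_lcm {Γ : Type} [Group Γ] [Finite Γ] {u w : Γ}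
    (h : Nat.card Γ ∣ Nat.lcm (orderOf u) (orderOf w)) : IsZGroup Γ := by
  refine ⟨fun r hr P => ?_⟩
  have := Fact.mk hr
  rcases pow_dvd_lcm hr (orderOf_pos _).ne' (orderOf_pos _).ne'
    ((Nat.ordProj_dvd (Nat.card Γ) r).trans h) with h1 | h1 <;>
  · obtain ⟨S, hS⟩ := sylow_in h1
    have : IsCyclic S := Subgroup.isCyclic_of_le hS
    exact isCyclic_of_surjective _ (Sylow.equiv S P).surjective

theorem exists_noab [Finite G] (h : ¬ Group.IsSolvable G) :
    ∃ (K : Subgroup G) (_ : K.Normal), Nontrivial (G ⧸ K) ∧ NoAb (G ⧸ K) := by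
  obtain ⟨K, ⟨hn, hs⟩, hK⟩ := exists_max (fun K : Subgroup G => K.Normal ∧ Group.IsSolvable K)
    ⟨inferInstance, inferInstance⟩
  refine ⟨K, hn, QuotientGroup.nontrivial_iff.2 fun e => h ?_, fun N hN hc => ?_⟩
  · subst e
    exact Group.isSolvable_of_surjective (f := (⊤ : Subgroup G).subtype) fun g => ⟨⟨g, trivial⟩, rfl⟩
  · have hle : K ≤ N.comap (QuotientGroup.mk' K) := fun w hw => by
      rw [mem_comap, QuotientGroup.mk'_apply, (QuotientGroup.eq_one_iff w).2 hw]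
      exact one_mem _
    have : Group.IsSolvable N := Group.isSolvable_of_comm fun u w => Subtype.ext (hc u u.2 w w.2)
    have h1 := hK _ ⟨inferInstance, Group.isSolvable_of_ker_le_range (inclusion hle)
      ((QuotientGroup.mk' K).subgroupComap N) fun w hw =>
        ⟨⟨w, (QuotientGroup.eq_one_iff _).1 (congrArg Subtype.val hw)⟩, rfl⟩⟩ hle
    rw [eq_bot_iff]
    intro q hq
    obtain ⟨g, rfl⟩ := QuotientGroup.mk'_surjective K q
    exact (QuotientGroup.eq_one_iff g).2 (h1 hq)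

theorem pow_mem_of_mk {K : Subgroup G} [K.Normal] {w : G} {k : ℕ}
    (h : orderOf (QuotientGroup.mk' K w) = k) : w ^ k ∈ K :=
  (QuotientGroup.eq_one_iff _).1 (by
    rw [← QuotientGroup.mk'_apply, map_pow, ← h, pow_orderOf_eq_one])

theorem WM.small_K [Finite G] (h : WM a b c) (K : Subgroup G) [K.Normal] [IsCyclic K]
    (hX : K ≤ zpowers (a * b)) {k : ℕ} (hk : Odd k) (hy : (b * c) ^ k ∈ K) :
    (∀ w ∈ K, ∀ g, g * w = w * g) ∧ ∀ w ∈ K, w * w = 1 := by
  have k1 : ∀ w ∈ K, b * c * w = w * (b * c) := fun w hw => h.odd_pow_comm K hk hw (cyc_comm hy hw)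
  exact ⟨fun w hw => h.central (cyc_comm (mem_zpowers _) (hX hw)) (k1 w hw), fun w hw =>
    h.sq_of_inv (cyc_comm (mem_zpowers _) (hX hw)) (k1 w hw) (dih_inv_r h.a2 h.b2 (hX hw))⟩

theorem eq_of_card_two {K : Subgroup G} (h : Nat.card K = 2) {u w : G} (hu : u ∈ K) (hw : w ∈ K)
    (u1 : u ≠ 1) (w1 : w ≠ 1) : u = w := by
  obtain ⟨y, -, hy⟩ := (Nat.card_eq_two_iff' (1 : K)).1 h
  exact congrArg Subtype.val ((hy ⟨u, hu⟩ fun e => u1 (congrArg Subtype.val e)).trans
    (hy ⟨w, hw⟩ fun e => w1 (congrArg Subtype.val e)).symm)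

/-- the possible types in the non-solvable case -/
def Exc (a b c : G) : Prop := Nat.card G = 4 * LL a b c ∧
  ((orderOf (a * b) = 5 ∧ orderOf (b * c) = 3) ∨ (orderOf (a * b) = 10 ∧ orderOf (b * c) = 3) ∨
   (orderOf (a * b) = 5 ∧ orderOf (b * c) = 6) ∨ (orderOf (a * b) = 6 ∧ orderOf (b * c) = 5) ∨
   (orderOf (a * b) = 10 ∧ orderOf (b * c) = 6 ∧ (a * b) ^ 5 = (b * c) ^ 3))

theorem lift_le [Finite G] (h : WM a b c) (hr : Red G) (h4 : Nat.card G ∣ 4 * LL a b c)
    (K : Subgroup G) [K.Normal] [Nontrivial (G ⧸ K)] (hab : NoAb (G ⧸ K))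
    (hmn : orderOf (QuotientGroup.mk' K b * QuotientGroup.mk' K c) ≤
      orderOf (QuotientGroup.mk' K a * QuotientGroup.mk' K b)) : Exc a b c := by
  obtain ⟨e4, hty⟩ := f1_le ((h.quot K).nm hab) hab (quot_dvd h4 K) hmn
  have q1 := LL_quot a b c K
  have q2 := lcm_dvd_card a b c K
  have q3 := card_quot K
  have om := orderOf_mk K (a * b)
  have on := orderOf_mk K (b * c)
  have pL := LL_pos (QuotientGroup.mk' K a) (QuotientGroup.mk' K b) (QuotientGroup.mk' K c)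
  have hL : LL (QuotientGroup.mk' K a) (QuotientGroup.mk' K b) (QuotientGroup.mk' K c) =
    Nat.lcm (orderOf (QuotientGroup.mk' K (a * b))) (orderOf (QuotientGroup.mk' K (b * c))) := rfl
  rw [← map_mul, ← map_mul] at hty
  generalize LL (QuotientGroup.mk' K a) (QuotientGroup.mk' K b) (QuotientGroup.mk' K c) = L at *
  rw [e4] at q3
  have d1 : L * Nat.card K ∣ LL a b c :=
    Nat.dvd_of_mul_dvd_mul_left (by norm_num : 0 < 4) (by rw [← mul_assoc, q3]; exact h4)
  have d2 : Nat.card K ∣ _ := Nat.dvd_of_mul_dvd_mul_left pL (d1.trans q1)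
  have d3 : LL a b c = L * Nat.card K :=
    Nat.dvd_antisymm (q1.trans (Nat.mul_dvd_mul_left _ q2)) d1
  refine ⟨by rw [← q3, d3, mul_assoc], ?_⟩
  have c1 : IsCyclic (zpowers (a * b) ⊓ K : Subgroup G) := Subgroup.isCyclic_of_le inf_le_left
  have c2 : IsCyclic (zpowers (b * c) ⊓ K : Subgroup G) := Subgroup.isCyclic_of_le inf_le_left
  obtain ⟨u, hu, eu⟩ := exists_gen (Z := zpowers (a * b) ⊓ K)
  obtain ⟨w, hw, ew⟩ := exists_gen (Z := zpowers (b * c) ⊓ K)
  have : IsZGroup K := isZ_of_lcm (u := ⟨u, hu.2⟩) (w := ⟨w, hw.2⟩) (by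
    rw [← Subgroup.orderOf_coe, ← Subgroup.orderOf_coe]
    exact (eu ▸ ew ▸ d2 :))
  have := h.zred hr K
  obtain ⟨e, he⟩ := (hr.two K).exists_card_eq
  have k1 : Nat.card (zpowers (a * b) ⊓ K : Subgroup G) ∣ Nat.card K := card_dvd_of_le inf_le_right
  have k2 : Nat.card (zpowers (b * c) ⊓ K : Subgroup G) ∣ Nat.card K := card_dvd_of_le inf_le_right
  have le : ∀ Z : Subgroup G, Nat.card K ∣ Nat.card (Z ⊓ K : Subgroup G) → K ≤ Z := fun Z hZ =>
    inf_eq_right.1 (eq_of_le_of_card_ge inf_le_right (Nat.le_of_dvd Nat.card_pos hZ))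
  have d4 := pow_dvd_lcm Nat.prime_two Nat.card_pos.ne' Nat.card_pos.ne' (he ▸ d2)
  rw [← he] at d4
  rcases hty with ⟨m5, n3⟩ | ⟨m6, n5, g, s, hs, hg⟩
  · have sq : ∀ w ∈ K, w * w = 1 := by
      rcases d4 with d | d
      · exact (h.small_K K (le _ d) (by decide) (pow_mem_of_mk n3)).2
      · refine (h.dual.small_K K (zp_dual h.b2 h.c2 ▸ le _ d) (k := 5) (by decide) ?_).2
        rw [← inv_mul_inv h.a2 h.b2, inv_pow]
        exact inv_mem (pow_mem_of_mk m5)
    rw [m5] at om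
    rw [n3] at on
    rcases card_le_two sq with c | c <;> rw [c] at k1 k2 d4
    · rw [Nat.dvd_one] at k1 k2
      omega
    · rcases (Nat.dvd_prime Nat.prime_two).1 k1 with k1 | k1 <;>
        rcases (Nat.dvd_prime Nat.prime_two).1 k2 with k2 | k2 <;> rw [k1, k2] at d4
      · omega
      · omega
      · omega
      · refine Or.inr (Or.inr (Or.inr (Or.inr ⟨by omega, by omega, ?_⟩)))
        refine eq_of_card_two c (pow_mem_of_mk m5) (pow_mem_of_mk n3) (fun e => ?_) fun e => ?_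
        · have := Nat.le_of_dvd (by norm_num) (orderOf_dvd_of_pow_eq_one e)
          omega
        · have := Nat.le_of_dvd (by norm_num) (orderOf_dvd_of_pow_eq_one e)
          omega
  · rw [m6] at om
    rw [n5] at on
    rw [m6, n5] at hL
    have KX : K ≤ zpowers (a * b) := by
      refine le _ ?_
      obtain ⟨i, hi, ei⟩ := (Nat.dvd_prime_pow Nat.prime_two).1 (he ▸ k1)
      rw [ei, he]
      refine pow_dvd_pow 2 (not_lt.1 fun hlt => ?_)
      have h1 : LL a b c ∣ 15 * 2 ^ e := by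
        refine Nat.lcm_dvd ?_ ?_
        · rw [← om, ei, show 6 * 2 ^ i = 3 * 2 ^ (i + 1) by ring]
          exact Nat.mul_dvd_mul (by norm_num) (pow_dvd_pow 2 hlt)
        · rw [← on]
          exact Nat.mul_dvd_mul (by norm_num) (he ▸ k2)
      rw [d3, he, hL] at h1
      exact absurd (Nat.dvd_of_mul_dvd_mul_right (by positivity) h1) (by norm_num)
    obtain ⟨ce, sq⟩ := h.small_K K KX (by decide) (pow_mem_of_mk n5)
    rw [inf_eq_right.2 KX] at om
    rcases card_le_two sq with c | c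
    · rw [c] at om k2
      rw [Nat.dvd_one] at k2
      omega
    · exfalso
      obtain ⟨g, rfl⟩ := QuotientGroup.mk'_surjective K g
      obtain ⟨s', hs', rfl⟩ : ∃ s', s' * s' = 1 ∧ s = QuotientGroup.mk' K s' := by
        rcases hs with rfl | rfl
        · exact ⟨a, h.a2, rfl⟩
        · exact ⟨b, h.b2, rfl⟩
      rw [← map_pow, ← map_inv, ← map_mul, ← map_mul] at hg
      obtain ⟨z, hz, ez⟩ := (QuotientGroup.mk'_eq_mk' K).1 hg.symm
      have h6 : (a * b) ^ 6 = 1 := by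
        rw [show 6 = 3 + 3 by rfl, pow_add, ← ez, mul_assoc, ← mul_assoc z, ← ce z hz,
          mul_assoc _ z, sq z hz]
        simp [mul_assoc, mul_cancel_inv hs']
      have := Nat.le_of_dvd (by norm_num) (orderOf_dvd_of_pow_eq_one h6)
      omega

theorem lift [Finite G] (h : WM a b c) (hr : Red G) (h4 : Nat.card G ∣ 4 * LL a b c)
    (hs : ¬ Group.IsSolvable G) : Exc a b c ∨ Exc c b a := by
  obtain ⟨K, _, _, hab⟩ := exists_noab hs
  have hq := h.quot K
  rcases le_total (orderOf (QuotientGroup.mk' K b * QuotientGroup.mk' K c))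
    (orderOf (QuotientGroup.mk' K a * QuotientGroup.mk' K b)) with l | l
  · exact Or.inl (lift_le h hr h4 K hab l)
  · exact Or.inr (lift_le h.dual hr (h.LL_dual ▸ h4) K hab
      (by rwa [ord_dual hq.a2 hq.b2, ord_dual hq.b2 hq.c2]))

/-! ### solvable groups -/

theorem exists_ab [Finite G] [Group.IsSolvable G] {M : Subgroup G} [hM : M.Normal] (h : M ≠ ⊥) :
    ∃ A ≤ M, A.Normal ∧ A ≠ ⊥ ∧ ∀ u ∈ A, ∀ w ∈ A, u * w = w * u := by
  obtain ⟨A, hle, ⟨hn, hb⟩, hA⟩ :=
    Finite.exists_le_minimal (p := fun A : Subgroup G => A.Normal ∧ A ≠ ⊥) ⟨hM, h⟩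
  have h1 := Group.IsSolvable.commutator_lt_of_ne_bot hb
  have h2 : ⁅A, A⁆ = ⊥ := by
    by_contra h2
    exact h1.not_ge (hA ⟨inferInstance, h2⟩ h1.le)
  exact ⟨A, hle, hn, hb, fun u hu w hw => commutator_eq_bot_iff_le_centralizer.1 h2 hw u hu⟩

theorem exists_elem [Finite G] {A : Subgroup G} (hb : A ≠ ⊥)
    (hc : ∀ u ∈ A, ∀ w ∈ A, u * w = w * u) : ∃ q : ℕ, q.Prime ∧ tors A hc q ≠ ⊥ := by
  obtain ⟨⟨w, hw⟩, w1⟩ := ne_bot_iff_exists_ne_one.1 hb
  obtain ⟨q, hq, hd⟩ := Nat.exists_prime_and_dvd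
    (mt orderOf_eq_one_iff.1 fun e : w = 1 => w1 (Subtype.ext e))
  obtain ⟨u, hu, ho⟩ := exists_prime_pow hd
  refine ⟨q, hq, fun e => ?_⟩
  have : u ∈ tors A hc q := ⟨zpowers_le_of_mem hw hu, ho ▸ pow_orderOf_eq_one u⟩
  rw [e, mem_bot] at this
  rw [this, orderOf_one] at ho
  exact hq.ne_one ho.symm

theorem odd_of_tors [Finite G] {U : Subgroup G} (h : ∀ w ∈ U, w * w = 1 → w = 1) {w : G}
    (hw : w ∈ U) : Odd (orderOf w) := by
  by_contra h1
  obtain ⟨u, hu, ho⟩ := exists_prime_pow (even_iff_two_dvd.1 (Nat.not_odd_iff_even.1 h1))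
  rw [h u (zpowers_le_of_mem hw hu) (by rw [← sq, ← ho, pow_orderOf_eq_one]), orderOf_one] at ho
  omega

theorem cyc_of_odd [Finite G] (hoc : OC G) {U : Subgroup G} (ho : ∀ w ∈ U, Odd (orderOf w))
    (hc : ∀ u ∈ U, ∀ w ∈ U, u * w = w * u) : IsCyclic U := by
  have : IsZGroup U := isZ_of hoc fun P hP h2 => by
    have : P = ⊥ := (eq_bot_iff_forall P).2 fun w hw => by
      obtain ⟨k, hk⟩ := isP_iff.1 h2 w hw
      exact eq_one_of_pow_coprime hk (pow_orderOf_eq_one w)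
        (Nat.Coprime.pow_left k (Nat.coprime_two_left.2 (ho w (hP hw))))
    rw [this]
    infer_instance
  exact cyc_of_comm fun u w => Subtype.ext (hc u u.2 w w.2)

theorem fit [Finite G] [Group.IsSolvable G] (h8 : Nat.card G ∣ 8 * LL a b c)
    (h2 : ∀ N : Subgroup G, N.Normal → IsPGroup 2 N → N = ⊥) :
    ∃ (U : Subgroup G) (_ : U.Normal) (_ : IsCyclic U), (∀ w ∈ U, Odd (orderOf w)) ∧
      ∀ g, (∀ w ∈ U, w * g = g * w) → g ∈ U := by
  obtain ⟨U, ⟨hn, hc⟩, hU⟩ := exists_max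
    (fun U : Subgroup G => U.Normal ∧ ∀ u ∈ U, ∀ w ∈ U, u * w = w * u)
    ⟨inferInstance, fun u hu w hw => by rw [mem_bot.1 hu, mem_bot.1 hw]⟩
  have sq : ∀ w ∈ U, w * w = 1 → w = 1 := fun w hw e => by
    have := h2 (tors U hc 2) inferInstance (isP_iff.2 fun v hv => ⟨1, hv.2⟩)
    exact mem_bot.1 (this ▸ (⟨hw, (sq w).trans e⟩ : w ∈ tors U hc 2))
  have ho : ∀ w ∈ U, Odd (orderOf w) := fun w hw => odd_of_tors sq hw
  refine ⟨U, hn, cyc_of_odd (oc_of h8) ho hc, ho, fun g hg => ?_⟩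
  by_contra g1
  have hM : (centralizer (U : Set G)).map (QuotientGroup.mk' U) ≠ ⊥ := fun e =>
    g1 ((QuotientGroup.eq_one_iff g).1 (mem_bot.1 (e ▸ mem_map_of_mem (QuotientGroup.mk' U) hg)))
  have := (normal_centralizer (H := U)).map _ (QuotientGroup.mk'_surjective U)
  obtain ⟨A, hA, An, Ab, Ac⟩ := exists_ab hM
  obtain ⟨q, hq, hV⟩ := exists_elem Ab Ac
  set V := tors A Ac q with hV'
  set W := V.comap (QuotientGroup.mk' U) with hW
  have one : ∀ w, QuotientGroup.mk' U w = 1 ↔ w ∈ U := fun w => QuotientGroup.eq_one_iff w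
  have UW : U ≤ W := fun w hw => by
    rw [hW, mem_comap, (one w).2 hw]
    exact one_mem _
  have WC : ∀ w ∈ W, ∀ u ∈ U, u * w = w * u := fun w hw u hu => by
    obtain ⟨v, hv, e⟩ := hA hw.1
    obtain ⟨z, hz, rfl⟩ := (QuotientGroup.mk'_eq_mk' U).1 e
    rw [← mul_assoc, hv u hu, mul_assoc, mul_assoc, hc u hu z hz]
  have Wc : ∀ u ∈ W, ∀ w ∈ W, u * w = w * u := by
    by_cases q2 : q = 2
    · subst q2
      intro u hu w hw
      have h1 : u * u ∈ U := (one _).1 (by rw [map_mul, ← _root_.sq]; exact hu.2)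
      have h3 : w⁻¹ * u⁻¹ * w * u ∈ U := (one _).1 (by
        rw [map_mul, map_mul, map_mul, map_inv, map_inv, mul_assoc, ← Ac _ hu.1 _ hw.1]
        simp [mul_assoc])
      set z := w⁻¹ * u⁻¹ * w * u with hz
      have e1 : w * u = u * w * z := by simp [hz, mul_assoc]
      have e2 : u * u * w = u * u * w * (z * z) := by
        calc u * u * w = w * u * u := by rw [WC w hw _ h1, mul_assoc]
          _ = u * w * (z * u) := by rw [e1, mul_assoc]
          _ = u * (w * u) * z := by rw [WC u hu z h3]; simp only [mul_assoc]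
          _ = _ := by rw [e1]; simp only [mul_assoc]
      rw [e1, sq z h3 (left_eq_mul.1 e2), mul_one]
    · have : IsCyclic V := oc_of (quot_dvd h8 U) q hq q2 V
        (isP_iff.2 fun v hv => ⟨1, by simpa using hv.2⟩)
      exact fun u hu w hw => congrArg Subtype.val
        (comm_of_cyc ((QuotientGroup.mk' U).subgroupComap V) (fun z hz w => Subtype.ext
          (WC w w.2 z ((one _).1 (congrArg Subtype.val hz))).symm) ⟨u, hu⟩ ⟨w, hw⟩)
  have h3 := hU W ⟨inferInstance, Wc⟩ UW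
  refine hV ((eq_bot_iff_forall V).2 fun v hv => ?_)
  obtain ⟨w, rfl⟩ := QuotientGroup.mk'_surjective U v
  exact (one w).2 (h3 hv)

theorem card_dvd_lcm [Finite G] (h8 : Nat.card G ∣ 8 * LL a b c) (U : Subgroup G) [U.Normal]
    [IsCyclic U] (ho : ∀ w ∈ U, Odd (orderOf w)) :
    Nat.card U ∣ Nat.lcm (Nat.card (zpowers (a * b) ⊓ U : Subgroup G))
      (Nat.card (zpowers (b * c) ⊓ U : Subgroup G)) := by
  refine (Nat.dvd_iff_prime_pow_dvd_dvd _ _).2 fun r k hr hk => ?_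
  obtain ⟨u, hu, e⟩ := exists_ord hk
  rcases k with _ | k
  · simp
  have r2 : r ≠ 2 := by
    rintro rfl
    have := ho u hu
    rw [e, Nat.odd_iff, pow_succ] at this
    omega
  have := cyc_normal (Z := U) (zpowers_le_of_mem hu)
  rw [← e, ← Nat.card_zpowers]
  rcases normal_le h8 hr r2 (isP_zp e.dvd) with h1 | h1
  · exact (card_dvd_of_le (le_inf h1 (zpowers_le_of_mem hu))).trans (Nat.dvd_lcm_left _ _)
  · exact (card_dvd_of_le (le_inf h1 (zpowers_le_of_mem hu))).trans (Nat.dvd_lcm_right _ _)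

theorem notMem_two [Finite G] {Q : Subgroup G} (hQ : IsPGroup 2 Q) {u : G} (hu : Odd (orderOf u))
    (h : u ∈ Q) : u = 1 := by
  obtain ⟨k, hk⟩ := isP_iff.1 hQ u h
  exact eq_one_of_pow_coprime hk (pow_orderOf_eq_one u)
    (Nat.Coprime.pow_left k (Nat.coprime_two_left.2 hu))

theorem lift_prime [Finite G] (Q : Subgroup G) [Q.Normal] {U : Subgroup (G ⧸ Q)}
    (ho : ∀ w ∈ U, Odd (orderOf w)) {y : G} (h : zpowers (QuotientGroup.mk' Q y) ⊓ U ≠ ⊥) :
    ∃ u ∈ zpowers y, (orderOf u).Prime ∧ orderOf u ≠ 2 ∧ QuotientGroup.mk' Q u ∈ U := by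
  obtain ⟨⟨w, hw⟩, w1⟩ := ne_bot_iff_exists_ne_one.1 h
  obtain ⟨r, hr, hd⟩ := Nat.exists_prime_and_dvd
    (mt orderOf_eq_one_iff.1 fun e : w = 1 => w1 (Subtype.ext e))
  obtain ⟨u, hu, e⟩ := exists_prime_pow
    ((hd.trans (orderOf_dvd_of_mem_zpowers hw.1)).trans (orderOf_map_dvd _ y))
  refine ⟨u, hu, e ▸ hr, fun e2 => ?_, zpowers_le_of_mem hw.2 (cyc_mem_zp hw.1 ?_ ?_)⟩
  · exact absurd ((ho w hw.2).of_dvd_nat hd) (by rw [← e, e2]; decide)
  · rw [← MonoidHom.map_zpowers]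
    exact mem_map_of_mem _ hu
  · exact ((orderOf_map_dvd _ u).trans e.dvd).trans hd

theorem frattini [Finite G] {Q : Subgroup G} [Q.Normal] (hQ : IsPGroup 2 Q) {u : G}
    (hu : (orderOf u).Prime) (h2 : orderOf u ≠ 2)
    (hn : (zpowers (QuotientGroup.mk' Q u)).Normal) :
    (normalizer (zpowers u : Set G)).index ∣ Nat.card Q := by
  have := Fact.mk hu
  rw [← ob_all (D := Q) fun g => ?_]
  · exact relIndex_dvd_card _ _
  set W := zpowers u ⊔ Q with hW
  have eW : W = (zpowers (QuotientGroup.mk' Q u)).comap (QuotientGroup.mk' Q) := by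
    rw [← MonoidHom.map_zpowers, comap_map_eq, QuotientGroup.ker_mk']
  have nW : W.Normal := eW ▸ hn.comap _
  have uW : u ∈ W := mem_sup_left (mem_zpowers u)
  obtain ⟨k, hk⟩ := hQ.exists_card_eq
  have cW : Nat.card W = orderOf u * 2 ^ k := by
    have h1 := card_sup_normal (zpowers u) Q
    have h3 : zpowers u ⊓ Q = ⊥ := (eq_bot_iff_forall _).2 fun w hw => notMem_two hQ
      ((hu.odd_of_ne_two h2).of_dvd_nat (orderOf_dvd_of_mem_zpowers hw.1)) hw.2
    rwa [h3, card_bot, mul_one, Nat.card_zpowers, hk] at h1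
  obtain ⟨S, hS⟩ := sylow_in (r := orderOf u) (w := (⟨u, uW⟩ : W)) (by
    rw [cW, Nat.factorization_mul hu.ne_zero (by positivity), Finsupp.add_apply,
      hu.factorization_self, Nat.factorization_eq_zero_of_not_dvd, ← Subgroup.orderOf_coe]
    · simp
    · exact fun e => h2 ((Nat.prime_dvd_prime_iff_eq hu Nat.prime_two).1 (hu.dvd_of_dvd_pow e)))
  obtain ⟨w, hw⟩ := conj_into S (isP_zp (u := (⟨g * u * g⁻¹, nW.conj_mem u uW g⟩ : W))
    (r := orderOf u) (k := 1) (by rw [← Subgroup.orderOf_coe, pow_one]; exact (orderOf_conj g u).dvd))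
  have h1 : (w : G) * g ∈ normalizer (zpowers u : Set G) := by
    obtain ⟨i, hi⟩ := mem_zpowers_iff.1 (hS (hw _ (mem_zpowers _)))
    refine mem_normalizer_zp.2 (mem_zpowers_iff.2 ⟨i, ?_⟩)
    simpa [mul_assoc] using congrArg Subtype.val hi
  obtain ⟨v, hv, d, hd, e⟩ := mem_sup_of_normal_right.1 w.2
  refine ⟨d⁻¹, inv_mem hd, ?_⟩
  rw [← e, mul_assoc] at h1
  rw [inv_inv]
  exact (mul_mem_cancel_left (le_normalizer hv)).1 h1

theorem comm_ncl {u v : G} (h : ∀ g, g * u * g⁻¹ * v = v * (g * u * g⁻¹)) :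
    ∀ z ∈ normalClosure {u}, ∀ w ∈ normalClosure {v}, z * w = w * z := by
  have h1 : normalClosure {u} ≤ centralizer {v} := by
    rw [normalClosure, closure_le]
    intro w hw
    obtain ⟨w', e, hw'⟩ := Group.mem_conjugatesOfSet_iff.1 hw
    rw [Set.mem_singleton_iff.1 e] at hw'
    obtain ⟨g, rfl⟩ := isConj_iff.1 hw'
    exact mem_centralizer_singleton_iff.2 (h g)
  have h2 : normalClosure {v} ≤ centralizer (normalClosure {u} : Set G) :=
    normalClosure_le_normal (Set.singleton_subset_iff.2 fun z hz =>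
      mem_centralizer_singleton_iff.1 (h1 hz))
  exact fun z hz w hw => h2 hw z hz

theorem solv1 [Finite G] [Group.IsSolvable G] (h : NM a b c) (hr : Red G)
    (h4 : Nat.card G ∣ 4 * LL a b c) :
    IsPGroup 2 (normalClosure {a}) ∨ IsPGroup 2 (normalClosure {c}) := by
  have h8 : Nat.card G ∣ 8 * LL a b c := h4.trans ⟨2, by ring⟩
  obtain ⟨Q, ⟨hn, hQ⟩, hM⟩ := exists_max (fun Q : Subgroup G => Q.Normal ∧ IsPGroup 2 Q)
    ⟨inferInstance, IsPGroup.of_bot⟩
  have one : ∀ w, QuotientGroup.mk' Q w = 1 ↔ w ∈ Q := fun w => QuotientGroup.eq_one_iff w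
  have hq := h.toWM.quot Q
  have q8 := quot_dvd h8 Q
  obtain ⟨U, _, _, ho, hU⟩ := fit q8 fun N hN h2 => by
    have h3 := hM _ ⟨hN.comap (QuotientGroup.mk' Q), h2.comap_of_ker_isPGroup _
      (by rwa [QuotientGroup.ker_mk'])⟩ fun w hw => by
        rw [mem_comap, (one w).2 hw]
        exact one_mem _
    refine (eq_bot_iff_forall N).2 fun v hv => ?_
    obtain ⟨w, rfl⟩ := QuotientGroup.mk'_surjective Q v
    exact (one w).2 (h3 hv)
  have dv := card_dvd_lcm q8 U ho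
  have le : ∀ Z, Nat.card U ∣ Nat.card (Z ⊓ U : Subgroup (G ⧸ Q)) → U ≤ Z := fun Z hZ =>
    inf_eq_right.1 (eq_of_le_of_card_ge inf_le_right (Nat.le_of_dvd Nat.card_pos hZ))
  have fin : ∀ s, s * s = 1 → (∀ w ∈ U, QuotientGroup.mk' Q s * w = w * QuotientGroup.mk' Q s) →
      IsPGroup 2 (normalClosure {s}) := fun s hs hc =>
    hQ.to_le (normalClosure_le_normal (Set.singleton_subset_iff.2 ((one s).1
      (eq_one_of_odd (ho _ (hU _ fun w hw => (hc w hw).symm)) (by rw [← map_mul, hs, map_one])))))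
  by_cases hX : zpowers (QuotientGroup.mk' Q a * QuotientGroup.mk' Q b) ⊓ U = ⊥
  · rw [hX, card_bot, Nat.lcm_one_left] at dv
    exact Or.inl (fin a h.a2 fun w hw =>
      hq.dual.c_comm (zp_dual hq.b2 hq.c2 ▸ le _ dv) ho hw)
  by_cases hY : zpowers (QuotientGroup.mk' Q b * QuotientGroup.mk' Q c) ⊓ U = ⊥
  · rw [hY, card_bot, Nat.lcm_one_right] at dv
    exact Or.inr (fin c h.c2 fun w hw => hq.c_comm (le _ dv) ho hw)
  exfalso
  obtain ⟨u, hu, pu, u2, uU⟩ := lift_prime Q ho (y := b * c) hY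
  obtain ⟨v, hv, pv, v2, vU⟩ := lift_prime Q ho (y := a * b) hX
  have red : ∀ w : G, (orderOf w).Prime → orderOf w ≠ 2 → ¬ (zpowers w).Normal :=
    fun w pw w2 hw => by
      rw [hr w (pw.odd_of_ne_two w2) hw, orderOf_one] at pw
      exact Nat.not_prime_one pw
  obtain ⟨mb, mc⟩ := h.mem_norm hu
  obtain ⟨k, hk⟩ := hQ.exists_card_eq
  have d1 := ((orderOf_dvd_of_mem_zpowers hv).trans (h.dc2_dvd h4 mb mc)).trans
    (Nat.mul_dvd_mul_left _ (hk ▸ frattini hQ pu u2 (cyc_normal (zpowers_le_of_mem uU))))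
  have d2 := (Nat.Coprime.pow_right k
    (Nat.coprime_two_right.2 (pv.odd_of_ne_two v2))).dvd_of_dvd_mul_right d1
  have d3 := h.dc2 h4 mb mc (cyc_le (Z := zpowers (a * b)) (zpowers_le_of_mem hv) inf_le_left
    (by rwa [Nat.card_zpowers]) (mem_zpowers v))
  have cm := comm_ncl (u := u) (v := v) fun g => by
    refine (comm_of_norm (K := Q) (by rwa [orderOf_conj]) (fun e => ?_) ?_ ((one _).1 ?_)).symm
    · have := notMem_two hQ (by rw [orderOf_conj]; exact pu.odd_of_ne_two u2) e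
      rw [← orderOf_eq_one_iff, orderOf_conj] at this
      exact pu.ne_one this
    · obtain ⟨i, hi⟩ := mem_zpowers_iff.1 (mem_normalizer_zp.1 (d3 g⁻¹))
      refine mem_zpowers_iff.2 ⟨i, ?_⟩
      rw [conj_zpow, hi]
      group
    · have h1 : QuotientGroup.mk' Q (g * u * g⁻¹) ∈ U := by
        rw [map_mul, map_mul, map_inv]
        exact Normal.conj_mem inferInstance _ uU _
      rw [map_mul, map_mul, map_mul _ v, map_inv, map_inv, cyc_comm vU h1]
      simp
  rcases comm_Z h8 (h2_of4 h4) _ _ cm with hZ | hZ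
  · exact red u pu u2 (normal_of_Z (oc_of h8) pu u2 rfl (s := b)
      (by rw [inv_eq_self h.b2]; exact dih_inv_l h.b2 h.c2 hu) _
      (fun z hz w hw => cm w hw z (mem_inf.1 hz).2) hZ)
  · exact red v pv v2 (normal_of_Z (oc_of h8) pv v2 rfl (s := b)
      (by rw [inv_eq_self h.b2]; exact dih_inv_r h.a2 h.b2 hv) _
      (fun z hz w hw => (cm z (mem_inf.1 hz).1 w hw).symm) hZ)

end Pool.Agent.MP_912f41_co
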