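import Mathlib.GroupTheory.Schreier
import Pool.Agent.MP_912f41_co.Solv

/-! The cases where the prime divides the index, or the index is four; two-groups; transfer. -/

set_option autoImplicit false

namespace Pool.Agent.MP_912f41_co

open Subgroup

variable {G : Type} [Group G] {a b c : G}

theorem pm_of_prime [Finite G] {u s : G} (hu : (orderOf u).Prime) (hn : (zpowers u).Normal)
    (hs : s * s = 1) :
    (∀ w ∈ zpowers u, s * w = w * s) ∨ ∀ w ∈ zpowers u, s * w * s = w⁻¹ := by
  have h1 : s * u * s ∈ zpowers u := by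
    have := hn.conj_mem u (mem_zpowers u) s
    rwa [inv_eq_self hs] at this
  by_cases hK : u ∈ centralizer {s}
  · exact Or.inl fun w hw => (mem_centralizer_singleton_iff.1 (zpowers_le_of_mem hK hw)).symm
  · refine Or.inr fun w hw => ?_
    have h2 : u * (s * u * s) = 1 := prime_inf hu hK (mul_mem (mem_zpowers u) h1)
      (mem_centralizer_singleton_iff.2 (by
        nth_rw 2 [cyc_comm (mem_zpowers u) h1]
        simp only [mul_assoc, hs, mul_one, mul_cancel_inv hs]))
    obtain ⟨i, rfl⟩ := mem_zpowers_iff.1 hw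
    calc _ = s * u ^ i * s⁻¹ := by rw [inv_eq_self hs]
      _ = _ := by rw [← conj_zpow, inv_eq_self hs, eq_inv_of_mul_eq_one_right h2, inv_zpow]

theorem comm_of_inv {s t w : G} (hs : s * s = 1) (ht : t * t = 1) (h1 : s * w⁻¹ * s = w⁻¹⁻¹)
    (h2 : t * w * t = w⁻¹) : s * t * w = w * (s * t) := by
  rw [inv_inv] at h1
  calc s * t * w = s * (t * w * t) * s * (s * t) := by
        simp only [mul_assoc, mul_cancel_inv hs, ht, mul_one]
    _ = _ := by rw [h2, h1]

theorem compl_inv [Finite G] {u s : G} {k : ℕ} (hu : (orderOf u).Prime) (u2 : Odd (orderOf u))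
    (hn : (zpowers u).Normal) (hk : (zpowers u).index = k) (pk : ¬ orderOf u ∣ k) (hs : s * s = 1)
    (k2 : 2 ∣ k) : ∃ H : Subgroup G, H ≠ ⊤ ∧ s ∈ H ∧
      ∀ g, (∀ w ∈ zpowers u, g * w = w * g) → orderOf g ∣ k → g ∈ H := by
  have co : (Nat.card (zpowers u)).Coprime (zpowers u).index := by
    rw [Nat.card_zpowers, hk]
    exact (Nat.Prime.coprime_iff_not_dvd hu).2 pk
  obtain ⟨H, hH⟩ := exists_right_complement'_of_coprime co
  have cH : Nat.card H = k := by rw [← hk, hH.symm.index_eq_card]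
  have dec : ∀ g, ∃ z ∈ zpowers u, ∃ h ∈ H, z * h = g := fun g => by
    obtain ⟨⟨z, h⟩, e⟩ := hH.2 g
    exact ⟨z, z.2, h, h.2, e⟩
  have k1 : ∀ g, (∀ w ∈ zpowers u, g * w = w * g) → orderOf g ∣ k → g ∈ H := fun g hg ho => by
    obtain ⟨z, hz, h, hh, e⟩ := dec g
    have e1 : h = z⁻¹ * g := by rw [← e]; simp
    have e2 : z⁻¹ ^ k = 1 := by
      have := pow_card_of_mem hh
      rwa [cH, e1, Commute.mul_pow (hg _ (inv_mem hz)).symm, orderOf_dvd_iff_pow_eq_one.1 ho,
        mul_one] at this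
    have e3 := eq_one_of_pow_coprime (pow_card_of_mem (inv_mem hz)) e2 (hk ▸ co)
    rw [e3, one_mul] at e1
    exact e1 ▸ hh
  have nt : H ≠ ⊤ := fun e => by
    have := hH.card_mul_card
    rw [e, card_top, Nat.card_zpowers] at this
    exact hu.ne_one (Nat.eq_of_mul_eq_mul_right Nat.card_pos (this.trans (one_mul _).symm))
  rcases pm_of_prime hu hn hs with h1 | h1
  · exact ⟨H, nt, k1 s h1 ((orderOf_dvd_of_pow_eq_one ((sq s).trans hs)).trans k2), k1⟩
  · obtain ⟨z, hz', h, hh, e⟩ := dec s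
    obtain ⟨i, hi⟩ := u2
    have hz : z ^ (i + 1) ∈ zpowers u := pow_mem hz' _
    have e1 : z ^ (i + 1) * z ^ (i + 1) = z := by
      rw [← pow_add, show i + 1 + (i + 1) = 2 * i + 1 + 1 by ring, ← hi, pow_succ,
        ← Nat.card_zpowers, pow_card_of_mem hz', one_mul]
    refine ⟨cj H (z ^ (i + 1)), fun e => nt (eq_top_of_card_eq _ ?_), mem_cj.2 ?_,
      fun g hg ho => mem_cj.2 ?_⟩
    · rw [← card_cj H (z ^ (i + 1)), e, card_top]
    · have e2 : s * z ^ (i + 1) = (z ^ (i + 1))⁻¹ * s := by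
        rw [← h1 _ hz, mul_assoc, hs, mul_one]
      rw [mul_assoc, e2, ← mul_assoc, ← mul_inv_rev, e1, ← e]
      simpa using hh
    · rw [mul_assoc, hg _ hz, inv_mul_cancel_left]
      exact k1 g hg ho

theorem caseA [Finite G] (h : WM a b c) {p k : ℕ} (hp : p.Prime) (p2 : Odd p)
    (hk : Nat.card G = k * p) (lt : k < 2 * (p + 1)) (pk : ¬ p ∣ k) (k2 : 2 ∣ k)
    (hm : orderOf (a * b) ∣ k) (hn : orderOf (b * c) ∣ k) : False := by
  have := Fact.mk hp
  obtain ⟨u, rfl⟩ := exists_prime_orderOf_dvd_card' (G := G) p (hk ▸ Dvd.intro_left k rfl)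
  have hi : (zpowers u).index = k := by
    have := index_mul_card (zpowers u)
    rw [hk, Nat.card_zpowers] at this
    exact Nat.eq_of_mul_eq_mul_right hp.pos this
  set P := (isP_zp (u := u) (r := orderOf u) (k := 1) (by simp)).toSylow (hi ▸ pk) with hP
  have m1 := card_sylow_modEq_one (orderOf u) G
  have m2 := P.card_dvd_index
  rw [P.card_eq_index_normalizer] at m1 m2
  change (normalizer (zpowers u : Set G)).index ≡ 1 [MOD _] at m1
  change (normalizer (zpowers u : Set G)).index ∣ (zpowers u).index at m2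
  by_cases e : (normalizer (zpowers u : Set G)).index = 1
  · have nn : (zpowers u).Normal := normalizer_eq_top_iff.1 (index_eq_one.1 e)
    have o2 : ∀ s : G, s * s = 1 → orderOf s ∣ k := fun s hs =>
      (orderOf_dvd_of_pow_eq_one ((sq s).trans hs)).trans k2
    have ac : a * c * (a * c) = 1 := by
      rw [mul_assoc, ← mul_assoc c, ← h.ac, mul_assoc, h.c2, mul_one, h.a2]
    rcases pm_of_prime hp nn h.b2 with hb | hb
    · rcases pm_of_prime hp nn h.a2 with ha | ha
      · obtain ⟨H, nt, hs, hH⟩ := compl_inv hp p2 nn hi pk h.c2 k2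
        exact nt (h.eq_top (hH a ha (o2 a h.a2)) (hH b hb (o2 b h.b2)) hs)
      · obtain ⟨H, nt, hs, hH⟩ := compl_inv hp p2 nn hi pk h.a2 k2
        refine nt (h.eq_top hs (hH b hb (o2 b h.b2)) ?_)
        rcases pm_of_prime hp nn h.c2 with hc | hc
        · exact hH c hc (o2 c h.c2)
        · exact (mul_mem_cancel_left hs).1 (hH _
            (fun w hw => comm_of_inv h.a2 h.c2 (ha _ (inv_mem hw)) (hc w hw)) (o2 _ ac))
    · obtain ⟨H, nt, hs, hH⟩ := compl_inv hp p2 nn hi pk h.b2 k2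
      refine nt (h.eq_top ?_ hs ?_)
      · rcases pm_of_prime hp nn h.a2 with ha | ha
        · exact hH a ha (o2 a h.a2)
        · exact (mul_mem_cancel_right hs).1 (hH _
            (fun w hw => comm_of_inv h.a2 h.b2 (ha _ (inv_mem hw)) (hb w hw)) hm)
      · rcases pm_of_prime hp nn h.c2 with hc | hc
        · exact hH c hc (o2 c h.c2)
        · exact (mul_mem_cancel_left hs).1 (hH _
            (fun w hw => comm_of_inv h.b2 h.c2 (hb _ (inv_mem hw)) (hc w hw)) hn)
  · obtain ⟨d, hd⟩ := m2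
    have i0 : 0 < (normalizer (zpowers u : Set G)).index := Nat.pos_of_ne_zero index_ne_zero_of_finite
    have l1 := Nat.le_of_dvd (by omega) ((Nat.modEq_iff_dvd' i0).1 m1.symm)
    have d0 : d ≠ 0 := by
      rintro rfl
      exact index_ne_zero_of_finite (hd.trans (mul_zero _))
    obtain rfl : d = 1 := by
      by_contra d1
      have : (normalizer (zpowers u : Set G)).index * 2 ≤
        (normalizer (zpowers u : Set G)).index * d := Nat.mul_le_mul_left _ (by omega)
      omega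
    have e1 : zpowers u = normalizer (zpowers u : Set G) := by
      refine eq_of_le_of_card_ge le_normalizer (le_of_eq ?_)
      have h1 := index_mul_card (zpowers u)
      rw [hd, mul_one, ← index_mul_card (normalizer (zpowers u : Set G))] at h1
      exact (Nat.eq_of_mul_eq_mul_left i0 h1).symm
    have hc : normalizer (P : Set G) ≤ centralizer (P : Set G) := fun g hg w hw =>
      cyc_comm (Z := zpowers u) hw (e1 ▸ hg)
    have hC := MonoidHom.ker_transferSylow_isComplement' P hc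
    have k1 : ∀ s : G, s * s = 1 → s ∈ (MonoidHom.transferSylow P hc).ker := fun s hs =>
      Subtype.ext (eq_one_of_odd (p2.of_dvd_nat (orderOf_dvd_of_mem_zpowers
        (MonoidHom.transferSylow P hc s).2)) (by
          rw [← Subgroup.coe_mul, ← map_mul, hs, map_one, Subgroup.coe_one]))
    have h1 := hC.disjoint
    rw [h.eq_top (k1 a h.a2) (k1 b h.b2) (k1 c h.c2), top_disjoint] at h1
    have h2 : u ∈ (P : Subgroup G) := mem_zpowers u
    rw [h1, mem_bot] at h2
    rw [h2, orderOf_one] at hp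
    exact Nat.not_prime_one hp

theorem finA : ∀ m < 19, ∀ n < 19, ∀ s < 5, s * (m * n) = s * (2 * m + 2 * n) + 4 * Nat.gcd m n →
    2 * Nat.lcm m n * s ≤ 168 := by decide +kernel

theorem arithA_le {m n s : ℕ} (m0 : 0 < m) (hmn : m ≤ n)
    (h : s * (m * n) = s * (2 * m + 2 * n) + 4 * Nat.gcd m n) : 2 * Nat.lcm m n * s ≤ 168 := by
  have g0 := Nat.gcd_pos_of_pos_left n m0
  have gm := Nat.gcd_le_left n m0
  have s0 : 0 < s := Nat.pos_of_ne_zero (by rintro rfl; omega)
  obtain ⟨d, hd⟩ : ∃ d, m * n = 2 * m + 2 * n + d :=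
    Nat.exists_eq_add_of_le (Nat.le_of_mul_le_mul_left (by omega) s0)
  have h1 : s * d = 4 * Nat.gcd m n := by
    rw [hd, mul_add s] at h
    omega
  obtain ⟨e, he⟩ : Nat.gcd m n ∣ d := (Nat.dvd_add_right (Dvd.dvd.add
    ((Nat.gcd_dvd_left m n).mul_left 2) ((Nat.gcd_dvd_right m n).mul_left 2))).1
    (hd ▸ (Nat.gcd_dvd_left m n).mul_right n)
  have h2 : s * e = 4 := Nat.eq_of_mul_eq_mul_right g0 (by rw [← h1, he]; ring)
  have s4 := Nat.le_of_dvd (by norm_num) (Dvd.intro e h2)
  have d4 : d ≤ s * d := Nat.le_mul_of_pos_left d s0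
  have m3 : 3 ≤ m := by
    by_contra h3
    have : m * n ≤ 2 * n := Nat.mul_le_mul_right n (by omega)
    omega
  have n18 : n < 19 := by
    by_contra h3
    obtain ⟨m', rfl⟩ := Nat.exists_eq_add_of_le m3
    have : m' * 19 ≤ m' * n := Nat.mul_le_mul_left _ (by omega)
    rw [add_mul] at hd
    omega
  exact finA m (by omega) n n18 s (by omega) h

theorem caseA' [Finite G] (h : WM a b c) {p s : ℕ} (hp : p.Prime) (h83 : 83 < p)
    (hc : Nat.card G = 2 * LL a b c * (p * s))
    (e : s * (orderOf (a * b) * orderOf (b * c)) = s * (2 * orderOf (a * b) + 2 * orderOf (b * c)) +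
      4 * Nat.gcd (orderOf (a * b)) (orderOf (b * c))) : False := by
  have h1 : 2 * LL a b c * s ≤ 168 := by
    rcases le_total (orderOf (a * b)) (orderOf (b * c)) with l | l
    · exact arithA_le (orderOf_pos _) l e
    · rw [LL, Nat.lcm_comm]
      exact arithA_le (orderOf_pos _) l (by rw [Nat.gcd_comm, mul_comm (orderOf (b * c)), e]; ring)
  have po := hp.odd_of_ne_two (by omega)
  have k2 : 2 ∣ 2 * LL a b c * s := ⟨_, mul_assoc _ _ _⟩
  have k0 : 0 < 2 * LL a b c * s := Nat.pos_of_ne_zero fun e => by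
    have := Nat.card_pos (α := G)
    rw [hc, mul_comm p, ← mul_assoc, e] at this
    omega
  refine caseA h hp po (k := 2 * LL a b c * s) (by rw [hc]; ring) (by omega) (fun d => ?_) k2
    (((Nat.dvd_lcm_left _ _).mul_left 2).mul_right s) (((Nat.dvd_lcm_right _ _).mul_left 2).mul_right s)
  have := Nat.le_of_dvd k0 ((Nat.coprime_two_left.2 po).mul_dvd_of_dvd_of_dvd k2 d)
  obtain ⟨i, hi⟩ := po
  omega

/-! ### index four -/

theorem WM.red_of_odd [Finite G] (h : WM a b c) (h8 : Nat.card G ∣ 8 * LL a b c)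
    (hm : Odd (orderOf (a * b))) (hn : Odd (orderOf (b * c))) : Red G := by
  intro u hu nn
  by_contra u1
  obtain ⟨r, hr, hd⟩ := Nat.exists_prime_and_dvd (mt orderOf_eq_one_iff.1 u1)
  obtain ⟨v, hv, e⟩ := exists_prime_pow hd
  have ro := hu.of_dvd_nat hd
  have := cyc_normal (Z := zpowers u) (zpowers_le_of_mem hv)
  have h1 : v * v = 1 := by
    refine h.sq_of_inv (h.odd_comm _ hm hv) (h.odd_comm _ hn hv) ?_
    rcases normal_le h8 hr (by rintro rfl; exact absurd ro (by decide))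
      (isP_zp (u := v) (k := 1) (by simp [e])) with h1 | h1
    · exact dih_inv_r h.a2 h.b2 (h1 (mem_zpowers v))
    · exact dih_inv_l h.b2 h.c2 (h1 (mem_zpowers v))
  rw [eq_one_of_odd (e ▸ ro) h1, orderOf_one] at e
  exact hr.ne_one e.symm

theorem WM.x_two [Finite G] (h : WM a b c) (hP : IsPGroup 2 (normalClosure {a})) :
    ∃ k, orderOf (a * b) = 2 ^ k := by
  obtain ⟨k, hk⟩ := isP_iff.1 hP _ (mul_mem (mem_ncl a) (conj_mem_ncl a b))
  have h1 : orderOf (a * b) ∣ 2 ^ (k + 1) := orderOf_dvd_of_pow_eq_one (by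
    rw [pow_succ', pow_mul, ← hk, inv_eq_self h.b2, sq]
    simp only [mul_assoc])
  obtain ⟨i, -, e⟩ := (Nat.dvd_prime_pow Nat.prime_two).1 h1
  exact ⟨i, e⟩

theorem ord_quot_odd [Finite G] {V : Subgroup G} [V.Normal] (hV : IsPGroup 2 V) {w : G}
    (hw : Odd (orderOf w)) : orderOf (QuotientGroup.mk' V w) = orderOf w := by
  have h1 := orderOf_mk V w
  rwa [(eq_bot_iff_forall _).2 fun z (hz : z ∈ zpowers w ⊓ V) => notMem_two hV
    (hw.of_dvd_nat (orderOf_dvd_of_mem_zpowers hz.1)) hz.2, card_bot, mul_one] at h1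

theorem WM.nm_of_odd (h : WM a b c) (hm : Odd (orderOf (a * b))) (hn : Odd (orderOf (b * c)))
    (x1 : a * b ≠ 1) (y1 : b * c ≠ 1) : NM a b c := by
  refine ⟨h, ?_, ?_, ?_⟩ <;> rintro rfl
  · exact x1 (eq_one_of_odd hm (by rw [one_mul, h.b2]))
  · exact x1 (eq_one_of_odd hm (by rw [mul_one, h.a2]))
  · exact y1 (eq_one_of_odd hn (by rw [mul_one, h.b2]))

theorem t4 [Finite G] (h : NM a b c) (hm : Odd (orderOf (a * b)))
    (hn : Odd (orderOf (b * c))) (ht : Nat.card G = 2 * LL a b c * 4) {p : ℕ} (hp : p.Prime)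
    (h47 : 47 < p) (e : orderOf (a * b) * orderOf (b * c) = 2 * orderOf (a * b) +
      2 * orderOf (b * c) + Nat.gcd (orderOf (a * b)) (orderOf (b * c)) * p) : False := by
  have h8 : Nat.card G ∣ 8 * LL a b c := ⟨1, by rw [ht]; ring⟩
  refine t4_noab h (fun N hN hc => ?_) hm hn ht hp h47 e
  by_contra hb
  obtain ⟨q, hq, hV⟩ := exists_elem hb hc
  set V := tors N hc q with hV'
  have pV : IsPGroup q V := isP_iff.2 fun v hv => ⟨1, by simpa using hv.2⟩
  by_cases q2 : q = 2
  · subst q2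
    have em := ord_quot_odd pV hm
    have en := ord_quot_odd pV hn
    rw [map_mul] at em en
    have hq := (h.toWM.quot V).nm_of_odd (em ▸ hm) (en ▸ hn)
      (fun e => h.x_ne_one (by rw [← orderOf_eq_one_iff, ← em, e, orderOf_one]))
      fun e => h.y_ne_one (by rw [← orderOf_eq_one_iff, ← en, e, orderOf_one])
    have h4 : Nat.card (G ⧸ V) ∣ 4 * LL (QuotientGroup.mk' V a) (QuotientGroup.mk' V b)
        (QuotientGroup.mk' V c) := by
      obtain ⟨k, k0, hk⟩ := pV.nontrivial_iff_card.1 ((nontrivial_iff_ne_bot V).2 hV)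
      obtain ⟨k, rfl⟩ := Nat.exists_eq_add_of_lt k0
      rw [← card_quot V, hk, pow_succ, ← mul_assoc, show 8 * LL a b c = 4 * LL a b c * 2 by ring]
        at h8
      rw [LL, em, en]
      exact (Dvd.intro _ rfl).trans (Nat.dvd_of_mul_dvd_mul_right (by norm_num) h8)
    have hr := hq.red_of_odd (h4.trans ⟨2, by ring⟩) (em ▸ hm) (en ▸ hn)
    have one : ∀ {k i : ℕ}, Odd k → k = 2 ^ i → k = 1 := fun {k i} ho e => by
      rcases i with _ | i
      · exact e
      · rw [e, Nat.odd_iff, pow_succ] at ho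
        omega
    by_cases hs : Group.IsSolvable (G ⧸ V)
    · rcases solv1 hq hr h4 with h1 | h1
      · obtain ⟨k, hk⟩ := hq.x_two h1
        exact hq.x_ne_one (orderOf_eq_one_iff.1 (one (em ▸ hm) hk))
      · obtain ⟨k, hk⟩ := hq.dual.x_two h1
        rw [ord_dual hq.b2 hq.c2] at hk
        exact hq.y_ne_one (orderOf_eq_one_iff.1 (one (en ▸ hn) hk))
    · rw [Nat.odd_iff] at hm hn
      rcases lift hq.toWM hr h4 hs with ⟨-, h1⟩ | ⟨-, h1⟩
      · rw [em, en] at h1
        obtain ⟨m5, n3⟩ : orderOf (a * b) = 5 ∧ orderOf (b * c) = 3 := by omega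
        rw [m5, n3] at e
        omega
      · rw [ord_dual hq.a2 hq.b2, ord_dual hq.b2 hq.c2, em, en] at h1
        obtain ⟨m5, n3⟩ : orderOf (a * b) = 3 ∧ orderOf (b * c) = 5 := by omega
        rw [m5, n3] at e
        omega
  · obtain ⟨⟨w, hw⟩, w1⟩ := ne_bot_iff_exists_ne_one.1 hV
    have := oc_of h8 q hq q2 V pV
    exact w1 (Subtype.ext (h.red_of_odd h8 hm hn w ((hq.odd_of_ne_two q2).of_dvd_nat
      (orderOf_dvd_of_pow_eq_one hw.2)) (cyc_normal (Z := V) (zpowers_le_of_mem hw))))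

/-! ### two-groups -/

theorem exists_index_two [Finite G] {k : ℕ} (hk : Nat.card G = 2 ^ k) {H : Subgroup G}
    (h : H ≠ ⊤) : ∃ M : Subgroup G, M.index = 2 ∧ H ≤ M := by
  obtain ⟨i, hi, e⟩ := (Nat.dvd_prime_pow Nat.prime_two).1 (hk ▸ card_subgroup_dvd_card H)
  have lt : i < k := lt_of_le_of_ne hi fun e1 => h (eq_top_of_card_eq H (by rw [e, hk, e1]))
  obtain ⟨k, rfl⟩ := Nat.exists_eq_add_of_lt lt
  obtain ⟨M, hM, le⟩ := Sylow.exists_subgroup_card_pow_prime_le 2 (m := i + k)
    (hk ▸ pow_dvd_pow 2 (by omega)) H e (by omega)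
  refine ⟨M, ?_, le⟩
  have := index_mul_card M
  rw [hM, hk, pow_succ'] at this
  exact Nat.eq_of_mul_eq_mul_right (by positivity) this

theorem WM.two [Finite G] (h : WM a b c) {k : ℕ} (hk : Nat.card G = 2 ^ k) :
    closure {a, c} = (⊤ : Subgroup G) ∨ closure {a, b} = (⊤ : Subgroup G) ∨
      closure {b, c} = (⊤ : Subgroup G) := by
  by_contra h1
  simp only [not_or] at h1
  obtain ⟨B, hB, lB⟩ := exists_index_two hk h1.1
  obtain ⟨C, hC, lC⟩ := exists_index_two hk h1.2.1
  obtain ⟨A, hA, lA⟩ := exists_index_two hk h1.2.2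
  have nt : ∀ M : Subgroup G, M.index = 2 → a ∈ M → b ∈ M → c ∈ M → False := fun M hM ha hb hc => by
    rw [h.eq_top ha hb hc, index_top] at hM
    omega
  have aB := lB l_mem_dih
  have cB := lB r_mem_dih
  have aC := lC l_mem_dih
  have bC := lC r_mem_dih
  have bA := lA l_mem_dih
  have cA := lA r_mem_dih
  have aA : a ∉ A := fun e => nt A hA e bA cA
  have bB : b ∉ B := fun e => nt B hB aB e cB
  have cC : c ∉ C := fun e => nt C hC aC bC e
  let E : Subgroup G :=
    { carrier := {g | g ∈ A ↔ (g ∈ B ↔ g ∈ C)}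
      mul_mem' := fun {u w} hu hw => by
        simp only [Set.mem_ofPred_eq, mul_mem_iff_of_index_two hA, mul_mem_iff_of_index_two hB,
          mul_mem_iff_of_index_two hC] at hu hw ⊢
        tauto
      one_mem' := by simp
      inv_mem' := fun {u} hu => by simpa using hu }
  have mE : ∀ g, g ∈ E ↔ (g ∈ A ↔ (g ∈ B ↔ g ∈ C)) := fun _ => Iff.rfl
  have hE : a ∈ E := h.eq_top' (H := E) (by
    simp [mE, mul_mem_iff_of_index_two hA, mul_mem_iff_of_index_two hB,
      mul_mem_iff_of_index_two hC, aA, bA, aB, bB, aC, bC]) (by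
    simp [mE, mul_mem_iff_of_index_two hA, mul_mem_iff_of_index_two hB,
      mul_mem_iff_of_index_two hC, cA, bA, cB, bB, cC, bC]) ▸ mem_top a
  simp [mE, aA, aB, aC] at hE

theorem NM.not_two [Finite G] (h : NM a b c) (h4 : Nat.card G = 4 * LL a b c) {k : ℕ}
    (hk : Nat.card G = 2 ^ k) : False := by
  have l1 := Nat.le_of_dvd (LL_pos a b c) (Nat.dvd_lcm_left (orderOf (a * b)) (orderOf (b * c)))
  have l2 := Nat.le_of_dvd (LL_pos a b c) (Nat.dvd_lcm_right (orderOf (a * b)) (orderOf (b * c)))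
  have l3 := h.two_le_y
  rcases h.two hk with e | e | e
  · have := h.card_V
    rw [e, card_top] at this
    omega
  · have := h.card_DX
    rw [e, card_top] at this
    omega
  · have := h.card_DY
    rw [e, card_top] at this
    omega

/-! ### transfer into the centre -/

theorem cent_ncl [Finite G] {s : G} (hs : s * s = 1) {Z : Subgroup G} [Z.Normal]
    (hc : ∀ z ∈ Z, z * s = s * z) (ho : Odd (Nat.card Z))
    (hi : (Z.relIndex (normalClosure {s})).Coprime (Nat.card Z)) {z : G} (hz : z ∈ Z)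
    (hW : z ∈ normalClosure {s}) : z = 1 := by
  set W := normalClosure {s} with hW'
  have h1 : W ≤ centralizer (Z : Set G) := normalClosure_le_normal (Set.singleton_subset_iff.2 hc)
  have h2 : Z.subgroupOf W ≤ center W := fun u hu =>
    mem_center_iff.2 fun w => Subtype.ext (h1 w.2 u hu).symm
  set f := (center W).subtype.comp (MonoidHom.transferCenterPow W) with hf
  set K := (tors (center W) (fun u hu w _ => (mem_center_iff.1 hu w).symm) 2).comap f with hK
  have h3 : W ≤ K.map W.subtype := by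
    refine (closure_le _).2 fun v hv => ?_
    have mv : v ∈ W := subset_closure hv
    obtain ⟨v', e, hv'⟩ := Group.mem_conjugatesOfSet_iff.1 hv
    rw [Set.mem_singleton_iff.1 e] at hv'
    obtain ⟨g, rfl⟩ := isConj_iff.1 hv'
    refine ⟨⟨_, mv⟩, ⟨(MonoidHom.transferCenterPow W _).2, ?_⟩, rfl⟩
    have : (⟨_, mv⟩ : W) * ⟨_, mv⟩ = 1 := Subtype.ext (by simp [mul_assoc, mul_cancel_inv hs])
    rw [sq, ← map_mul, this, map_one]
  obtain ⟨z', h4, e⟩ := h3 hW
  have h5 : z ^ ((center W).index * 2) = 1 := by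
    rw [← e, pow_mul]
    exact congrArg Subtype.val h4.2
  exact eq_one_of_pow_coprime h5 (pow_card_of_mem hz) (Nat.Coprime.mul_left
    (hi.coprime_dvd_left (index_dvd_of_le h2)) (Nat.coprime_two_left.2 ho))

end Pool.Agent.MP_912f41_co
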