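import Mathlib.Tactic.NormNum.Prime
import Pool.Agent.MP_912f41_co.TI

/-! Triples in groups without abelian normal subgroups. -/

set_option autoImplicit false

namespace Pool.Agent.MP_912f41_co

open Subgroup

variable {G : Type} [Group G] {a b c : G}

theorem NoAb.false [Nontrivial G] (hab : NoAb G) (h : ∀ u w : G, u * w = w * u) : False :=
  top_ne_bot (hab ⊤ inferInstance fun u _ w _ => h u w)

theorem WM.a_notMem [Finite G] [Nontrivial G] (h : WM a b c) (hab : NoAb G) :
    a ∉ closure ({b, c} : Set G) := by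
  intro ha
  have h1 : closure ({b, c} : Set G) = ⊤ := h.eq_top ha l_mem_dih r_mem_dih
  have : (zpowers (b * c)).Normal :=
    ⟨fun _ hw g => dih_conj_mem h.b2 h.c2 (h1 ▸ mem_top g) le_rfl hw⟩
  have h2 := hab.cyc (zpowers (b * c))
  have h3 : ∀ g : G, g * g = 1 := fun g => by
    rcases (dih_mem h.b2 h.c2).1 (h1 ▸ mem_top g) with h4 | h4
    · rw [h2, mem_bot] at h4
      rw [h4, one_mul]
    · exact refl_sq h.b2 h.c2 h4
  exact hab.false fun u w => by rw [← inv_mul_inv (h3 w) (h3 u), inv_eq_self (h3 _)]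

theorem central_bot [Finite G] (hab : NoAb G) {z : G} (h : ∀ g, g * z = z * g) : z = 1 := by
  have : (zpowers z).Normal := ⟨fun _ hw g => zp_conj (by rw [h g]; simp) hw⟩
  exact zpowers_eq_bot.1 (hab.cyc _)

theorem WM.comm_gen (h : WM a b c) {z : G} (ha : a * z = z * a) (hb : b * z = z * b)
    (hc : c * z = z * c) (g : G) : g * z = z * g := by
  have : centralizer {z} = ⊤ := h.eq_top (mem_centralizer_singleton_iff.2 ha)
    (mem_centralizer_singleton_iff.2 hb) (mem_centralizer_singleton_iff.2 hc)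
  exact mem_centralizer_singleton_iff.1 (this ▸ mem_top g)

theorem WM.nm [Finite G] [Nontrivial G] (h : WM a b c) (hab : NoAb G) : NM a b c := by
  have a1 : a ≠ 1 := fun e => h.a_notMem hab (e ▸ one_mem _)
  refine ⟨h, a1, fun e => a1 (central_bot hab ?_), fun e => h.dual.a_notMem hab (e ▸ one_mem _)⟩
  exact h.comm_gen rfl (by simp [e]) h.ac.symm

theorem NM.two_le_y [Finite G] (h : NM a b c) : 2 ≤ orderOf (b * c) := by
  have h1 := orderOf_pos (b * c)
  have h2 := mt orderOf_eq_one_iff.1 h.y_ne_one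
  omega

theorem comm_of_order_two {s t : G} (hs : s * s = 1) (ht : t * t = 1) (h : orderOf (s * t) ∣ 2) :
    t * s = s * t := by
  rw [← inv_mul_inv hs ht, inv_eq_self ((sq _).symm.trans (orderOf_dvd_iff_pow_eq_one.1 h))]

theorem NM.three_le [Finite G] (h : NM a b c) (hab : NoAb G) : 3 ≤ orderOf (b * c) := by
  have h1 := h.two_le_y
  by_contra h2
  refine h.c1 (central_bot hab (h.comm_gen h.ac ?_ rfl))
  exact (comm_of_order_two h.b2 h.c2 (show orderOf (b * c) = 2 by omega).dvd).symm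

theorem NM.card_f (h : NM a b c) {H : Subgroup G} (hb : b ∈ H) (hc : c ∈ H) :
    ∃ f, Nat.card H = 2 * orderOf (b * c) * f :=
  h.card_DY ▸ card_dvd_of_le (dih_le hb hc)

theorem NM.finish [Finite G] (h : NM a b c) (hab : NoAb G) (hoc : OC G) (h2 : H2 G) {t : ℕ}
    (ht : Nat.card G = 2 * LL a b c * t) (Q : ℕ → Prop)
    (hs : ∀ H : Subgroup G, b ∈ H → c ∈ H → H.normalCore = ⊥ →
      ∀ f, Nat.card H = 2 * orderOf (b * c) * f →
        Q f ∧ (f ≤ 2 ∨ (f = 3 ∧ (orderOf (b * c)).Coprime 6))) :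
    ∃ f, 0 < f ∧ Q f ∧ TI (b * c) (normalizer (zpowers (b * c) : Set G)) ∧
      (normalizer (zpowers (b * c) : Set G)).normalCore = ⊥ ∧
      (zpowers (b * c)).relIndex (normalizer (zpowers (b * c) : Set G)) = 2 * f ∧
      (normalizer (zpowers (b * c) : Set G)).index * f *
        Nat.gcd (orderOf (a * b)) (orderOf (b * c)) = orderOf (a * b) * t ∧
      (f = 1 → normalizer (zpowers (b * c) : Set G) = closure {b, c}) := by
  have h3 := h.three_le hab
  have hT : TI (b * c) (normalizer (zpowers (b * c) : Set G)) := ti_of fun u hu hp => by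
    obtain ⟨mb, mc⟩ := h.mem_norm hu
    obtain ⟨f, hf⟩ := h.card_f mb mc
    exact h.le_norm h3 mb mc hf (hs _ mb mc (hab.core hoc h2 hp) f hf).2
  obtain ⟨mb, mc⟩ := h.mem_norm (mem_zpowers (b * c))
  set N := normalizer (zpowers (b * c) : Set G) with hN
  have hc : N.normalCore = ⊥ := by
    obtain ⟨r, hr, hd⟩ := Nat.exists_prime_and_dvd (show orderOf (b * c) ≠ 1 by omega)
    obtain ⟨u, hu, ho⟩ := exists_prime_pow hd
    rw [eq_bot_iff, ← hab.core hoc h2 (u := u) (ho ▸ hr)]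
    refine normalCore_mono fun g hg => mem_normalizer_of_conj fun w hw => ?_
    exact cyc_conj (zpowers_le_of_mem hu)
      (fun v hv => (mem_normalizer_iff.1 hg v).1 (zpowers_le_of_mem hu hv)) hw
  obtain ⟨f, hf⟩ := h.card_f mb mc
  have fp : 0 < f := Nat.pos_of_ne_zero fun e => by
    have := Nat.card_pos (α := N)
    rw [hf, e] at this
    omega
  refine ⟨f, fp, (hs N mb mc hc f hf).1, hT, hc, ?_, ?_, ?_⟩
  · have h4 := card_inf_mul (zpowers (b * c)) N
    rw [inf_eq_right.2 le_normalizer, Nat.card_zpowers, hf] at h4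
    exact Nat.eq_of_mul_eq_mul_left (show 0 < orderOf (b * c) by omega) (by rw [h4]; ring)
  · have h4 := index_mul_card N
    have h5 := Nat.gcd_mul_lcm (orderOf (a * b)) (orderOf (b * c))
    rw [hf, ht] at h4
    refine Nat.eq_of_mul_eq_mul_left (show 0 < 2 * orderOf (b * c) by omega) ?_
    calc _ = N.index * (2 * orderOf (b * c) * f) * Nat.gcd (orderOf (a * b)) (orderOf (b * c)) := by
          ring
      _ = 2 * (Nat.gcd (orderOf (a * b)) (orderOf (b * c)) * LL a b c) * t := by rw [h4]; ring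
      _ = _ := by rw [h5]; ring
  · rintro rfl
    exact (eq_of_le_of_card_ge (dih_le mb mc) (by rw [hf, h.card_DY, mul_one])).symm

theorem NM.side2 [Finite G] (h : NM a b c) (hab : NoAb G) {t : ℕ} (ht2 : t = 1 ∨ t = 2)
    (ht : Nat.card G = 2 * LL a b c * t) :
    ∃ f B, 0 < f ∧ Nat.gcd (orderOf (a * b)) (orderOf (b * c)) * f ≤ t ∧
      B * f * Nat.gcd (orderOf (a * b)) (orderOf (b * c)) = orderOf (a * b) * t ∧
      orderOf (b * c) ∣ 2 * f * (B - 1) ∧ orderOf (b * c) + 1 ≤ B ∧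
      (f = 1 → TI (b * c) (closure {b, c}) ∧ (closure ({b, c} : Set G)).index = B) := by
  have h4 : Nat.card G ∣ 4 * LL a b c := by
    rcases ht2 with rfl | rfl
    · exact ⟨2, by omega⟩
    · exact ⟨1, by omega⟩
  have gp : 0 < Nat.gcd (orderOf (a * b)) (orderOf (b * c)) := Nat.gcd_pos_of_pos_left _ (orderOf_pos _)
  obtain ⟨f, fp, q, hT, hc, hr, hi, h1⟩ := h.finish hab (oc_of (h4.trans ⟨2, by ring⟩)) (h2_of4 h4) ht
    (fun f => Nat.gcd (orderOf (a * b)) (orderOf (b * c)) * f ≤ t) fun H hb hc hH f hf => by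
      obtain ⟨u, -, q, e, -⟩ := h.gf hb hc ht hf 1
      have h5 := h.dc2 h4 hb hc
      rw [hH, le_bot_iff] at h5
      rw [cj_one, h.kappa_one hb, h5, card_bot] at e
      refine ⟨by omega, Or.inl ?_⟩
      have := Nat.le_mul_of_pos_left f gp
      omega
  have f2 : f ≤ 2 := by
    have := Nat.le_mul_of_pos_left f gp
    omega
  refine ⟨f, _, fp, q, hi, hr ▸ hT.dvd, hT.reg h.y_ne_one hc ?_, fun e => h1 e ▸ ⟨hT, rfl⟩⟩
  rw [hr]
  interval_cases f <;> norm_num

theorem arith2 {m n g t f B f' B' : ℕ} (hg : g = Nat.gcd m n) (m3 : 3 ≤ m) (n3 : 3 ≤ n)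
    (t2 : t ≤ 2) (fp : 0 < f) (fp' : 0 < f') (q : g * f ≤ t) (q' : g * f' ≤ t)
    (e : B * f * g = m * t) (e' : B' * f' * g = n * t) (d : n ∣ 2 * f * (B - 1))
    (d' : m ∣ 2 * f' * (B' - 1)) (l : n + 1 ≤ B) (l' : m + 1 ≤ B') (hmn : n ≤ m) :
    t = 2 ∧ ((m = 5 ∧ n = 3) ∨ (m = 6 ∧ n = 5 ∧ f' = 1 ∧ B' = 10) ∨
      (m % 4 = 3 ∧ f' = 1 ∧ B' = m + 1)) := by
  have gp : 0 < g := hg ▸ Nat.gcd_pos_of_pos_left _ (by omega)
  have k : g * f' < t := by
    by_contra h
    have : g * f' = t := by omega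
    have : B' * t = n * t := by rw [← e', ← this]; ring
    have := Nat.eq_of_mul_eq_mul_right (show 0 < t by nlinarith) this
    omega
  obtain rfl : g = 1 := by nlinarith
  obtain rfl : f' = 1 := by omega
  obtain rfl : t = 2 := by omega
  refine ⟨rfl, ?_⟩
  obtain rfl : B' = 2 * n := by omega
  have cop : Nat.Coprime m n := hg.symm
  have mn : m ≠ n := by
    rintro rfl
    rw [Nat.coprime_self] at cop
    omega
  obtain ⟨v, hv⟩ := d'
  obtain ⟨u, hu⟩ := d
  have v1 : 2 ≤ v := by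
    by_contra h
    have : m * v ≤ m * 1 := Nat.mul_le_mul_left _ (by omega)
    omega
  have v2 : v ≤ 3 := by
    by_contra h
    have : m * 4 ≤ m * v := Nat.mul_le_mul_left _ (by omega)
    omega
  rcases (by omega : v = 2 ∨ v = 3) with rfl | rfl
  · obtain rfl : m = 2 * n - 1 := by omega
    have h8 : n ∣ 12 ∨ n ∣ 8 := by
      rcases (by omega : f = 1 ∨ f = 2) with rfl | rfl
      · left
        have : n * (8 - u) = 6 := by
          have : u ≤ 8 := by
            by_contra h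
            have : n * 9 ≤ n * u := Nat.mul_le_mul_left _ (by omega)
            omega
          rw [Nat.mul_sub]; omega
        exact ⟨(8 - u) * 2, by rw [← mul_assoc, this]; norm_num⟩
      · right
        have : n * (8 - u) = 8 := by
          have : u ≤ 8 := by
            by_contra h
            have : n * 9 ≤ n * u := Nat.mul_le_mul_left _ (by omega)
            omega
          rw [Nat.mul_sub]; omega
        exact ⟨8 - u, this.symm⟩
    have n12 : n ≤ 12 := by
      rcases h8 with h | h <;> have := Nat.le_of_dvd (by norm_num) h <;> omega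
    interval_cases n <;> omega
  · rcases (by omega : f = 1 ∨ f = 2) with rfl | rfl
    · exfalso
      have h1 : n * (16 - 3 * u) = 14 := by
        have : 3 * u ≤ 16 := by
          by_contra h
          have : n * 6 ≤ n * u := Nat.mul_le_mul_left _ (by omega)
          omega
        rw [Nat.mul_sub, mul_comm 3 u, ← mul_assoc]; omega
      have := Nat.le_of_dvd (by norm_num) (Dvd.intro _ h1)
      have n14 : n ≠ 14 := by
        rintro rfl
        obtain rfl : m = 18 := by omega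
        exact absurd cop (by norm_num)
      interval_cases n <;> omega
    · have h1 : n * (16 - 3 * u) = 20 := by
        have : 3 * u ≤ 16 := by
          by_contra h
          have : n * 6 ≤ n * u := Nat.mul_le_mul_left _ (by omega)
          omega
        rw [Nat.mul_sub, mul_comm 3 u, ← mul_assoc]; omega
      have := Nat.le_of_dvd (by norm_num) (Dvd.intro _ h1)
      have n20 : n ≠ 20 := by
        rintro rfl
        obtain rfl : m = 26 := by omega
        exact absurd cop (by norm_num)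
      interval_cases n <;> omega

theorem closure_dual (s t : G) : closure ({t, s} : Set G) = closure {s, t} := by
  rw [Set.pair_comm]

theorem TI.dual {s t : G} (hs : s * s = 1) (ht : t * t = 1) (h : TI (t * s) (closure {t, s})) :
    TI (s * t) (closure {s, t}) := by
  unfold TI at h ⊢
  rwa [zp_dual hs ht, closure_dual] at h

theorem six_five [Finite G] (h : NM a b c) (hm : orderOf (a * b) = 6)
    (hT : TI (a * b) (closure {a, b})) (hi : (closure ({a, b} : Set G)).index = 10) :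
    ∃ g s, (s = a ∨ s = b) ∧ (a * b) ^ 3 = g * s * g⁻¹ := by
  have h1 := mt (orb_sub (Y := zpowers (a * b)) (N := closure {a, b}) zp_le_dih (s := 1))
    (by rw [Nat.card_zpowers, hm, hi]; norm_num)
  push Not at h1
  obtain ⟨g, hg, h1⟩ := h1
  rw [Nat.dvd_one, card_eq_one, eq_bot_iff_forall] at h1
  push Not at h1
  obtain ⟨w, hw, w1⟩ := h1
  have h2 := ((dih_mem h.a2 h.b2).1 (mem_cj.1 hw.2)).resolve_left fun e => w1 (hT g hg w hw.1 e)
  have h3 : orderOf w ∣ 2 := by
    rw [← orderOf_conj' g]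
    exact orderOf_dvd_of_pow_eq_one ((sq _).trans (refl_sq h.a2 h.b2 h2))
  have o3 : orderOf ((a * b) ^ 3) = 2 := by
    rw [orderOf_pow_of_dvd (by norm_num) (by rw [hm]; norm_num), hm]
  have h4 := cyc_mem_zp (pow_mem (mem_zpowers (a * b)) 3) hw.1 (o3 ▸ h3)
  have h5 : w = (a * b) ^ 3 := by
    classical
    rw [mem_zpowers_iff_mem_range_orderOf, o3] at h4
    simp only [Finset.mem_image, Finset.mem_range] at h4
    obtain ⟨i, hi, rfl⟩ := h4
    interval_cases i
    · simp at w1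
    · simp
  obtain ⟨v, -, hv⟩ := refl_conj h.a2 h.b2 h2
  have k : ∀ s, g⁻¹ * w * g = v * s * v⁻¹ → (a * b) ^ 3 = g * v * s * (g * v)⁻¹ := fun s hs => by
    rw [← h5]
    calc w = g * (g⁻¹ * w * g) * g⁻¹ := by group
      _ = _ := by rw [hs]; group
  rcases hv with hv | hv
  · exact ⟨g * v, b, Or.inr rfl, k b hv⟩
  · exact ⟨g * v, a, Or.inl rfl, k a hv⟩

theorem f1_le [Finite G] (h : NM a b c) (hab : NoAb G) (h4 : Nat.card G ∣ 4 * LL a b c)
    (hmn : orderOf (b * c) ≤ orderOf (a * b)) : Nat.card G = 4 * LL a b c ∧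
      ((orderOf (a * b) = 5 ∧ orderOf (b * c) = 3) ∨ (orderOf (a * b) = 6 ∧ orderOf (b * c) = 5 ∧
        ∃ g s, (s = a ∨ s = b) ∧ (a * b) ^ 3 = g * s * g⁻¹)) := by
  obtain ⟨t, ht2, ht⟩ : ∃ t, (t = 1 ∨ t = 2) ∧ Nat.card G = 2 * LL a b c * t := by
    rcases h.card_cases h4 with e | e
    · exact ⟨1, Or.inl rfl, by omega⟩
    · exact ⟨2, Or.inr rfl, by omega⟩
  obtain ⟨f, B, fp, q, e, d, l, -⟩ := h.side2 hab ht2 ht
  obtain ⟨f', B', fp', q', e', d', l', hT⟩ := h.dual.side2 hab ht2 (h.LL_dual ▸ ht)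
  have m3 := h.dual.three_le hab
  rw [ord_dual h.a2 h.b2] at *
  rw [ord_dual h.b2 h.c2, Nat.gcd_comm] at q' e'
  obtain ⟨rfl, h5⟩ := arith2 rfl m3 (h.three_le hab) (by omega) fp fp' q q' e e' d d' l l' hmn
  refine ⟨by omega, ?_⟩
  rcases h5 with h5 | ⟨h5, h6, h7, h8⟩ | ⟨h5, h6, h7⟩
  · exact Or.inl h5
  · exact Or.inr ⟨h5, h6, six_five h h5 ((hT h7).1.dual h.a2 h.b2)
      (by rw [← closure_dual, (hT h7).2, h8])⟩
  · exact (frob h hab h5 ((hT h6).1.dual h.a2 h.b2) (by rw [← closure_dual, (hT h6).2, h7])).elim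

/-! ### the case of odd valency and face length -/

theorem odd_part {d d' i j u u' : ℕ} (hd : Odd d) (hd' : Odd d')
    (h : 2 ^ i * u * d = 2 ^ j * u' * d') (hu : Odd u) (hu' : Odd u') : u * d = u' * d' := by
  have h1 := hu.mul hd
  have h2 := hu'.mul hd'
  rw [mul_assoc, mul_assoc] at h
  refine Nat.dvd_antisymm ?_ ?_
  · exact (Nat.Coprime.pow_right j (Nat.coprime_two_right.2 h1)).dvd_of_dvd_mul_left
      (h ▸ Dvd.intro_left _ rfl)
  · exact (Nat.Coprime.pow_right i (Nat.coprime_two_right.2 h2)).dvd_of_dvd_mul_left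
      (h.symm ▸ Dvd.intro_left _ rfl)

theorem NM.small4 [Finite G] (h : NM a b c) (hm : Odd (orderOf (a * b)))
    (hn : Odd (orderOf (b * c))) (ht : Nat.card G = 2 * LL a b c * 4) {H : Subgroup G} (hb : b ∈ H)
    (hc : c ∈ H) (hH : H.normalCore = ⊥) {f : ℕ} (hf : Nat.card H = 2 * orderOf (b * c) * f) :
    Nat.gcd (orderOf (a * b)) (orderOf (b * c)) * f ≤ 3 := by
  set e := Nat.gcd (orderOf (a * b)) (orderOf (b * c)) * f with he
  have od : ∀ g, Odd (Nat.card (zpowers (a * b) ⊓ cj H g : Subgroup G)) := fun g =>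
    hm.of_dvd_nat (Nat.card_zpowers (a * b) ▸ card_dvd_of_le inf_le_left)
  have key : ∀ g, ∃ i v, (v = 1 ∨ v = 3) ∧ (v = 3 → i ≤ 1) ∧
      2 ^ i * v * Nat.card (zpowers (a * b) ⊓ cj H g : Subgroup G) = 2 * e := fun g => by
    obtain ⟨u, p, q, e1, -⟩ := h.gf hb hc ht hf g
    rw [← he] at e1
    rcases h.kappa (cj H g) with e2 | e2 <;> rw [e2] at e1 <;> interval_cases u
    · exact ⟨0, 1, by simp, by simp, by omega⟩
    · exact ⟨1, 1, by simp, by simp, by omega⟩
    · exact ⟨0, 3, by simp, by simp, by omega⟩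
    · exact ⟨2, 1, by simp, by simp, by omega⟩
    · exact ⟨1, 1, by simp, by simp, by omega⟩
    · exact ⟨2, 1, by simp, by simp, by omega⟩
    · exact ⟨1, 3, by simp, by simp, by omega⟩
    · exact ⟨3, 1, by simp, by simp, by omega⟩
  choose i v hv hi he' using key
  have vo : ∀ g, Odd (v g) := fun g => by rcases hv g with e | e <;> rw [e] <;> decide
  have eq := fun g g' => odd_part (od g) (od g') ((he' g).trans (he' g').symm) (vo g) (vo g')
  have bot : ∀ g0, (∀ g, v g ∣ v g0) → zpowers (a * b) ⊓ cj H g0 = ⊥ := fun g0 h0 => by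
    rw [eq_bot_iff, ← hH]
    refine fun w hw => mem_core fun g => (cyc_le (Z := zpowers (a * b))
      (B := zpowers (a * b) ⊓ cj H g) inf_le_left inf_le_left ?_ hw).2
    obtain ⟨k, hk⟩ := h0 g
    have := eq g g0
    rw [hk, mul_assoc] at this
    exact Dvd.intro_left k (Nat.eq_of_mul_eq_mul_left (vo g).pos this).symm
  by_cases h3 : ∃ g0, v g0 = 3
  · obtain ⟨g0, h0⟩ := h3
    have h1 := he' g0
    rw [bot g0 (fun g => by rw [h0]; rcases hv g with e | e <;> rw [e]; norm_num), card_bot, h0] at h1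
    have := hi g0 h0
    interval_cases i g0 <;> omega
  · have v1 : ∀ g, v g = 1 := fun g => (hv g).resolve_right fun e => h3 ⟨g, e⟩
    have h1 := bot 1 fun g => by rw [v1 g]; exact one_dvd _
    rw [cj_one] at h1
    obtain ⟨u, p, q, e1, tr⟩ := h.gf hb hc ht hf 1
    rw [cj_one] at e1 tr
    rw [h.kappa_one hb, h1, card_bot, ← he] at e1
    by_contra h5
    have al := all_of_ob (tr (by omega))
    have fix : ∀ g, g⁻¹ * b * g ∈ H → g ∈ H := fun g hg => by
      obtain ⟨d, hd, hdg⟩ := al g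
      obtain ⟨w, hw, hk⟩ : ∃ w ∈ zpowers (a * b), w⁻¹ * g ∈ H := by
        rcases (dih_mem h.a2 h.b2).1 hd with h6 | h6
        · exact ⟨d, h6, hdg⟩
        · exact ⟨d * b, h6, by rw [mul_inv_rev, mul_assoc]; exact mul_mem (inv_mem hb) hdg⟩
      have h6 : w⁻¹ * b * w ∈ H := by
        have := mul_mem (mul_mem hk hg) (inv_mem hk)
        simpa [mul_assoc] using this
      have h7 : w⁻¹ * w⁻¹ ∈ H := by
        have := mul_mem h6 hb
        rwa [mul_assoc, mul_assoc, ← mul_assoc b, dih_inv_r h.a2 h.b2 hw] at this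
      have h8 : w ∈ H := inv_mem_iff.1 (mem_of_sq_mem h7
        (hm.of_dvd_nat (orderOf_dvd_of_mem_zpowers (inv_mem hw))))
      simpa using mul_mem h8 hk
    obtain ⟨w, hw, hbw⟩ := conj_of_odd h.b2 h.c2 hn
    have wH : w ∈ H := dih_le hb hc (zp_le_dih hw)
    have h6 : w * a ∈ H := fix _ (by
      rw [hbw, mul_inv_rev, inv_eq_self h.a2]
      simpa [mul_assoc, ← h.ac, mul_cancel_inv h.a2] using hc)
    have h7 := h.eq_top ((mul_mem_cancel_left wH).1 h6) hb hc
    rw [h7, inf_top_eq, zpowers_eq_bot] at h1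
    exact h.x_ne_one h1

theorem NM.side4 [Finite G] (h : NM a b c) (hab : NoAb G) (hm : Odd (orderOf (a * b)))
    (hn : Odd (orderOf (b * c))) (ht : Nat.card G = 2 * LL a b c * 4) :
    ∃ f u, 0 < f ∧ 0 < u ∧ Nat.gcd (orderOf (a * b)) (orderOf (b * c)) * f ≤ 3 ∧
      (1 + orderOf (b * c) * u) * f * Nat.gcd (orderOf (a * b)) (orderOf (b * c)) =
        orderOf (a * b) * 4 := by
  have h8 : Nat.card G ∣ 8 * LL a b c := ⟨1, by omega⟩
  have gp : 0 < Nat.gcd (orderOf (a * b)) (orderOf (b * c)) := Nat.gcd_pos_of_pos_left _ (orderOf_pos _)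
  have Lo : Odd (LL a b c) := (hm.mul hn).of_dvd_nat (Nat.lcm_dvd_mul _ _)
  obtain ⟨f, fp, ⟨q, q'⟩, hT, hc, hr, hi, -⟩ := h.finish hab (oc_of h8)
    (h2_of8 (orderOf_eq_prime ((sq a).trans h.a2) h.a1) h8 Lo) ht
    (fun f => Nat.gcd (orderOf (a * b)) (orderOf (b * c)) * f ≤ 3 ∧
      (orderOf (b * c)).Coprime (2 * f)) fun H hb hc hH f hf => by
      have q := h.small4 hm hn ht hb hc hH hf
      have f3 := (Nat.le_mul_of_pos_left f gp).trans q
      have fp : 0 < f := Nat.pos_of_ne_zero fun e => by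
        have := Nat.card_pos (α := H)
        rw [hf, e] at this
        omega
      have c2 := Nat.coprime_two_right.2 hn
      have k : f = 3 → (orderOf (b * c)).Coprime 6 := by
        rintro rfl
        refine (c2.mul_right ?_ : (orderOf (b * c)).Coprime (2 * 3))
        have g1 : (orderOf (a * b)).Coprime (orderOf (b * c)) := by
          unfold Nat.Coprime; omega
        refine (g1.coprime_dvd_left ?_).symm
        have h4 := index_mul_card H
        rw [hf, ht, LL, g1.lcm_eq_mul] at h4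
        have h5 : H.index * 3 = orderOf (a * b) * 4 :=
          Nat.eq_of_mul_eq_mul_left (show 0 < 2 * orderOf (b * c) from by
            have := orderOf_pos (b * c); omega) (by linarith)
        omega
      refine ⟨⟨q, ?_⟩, ?_⟩
      · interval_cases f
        · exact c2
        · exact c2.mul_right c2
        · exact k rfl
      · rcases (by omega : f ≤ 2 ∨ f = 3) with e | e
        · exact Or.inl e
        · exact Or.inr ⟨e, k e⟩
  obtain ⟨u, hu⟩ := q'.dvd_of_dvd_mul_left (hr ▸ hT.dvd)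
  have B0 : (normalizer (zpowers (b * c) : Set G)).index ≠ 0 := index_ne_zero_of_finite
  have B1 : (normalizer (zpowers (b * c) : Set G)).index ≠ 1 := fun e => by
    rw [index_eq_one] at e
    exact h.a1 (mem_bot.1 (hc ▸ mem_core fun g => mem_cj.2 (e ▸ mem_top _)))
  refine ⟨f, u, fp, Nat.pos_of_ne_zero fun e => ?_, q, ?_⟩
  · rw [e] at hu; omega
  · rw [← hi, ← hu]; congr 2; omega

/-- the finite check -/
def P4 (m n s s' u : ℕ) : Prop :=
  (0 < u ∧ 0 < s' ∧ (1 + n * u) * s = m * 4 ∧ (n * 4 - s') % (m * s') = 0) →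
    m * n ≤ 2 * m + 2 * n + 47 ∨
      (Nat.gcd m n = 1 ∧ (m * n = 2 * m + 2 * n + 121 ∨ m * n = 2 * m + 2 * n + 217))

instance (m n s s' u : ℕ) : Decidable (P4 m n s s' u) := by unfold P4; infer_instance

theorem fin4 : ∀ m < 11, ∀ n < 42, ∀ s < 4, ∀ s' < 4, ∀ u < 4,
    P4 (2 * m + 1) (2 * n + 1) s s' u := by
  have : ∀ (m : Fin 11) (n : Fin 42) (s s' u : Fin 4), P4 (2 * m + 1) (2 * n + 1) s s' u := by
    decide +kernel
  exact fun m hm n hn s hs s' hs' u hu => this ⟨m, hm⟩ ⟨n, hn⟩ ⟨s, hs⟩ ⟨s', hs'⟩ ⟨u, hu⟩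

theorem arith4 {m n g f u f' v p : ℕ} (hg : g = Nat.gcd m n) (mo : Odd m) (no : Odd n)
    (fp : 0 < f) (fp' : 0 < f') (up : 0 < u) (q : g * f ≤ 3) (q' : g * f' ≤ 3)
    (e : (1 + n * u) * f * g = m * 4) (e' : (1 + m * v) * f' * g = n * 4) (hmn : m ≤ n)
    (hp : p.Prime) (h47 : 47 < p) (h : m * n = 2 * m + 2 * n + g * p) : False := by
  have gp : 0 < g := hg ▸ Nat.gcd_pos_of_pos_left _ mo.pos
  rw [mul_assoc, mul_comm f] at e
  rw [mul_assoc, mul_comm f'] at e'
  have s0 : 0 < g * f := Nat.mul_pos gp fp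
  have s0' : 0 < g * f' := Nat.mul_pos gp fp'
  have g3 : g ≤ 3 := (Nat.le_mul_of_pos_right g fp).trans q
  generalize g * f = s at *
  generalize g * f' = s' at *
  have us : u * s ≤ 3 := by
    by_contra h1
    have : n * 4 ≤ n * (u * s) := Nat.mul_le_mul_left _ (by omega)
    nlinarith
  have md : m ∣ 4 * s + s' * (u * s) := by
    have e2 : 4 * s + s' * (u * s) + m * (v * s' * (u * s)) = m * 16 := by nlinarith
    exact (Nat.dvd_add_left (Dvd.intro _ rfl)).1 (e2 ▸ Dvd.intro _ rfl)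
  have m21 : m ≤ 21 := (Nat.le_of_dvd (by omega) md).trans (by nlinarith)
  have u3 : u ≤ 3 := (Nat.le_mul_of_pos_right u s0).trans us
  obtain ⟨m', rfl⟩ := mo
  obtain ⟨n', rfl⟩ := no
  have g' : g = 1 ∨ g = 3 := by
    have : Odd g := Odd.of_dvd_nat ⟨m', rfl⟩ (hg ▸ Nat.gcd_dvd_left _ _)
    rw [Nat.odd_iff] at this
    omega
  have m10 : m' ≤ 10 := by omega
  have n41 : n' ≤ 41 := by
    have h1 := Nat.le_mul_of_pos_right (1 + (2 * n' + 1) * u) s0
    have h2 := Nat.le_mul_of_pos_right (2 * n' + 1) up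
    omega
  have := fin4 m' (by omega) n' (by omega) s (by omega) s' (by omega) u (by omega) ⟨up, s0', e, by
    rw [← e', add_mul, one_mul, Nat.add_sub_cancel_left, mul_right_comm]
    exact Nat.mul_mod_right _ _⟩
  rw [h, ← hg] at this
  rcases g' with rfl | rfl
  · have h1 : p = 121 ∨ p = 217 := by omega
    rcases h1 with rfl | rfl
    · exact absurd hp (by norm_num)
    · exact absurd hp (by norm_num)
  · omega

theorem t4_noab [Finite G] (h : NM a b c) (hab : NoAb G) (hm : Odd (orderOf (a * b)))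
    (hn : Odd (orderOf (b * c))) (ht : Nat.card G = 2 * LL a b c * 4) {p : ℕ} (hp : p.Prime)
    (h47 : 47 < p) (e : orderOf (a * b) * orderOf (b * c) = 2 * orderOf (a * b) +
      2 * orderOf (b * c) + Nat.gcd (orderOf (a * b)) (orderOf (b * c)) * p) : False := by
  obtain ⟨f, u, fp, up, q, e1⟩ := h.side4 hab hm hn ht
  obtain ⟨f', v, fp', vp, q', e2⟩ := h.dual.side4 hab (by rwa [ord_dual h.b2 h.c2])
    (by rwa [ord_dual h.a2 h.b2]) (h.LL_dual ▸ ht)
  rw [ord_dual h.a2 h.b2, ord_dual h.b2 h.c2, Nat.gcd_comm] at q' e2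
  rcases le_total (orderOf (a * b)) (orderOf (b * c)) with l | l
  · exact arith4 rfl hm hn fp fp' up q q' e1 e2 l hp h47 e
  · exact arith4 (Nat.gcd_comm _ _) hn hm fp' fp vp q' q e2 e1 l hp h47 (by linarith)

end Pool.Agent.MP_912f41_co
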