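import Pool.Agent.MP_912f41_co.Model

/-! The classification. -/

set_option autoImplicit false

namespace Pool.Agent.MP_912f41_co

open Subgroup

variable {G : Type} [Group G] {a b c : G} {U : Subgroup G} [U.Normal] {j l : ℕ}

/-- the numerical form of the Euler formula -/
def EF (a b c : G) (t p : ℕ) : Prop := t * (orderOf (a * b) * orderOf (b * c)) =
  t * (2 * orderOf (a * b) + 2 * orderOf (b * c)) +
    4 * p * Nat.gcd (orderOf (a * b)) (orderOf (b * c))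

theorem EF.dual {t p : ℕ} (e : EF a b c t p) (h : WM a b c) : EF c b a t p := by
  unfold EF at *
  rw [ord_dual h.a2 h.b2, ord_dual h.b2 h.c2, Nat.gcd_comm, mul_comm (orderOf (b * c)), e]
  ring

theorem UD.facts [Finite G] (h : UD a b c U j l) {t : ℕ} (ht : Nat.card G = 2 * LL a b c * t) :
    orderOf (a * b) = orderOf (QuotientGroup.mk' U a * QuotientGroup.mk' U b) * j ∧
    orderOf (b * c) = orderOf (QuotientGroup.mk' U b * QuotientGroup.mk' U c) * l ∧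
    Nat.card (G ⧸ U) =
      2 * LL (QuotientGroup.mk' U a) (QuotientGroup.mk' U b) (QuotientGroup.mk' U c) * t ∧
    Nat.gcd (orderOf (a * b)) (orderOf (b * c)) =
      Nat.gcd (orderOf (QuotientGroup.mk' U a * QuotientGroup.mk' U b))
        (orderOf (QuotientGroup.mk' U b * QuotientGroup.mk' U c)) := by
  have h1 := orderOf_mk U (a * b)
  have h2 := orderOf_mk U (b * c)
  rw [h.hj, map_mul] at h1
  rw [h.hl, map_mul] at h2
  refine ⟨h1.symm, h2.symm, Nat.eq_of_mul_eq_mul_right (Nat.card_pos (α := U)) ?_,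
    Nat.eq_of_mul_eq_mul_right (LL_pos a b c) ?_⟩
  · rw [card_quot, ht, h.hL, h.cU]
    ring
  · rw [Nat.gcd_mul_lcm, h.hL, ← mul_assoc, Nat.gcd_mul_lcm, ← h1, ← h2]
    ring

theorem UD.exc [Finite G] [IsCyclic U] (h : UD a b c U j l) {t p : ℕ} (hp : p.Prime) (h7 : 7 < p)
    (ht : Nat.card G = 2 * LL a b c * t) (e : EF a b c t p)
    (hE : Exc (QuotientGroup.mk' U a) (QuotientGroup.mk' U b) (QuotientGroup.mk' U c)) : False := by
  obtain ⟨hm, hn, hQ, hg⟩ := h.facts ht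
  obtain ⟨h4, hE⟩ := hE
  obtain rfl : t = 2 := Nat.eq_of_mul_eq_mul_left (Nat.mul_pos two_pos (LL_pos _ _ _))
    (by rw [← hQ, h4]; ring)
  obtain ⟨p', hp'⟩ := hp.odd_of_ne_two (by omega)
  obtain ⟨j', hj⟩ := h.jo
  obtain ⟨l', hl⟩ := h.lo
  unfold EF at e
  rw [hg, hm, hn] at e
  rcases hE with ⟨e1, e2⟩ | ⟨e1, e2⟩ | ⟨e1, e2⟩ | ⟨e1, e2⟩ | ⟨e1, e2, e3⟩ <;> rw [e1, e2] at e
  iterate 4
    rw [hj, hl, hp'] at e
    norm_num at e
    ring_nf at e
    omega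
  rw [← map_mul, ← map_mul, ← map_pow, ← map_pow] at e3
  obtain ⟨z, hz, ez⟩ := (QuotientGroup.mk'_eq_mk' U).1 e3
  obtain rfl : j = 1 := by
    rw [← h.hj, card_eq_one, eq_bot_iff_forall]
    intro w hw
    refine eq_one_of_odd (h.ho w hw.2) (h.nm.sq_of_inv (cyc_comm (mem_zpowers _) hw.1)
      (h.nm.odd_pow_comm U (k := 3) (by decide) hw.2 ?_) (dih_inv_r h.nm.a2 h.nm.b2 hw.1))
    rw [← ez, mul_assoc, cyc_comm hz hw.2, ← mul_assoc, cyc_comm (pow_mem (mem_zpowers _) 5) hw.1,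
      mul_assoc]
  obtain rfl : l = 1 := by
    rw [← h.hl, card_eq_one, eq_bot_iff_forall]
    intro w hw
    refine eq_one_of_odd (h.ho w hw.2) (h.nm.sq_of_inv (h.nm.odd_pow_comm U (k := 5) (by decide)
      hw.2 ?_) (cyc_comm (mem_zpowers _) hw.1) (dih_inv_l h.nm.b2 h.nm.c2 hw.1))
    rw [eq_mul_inv_of_mul_eq ez, mul_assoc, cyc_comm (inv_mem hz) hw.2, ← mul_assoc,
      cyc_comm (pow_mem (mem_zpowers _) 3) hw.1, mul_assoc]
  norm_num at e
  omega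

theorem UD.not_one [Finite G] (h : UD a b c U j l) {p : ℕ} (ht : Nat.card G = 2 * LL a b c * 1)
    (e : EF a b c 1 p) (hP : IsPGroup 2 (normalClosure {QuotientGroup.mk' U a})) : False := by
  obtain ⟨hm, hn, -, -⟩ := h.facts ht
  obtain ⟨u, u0, u1, hg⟩ := h.nm.gcd_eq ht
  obtain rfl : u = 1 := by omega
  unfold EF at e
  have k : ∀ d, d ∣ orderOf (a * b) → d ∣ orderOf (b * c) →
    d ∣ Nat.gcd (orderOf (a * b)) (orderOf (b * c)) := fun _ => Nat.dvd_gcd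
  rcases hg with hg | ⟨hg, -⟩ <;> rw [hg] at e k
  · obtain ⟨α, hα⟩ := h.nq.x_two hP
    have no : Odd (orderOf (b * c)) := Nat.not_even_iff_odd.1 fun he => by
      refine absurd (k 2 ?_ he.two_dvd) (by norm_num)
      rw [hm, hα]
      refine (dvd_pow_self 2 fun e => h.nq.x_ne_one ?_).mul_right j
      rw [← orderOf_eq_one_iff, hα, e, pow_zero]
    have h1 : α ≤ 1 := not_lt.1 fun lt => by
      obtain ⟨m, hm⟩ : 4 ∣ orderOf (a * b) := hm ▸ hα ▸ (pow_dvd_pow 2 lt).mul_right j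
      obtain ⟨n, hn⟩ := no
      rw [hm, hn] at e
      ring_nf at e
      omega
    have h2 := comm_of_order_two h.nq.a2 h.nq.b2 (hα ▸ pow_dvd_pow 2 h1)
    exact h.nq.y_ne_one (h.nq.kill' h.red (mem_zpowers _) (no.of_dvd_nat (hn ▸ Dvd.intro _ rfl))
      (Commute.mul_left h2 h.nq.ac.symm))
  · obtain ⟨m, hm⟩ : 2 ∣ orderOf (a * b) := (Dvd.intro 1 hg.symm).trans (Nat.gcd_dvd_left _ _)
    obtain ⟨n, hn⟩ : 2 ∣ orderOf (b * c) := (Dvd.intro 1 hg.symm).trans (Nat.gcd_dvd_right _ _)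
    have k4 := k 4
    rw [hm, hn] at e k4
    rcases Nat.even_or_odd' m with ⟨m, rfl | rfl⟩ <;> rcases Nat.even_or_odd' n with ⟨n, rfl | rfl⟩
    · exact absurd (k4 ⟨m, by ring⟩ ⟨n, by ring⟩) (by norm_num)
    all_goals
      ring_nf at e
      omega

theorem ef_iff {g j l p : ℕ} (g0 : 0 < g) (hm : orderOf (a * b) = g * (2 * j))
    (hn : orderOf (b * c) = g * (3 * l)) (hg : Nat.gcd (orderOf (a * b)) (orderOf (b * c)) = g) :
    EF a b c 2 p ↔ 3 * g * (j * l) = p + 2 * j + 3 * l := by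
  unfold EF
  rw [hg, hm, hn, ← Nat.mul_right_inj (show 4 * g ≠ 0 by omega) (b := 3 * g * (j * l))]
  constructor <;> intro e <;> linarith

theorem UD.half [Finite G] [IsCyclic U] (h : UD a b c U j l) {t p : ℕ}
    (ht : Nat.card G = 2 * LL a b c * t) (t2 : t ∣ 2) (e : EF a b c t p)
    (hP : IsPGroup 2 (normalClosure {QuotientGroup.mk' U a})) :
    ∃ τ : Fam, τ.ok p ∧ τ.Model a b c := by
  rcases (Nat.dvd_prime Nat.prime_two).1 t2 with rfl | rfl
  · exact (h.not_one ht e hP).elim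
  obtain ⟨hm, hn, hQ, hg⟩ := h.facts ht
  have key : ∀ g, 0 < g → orderOf (QuotientGroup.mk' U a * QuotientGroup.mk' U b) = 2 * g →
      orderOf (QuotientGroup.mk' U b * QuotientGroup.mk' U c) = 3 * g →
      Nat.card (G ⧸ U) = 24 * g ∧ (2 * j).Coprime (3 * l) ∧
        3 * g * (j * l) = p + 2 * j + 3 * l ∧ Nat.card G = 24 * g * (j * l) := fun g g0 e1 e2 => by
    rw [LL, e1, e2, Nat.lcm_mul_right] at hQ
    rw [e1, e2, Nat.gcd_mul_right, show Nat.gcd 2 3 = 1 by rfl, one_mul] at hg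
    have hm' : orderOf (a * b) = g * (2 * j) := by rw [hm, e1]; ring
    have hn' : orderOf (b * c) = g * (3 * l) := by rw [hn, e2]; ring
    have hQ' : Nat.card (G ⧸ U) = 24 * g := by rw [hQ, show Nat.lcm 2 3 = 6 by rfl]; ring
    refine ⟨hQ', ?_, (ef_iff g0 hm' hn' hg).1 e, by rw [← card_quot U, hQ', h.cU]⟩
    rw [hm', hn', Nat.gcd_mul_left] at hg
    exact Nat.eq_of_mul_eq_mul_left g0 (hg.trans (mul_one g).symm)
  rcases solv2 h.nq h.red (by rw [hQ]; ring) hP with ⟨e1, e2, hR | hR⟩ | ⟨e1, e2, s, hR⟩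
  · obtain ⟨k1, k2, k3, -⟩ := key 2 two_pos e1 e2
    obtain ⟨rfl, hM⟩ := h.emb1 e2 k1 k2 hR
    exact ⟨.one l, (Fam.ok_iff p _).2 ⟨odd_one, k3⟩, hM⟩
  · obtain ⟨k1, k2, k3, k4⟩ := key 2 two_pos e1 e2
    obtain ⟨φ, ha, hb, hc⟩ := h.emb2 (k := 2) ⟨2, rfl⟩ e1 e2 k1 k2 hR base2
    exact ⟨.two j l, (Fam.ok_iff p _).2 ⟨h.jo, k3⟩, emb_of h.nm.gen φ ha hb hc (k4.trans
      (model_card (τ := .two j l) h.jo h.lo k2 (gen_sub _ _ _) (emb_self _ _ _)).symm).le⟩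
  · obtain ⟨k1, k2, k3, k4⟩ := key 4 four_pos e1 e2
    obtain ⟨φ, ha, hb, hc⟩ := h.emb2 (k := 4) ⟨1, rfl⟩ e1 e2 k1 k2 hR (base3 s)
    exact ⟨.three s j l, (Fam.ok_iff p _).2 ⟨h.jo, k3⟩, emb_of h.nm.gen φ ha hb hc (k4.trans
      (model_card (τ := .three s j l) h.jo h.lo k2 (gen_sub _ _ _) (emb_self _ _ _)).symm).le⟩

theorem classify [Finite G] (h : NM a b c) {p : ℕ} (hp : p.Prime) (h83 : 83 < p)
    (he : euler a b c = -2 * p) : ∃ τ : Fam, τ.ok p ∧ (τ.Model a b c ∨ τ.Model c b a) := by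
  obtain ⟨t, ht⟩ := h.two_L_dvd
  have e : EF a b c t p := (h.euler_iff ht p).1 he
  by_cases pt : p ∣ t
  · obtain ⟨s, rfl⟩ := pt
    refine (caseA' h.toWM hp h83 ht (Nat.eq_of_mul_eq_mul_left hp.pos ?_)).elim
    unfold EF at e
    linarith
  obtain ⟨m, hm⟩ := Nat.gcd_dvd_left (orderOf (a * b)) (orderOf (b * c))
  obtain ⟨n, hn⟩ := Nat.gcd_dvd_right (orderOf (a * b)) (orderOf (b * c))
  have g0 := Nat.gcd_pos_of_pos_left (orderOf (b * c)) (orderOf_pos (a * b))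
  have e1 : t * (orderOf (a * b) * n) = t * (2 * m + 2 * n) + 4 * p := by
    refine Nat.eq_of_mul_eq_mul_left g0 ?_
    unfold EF at e
    generalize Nat.gcd (orderOf (a * b)) (orderOf (b * c)) = g at *
    rw [hn, hm] at e
    rw [hm]
    linarith
  have t4' : t ∣ 2 ^ 2 := ((Nat.Prime.coprime_iff_not_dvd hp).2 pt).symm.dvd_of_dvd_mul_right
    ((Nat.dvd_add_right (Dvd.intro _ rfl)).1 (e1 ▸ Dvd.intro _ rfl))
  by_cases t4 : t = 4
  · subst t4
    have h1 : Odd (orderOf (a * b) * n) := by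
      obtain ⟨i, hi⟩ := hp.odd_of_ne_two (by omega)
      exact ⟨m + n + i, by omega⟩
    have mo := (Nat.odd_mul.1 h1).1
    refine (t4 h mo ?_ ht hp (by omega) ?_).elim
    · rw [hn]
      exact (mo.of_dvd_nat (Nat.gcd_dvd_left _ _)).mul (Nat.odd_mul.1 h1).2
    · unfold EF at e
      linarith
  have t2 : t ∣ 2 := by
    obtain ⟨i, hi, rfl⟩ := (Nat.dvd_prime_pow Nat.prime_two).1 t4'
    interval_cases i <;> simp at t4 ⊢
  obtain ⟨U, _, _, j, l, h1, h2, h3, h4, h5, h6, h7, h8, h9⟩ := h.red ht t2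
  have u : UD a b c U j l := ⟨h, h1, h2, h3, h4, h5, h6, h7, h8, h9⟩
  have ht' : Nat.card G = 2 * LL c b a * t := h.LL_dual ▸ ht
  have d4 : Nat.card (G ⧸ U) ∣
      4 * LL (QuotientGroup.mk' U a) (QuotientGroup.mk' U b) (QuotientGroup.mk' U c) :=
    quot_dvd (ht ▸ (Nat.mul_dvd_mul_left _ t2).trans ⟨1, by ring⟩) U
  by_cases hs : Group.IsSolvable (G ⧸ U)
  · rcases solv1 h8 h7 d4 with hP | hP
    · exact (u.half ht t2 e hP).imp fun _ k => ⟨k.1, Or.inl k.2⟩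
    · exact (u.dual.half ht' t2 (e.dual h.toWM) hP).imp fun _ k => ⟨k.1, Or.inr k.2⟩
  · rcases lift h8.toWM h7 d4 hs with hE | hE
    · exact (u.exc hp (by omega) ht e hE).elim
    · exact (u.dual.exc hp (by omega) ht' (e.dual h.toWM) hE).elim

theorem cop {g u v p : ℕ} (hp : p.Prime) (h4 : 4 ≤ p) (u0 : 0 < u) (v0 : 0 < v) (g0 : 0 < g)
    (h : g * (u * v) = p + u + v) : u.Coprime v := by
  have d : Nat.gcd u v ∣ p := (Nat.dvd_add_left (Nat.gcd_dvd_left u v)).1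
    ((Nat.dvd_add_left (Nat.gcd_dvd_right u v)).1
      (h ▸ ((Nat.gcd_dvd_left u v).mul_right v).mul_left g))
  refine ((Nat.dvd_prime hp).1 d).resolve_right fun e => ?_
  obtain ⟨u, rfl⟩ : p ∣ u := e ▸ Nat.gcd_dvd_left u v
  obtain ⟨v, rfl⟩ : p ∣ v := e ▸ Nat.gcd_dvd_right _ v
  have h1 : g * p * (u * v) = 1 + u + v := Nat.eq_of_mul_eq_mul_left hp.pos (by linarith)
  have h2 : 4 * (u * v) ≤ g * p * (u * v) := Nat.mul_le_mul_right _ (h4.trans (Nat.le_mul_of_pos_left p g0))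
  have u1 := Nat.pos_of_mul_pos_left u0
  have v1 := Nat.pos_of_mul_pos_left v0
  nlinarith

theorem Fam.ok.good {p : ℕ} {τ : Fam} (h : τ.ok p) (hp : p.Prime) (h4 : 4 ≤ p) :
    Odd τ.j ∧ Odd τ.l ∧ (2 * τ.j).Coprime (3 * τ.l) := by
  obtain ⟨jo, e⟩ := (Fam.ok_iff p τ).1 h
  obtain ⟨g, g0, hg⟩ : ∃ g, 0 < g ∧ τ.g = 2 * g := by
    cases τ
    · exact ⟨1, one_pos, rfl⟩
    · exact ⟨1, one_pos, rfl⟩
    · exact ⟨2, two_pos, rfl⟩
  have lo : Odd τ.l := by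
    obtain ⟨i, hi⟩ := hp.odd_of_ne_two (by omega)
    rw [hg, show 3 * (2 * g) * (τ.j * τ.l) = 2 * (3 * g * (τ.j * τ.l)) by ring] at e
    rw [Nat.odd_iff]
    omega
  have := jo.pos
  have := lo.pos
  exact ⟨jo, lo, cop hp h4 (by omega) (by omega) g0 (by rw [← e, hg]; ring)⟩

theorem nm_iff : IsNonorMap a b c ↔ NM a b c := by
  have k : ∀ s : G, orderOf s = 2 ↔ s * s = 1 ∧ s ≠ 1 := fun s =>
    ⟨fun e => ⟨by rw [← sq, ← e, pow_orderOf_eq_one], fun e1 => by simp [e1] at e⟩,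
      fun e => orderOf_eq_prime ((sq s).trans e.1) e.2⟩
  constructor
  · rintro ⟨h1, h2, h3, h4, h5, h6⟩
    rw [k] at h1 h2 h3
    refine ⟨⟨h1.1, h2.1, h3.1, ?_, h5, h6⟩, h1.2, h2.2, h3.2⟩
    rw [← inv_mul_inv h1.1 h3.1, inv_eq_self ((sq _).symm.trans h4)]
  · intro h
    refine ⟨(k a).2 ⟨h.a2, h.a1⟩, (k b).2 ⟨h.b2, h.b1⟩, (k c).2 ⟨h.c2, h.c1⟩, ?_, h.gen, h.non⟩
    simp only [sq, nf h.a2 h.b2 h.c2 h.ac]

theorem euler_dual (a b c : G) : euler c b a = euler a b c := by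
  rw [euler, euler, closure_dual a b, closure_dual a c, closure_dual b c]
  ring

theorem sound {p : ℕ} {τ : Fam} (h : τ.ok p) (hp : p.Prime) (h4 : 4 ≤ p)
    (gen : closure {a, b, c} = ⊤) (hM : τ.Model a b c) : NM a b c ∧ euler a b c = -2 * p := by
  obtain ⟨jo, lo, co⟩ := h.good hp h4
  obtain ⟨_, nm, hm, hn, hc⟩ := model τ jo lo co gen hM
  refine ⟨nm, (nm.euler_iff hc p).2 ((ef_iff ?_ hm hn (LL_eq co hm hn).2).2
    ((Fam.ok_iff p τ).1 h).2)⟩
  cases τ <;> simp [Fam.g]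

theorem Emb.iso {H : Type} [Group H] {A B C : H} (h : Emb a b c A B C) (gen : closure {a, b, c} = ⊤)
    {G' : Type} [Group G'] {a' b' c' : G'} (h' : Emb a' b' c' A B C)
    (gen' : closure {a', b', c'} = ⊤) : ∃ e : G ≃* G', e a = a' ∧ e b = b' ∧ e c = c' := by
  obtain ⟨φ, inj, ha, hb, hc⟩ := h
  obtain ⟨ψ, inj', ha', hb', hc'⟩ := h'
  have e : φ.range = ψ.range := by rw [range_eq gen, range_eq gen', ha, hb, hc, ha', hb', hc']
  have k : ∀ g g', φ g = ψ g' → ((MonoidHom.ofInjective inj).trans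
      ((MulEquiv.subgroupCongr e).trans (MonoidHom.ofInjective inj').symm)) g = g' :=
    fun g g' e1 => (MonoidHom.ofInjective inj').symm_apply_eq.2 (Subtype.ext e1)
  exact ⟨_, k _ _ (ha.trans ha'.symm), k _ _ (hb.trans hb'.symm), k _ _ (hc.trans hc'.symm)⟩

theorem one_two {l j l' : ℕ} (lo : Odd l) (gen : closure {a, b, c} = ⊤)
    (h : (Fam.one l).Model a b c) (h' : (Fam.two j l').Model a b c) : False := by
  obtain ⟨-, -, -, -, -, rel⟩ := model1 lo gen h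
  obtain ⟨φ, -, ha, hb, hc⟩ := h'
  have := congrArg (fun g => (φ g).2.1) rel
  simp [ha, hb, hc] at this

theorem three_ne {j l j' l' : ℕ} (jo : Odd j) (lo : Odd l) (gen : closure {a, b, c} = ⊤)
    (h : (Fam.three true j l).Model a b c) (h' : (Fam.three false j' l').Model a b c) : False := by
  obtain ⟨-, -, -, -, -, rel⟩ := model2 (by norm_num) (base3 true) jo lo gen h
  obtain ⟨φ, -, ha, hb, hc⟩ := h'
  have h1 := congrArg ((MonoidHom.fst _ _).comp φ) rel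
  rw [map_pow, map_mul, map_pow, map_inv, map_W3, map_mul, map_one] at h1
  simp only [MonoidHom.comp_apply, ha, hb, hc, MonoidHom.coe_fst] at h1
  exact absurd ((jo.mul lo).of_dvd_nat (ord_W16 ▸ orderOf_dvd_of_pow_eq_one h1)) (by decide)

theorem unique {p : ℕ} {τ σ : Fam} (h : τ.ok p) (h' : σ.ok p) (hp : p.Prime) (h4 : 4 ≤ p)
    (gen : closure {a, b, c} = ⊤) (hM : τ.Model a b c) :
    (σ.Model a b c → σ = τ) ∧ ¬ σ.Model c b a := by
  obtain ⟨jo, lo, co⟩ := h.good hp h4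
  obtain ⟨jo', lo', co'⟩ := h'.good hp h4
  obtain ⟨_, nm, hm, hn, -⟩ := model τ jo lo co gen hM
  refine ⟨fun hM' => ?_, fun hM' => ?_⟩
  · obtain ⟨-, -, hm', hn', -⟩ := model σ jo' lo' co' gen hM'
    rw [hm] at hm'
    rw [hn] at hn'
    have o1 := Nat.odd_iff.1 jo
    have o2 := Nat.odd_iff.1 jo'
    rcases τ with l | ⟨j, l⟩ | ⟨s, j, l⟩ <;> rcases σ with l' | ⟨j', l'⟩ | ⟨s', j', l'⟩ <;>
      simp only [Fam.g, Fam.j, Fam.l] at hm' hn' o1 o2
    · rw [show l' = l by omega]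
    · exact (one_two lo gen hM hM').elim
    · omega
    · exact (one_two lo' gen hM' hM).elim
    · rw [show l' = l by omega, show j' = j by omega]
    · omega
    · omega
    · omega
    · rw [show l' = l by omega, show j' = j by omega]
      cases s <;> cases s'
      · rfl
      · exact (three_ne jo' lo' gen hM' hM).elim
      · exact (three_ne jo lo gen hM hM').elim
      · rfl
  · obtain ⟨-, -, hm', hn', -⟩ := model σ jo' lo' co' nm.dual.gen hM'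
    rw [ord_dual nm.b2 nm.c2, hn] at hm'
    rw [ord_dual nm.a2 nm.b2, hm] at hn'
    rw [Nat.odd_iff] at jo lo jo' lo'
    rcases τ with l | ⟨j, l⟩ | ⟨s, j, l⟩ <;> rcases σ with l' | ⟨j', l'⟩ | ⟨s', j', l'⟩ <;>
      simp only [Fam.g, Fam.j, Fam.l] at hm' hn' jo lo jo' lo' <;> omega

end Pool.Agent.MP_912f41_co
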